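import Pool.Agent.Shared.RealForcing.Bridge

/-! The Cantor space `P(ω)` in the quotient models: its topology, and null sets. -/

namespace Pool.Agent.Shared.RealForcing

open Pool.Agent.Lib.MP_2739cb_lc Set Cardinal

variable {P : Type} [Preorder P] [OrderTop P] {U : GU P}

theorem sub_of_el_om {m m' : MU U} (h : El U m' (cl U om)) (h' : El U m m') : Sub (El U) m m' := by
  obtain ⟨m, rfl⟩ := cl_surj m
  obtain ⟨m', rfl⟩ := cl_surj m'
  revert h'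
  exact wlog_nat m' U h fun U n e h' => e ▸ (isOrd_cl_on n).1 _ (e ▸ h')

theorem nn_sub_om (n : ℕ) : Sub (El U) (cl U (nn n)) (cl U om) :=
  (isOrd_cl_on _).1 _ (el_nn_om n)

theorem forall_el_nn {n : ℕ} {Φ : MU U → Prop} :
    (∀ i, El U i (cl U (nn n)) → Φ i) ↔ ∀ i, i < n → Φ (cl U (nn i)) :=
  ⟨fun h _ hi => h _ (el_nn.2 hi), fun h _ hi => let ⟨m, hm, e⟩ := el_nn_iff.1 hi; e ▸ h m hm⟩

/-- The name of a finite set of natural numbers. -/
noncomputable def fs (s : Finset ℕ) : Nm P := subNm fun n _ => n ∈ s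

theorem el_fs {s : Finset ℕ} {n : ℕ} : El U (cl U (nn n)) (cl U (fs s)) ↔ n ∈ s := el_subNm

theorem el_fs_iff {s : Finset ℕ} {z : MU U} :
    El U z (cl U (fs s)) ↔ ∃ n : s, z = cl U (nn n) := by
  obtain ⟨z, rfl⟩ := cl_surj z
  exact ⟨fun h => wlog_set z nn (fun n _ => n ∈ s) U h fun _ n hn e => ⟨⟨n, hn⟩, e⟩,
    fun ⟨n, e⟩ => e ▸ el_fs.2 n.2⟩

theorem fs_inj {s t : Finset ℕ} (h : cl U (fs s) = cl U (fs t)) : s = t :=
  Finset.ext fun n => by rw [← el_fs (U := U), h, el_fs]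

theorem fs_sub {s : Finset ℕ} {y : MU U} :
    Sub (El U) (cl U (fs s)) y ↔ ∀ n ∈ s, El U (cl U (nn n)) y :=
  ⟨fun h _ hn => h _ (el_fs.2 hn), fun h _ hz => let ⟨n, e⟩ := el_fs_iff.1 hz; e ▸ h n n.2⟩

theorem eq_fs {y : MU U} {M : ℕ} (h : Sub (El U) y (cl U (nn M))) :
    ∃ s ⊆ Finset.range M, y = cl U (fs s) := by
  classical
  refine ⟨(Finset.range M).filter fun i => El U (cl U (nn i)) y, Finset.filter_subset _ _,
    MU_ext _ _ fun z => ⟨fun hz => ?_, fun hz => ?_⟩⟩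
  · obtain ⟨m, hm, rfl⟩ := el_nn_iff.1 (h z hz)
    exact el_fs.2 (by simp [hm, hz])
  · obtain ⟨n, rfl⟩ := el_fs_iff.1 hz
    exact (Finset.mem_filter.1 n.2).2

theorem CylSub.mono {M : Type*} {E : M → M → Prop} {w m m' x y O : M} (h : CylSub E w m x O)
    (h1 : Sub E m m') (h2 : ∀ i, E i m → (E i y ↔ E i x)) : CylSub E w m' y O :=
  fun z hz h3 => h z hz fun i hi => (h3 i (h1 i hi)).trans (h2 i hi)

/-- The Cantor space is a second countable space. -/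
theorem exists_cantor : ∃ S τ : Nm P, ∀ U : GU P,
    (∀ x, El U x (cl U S) ↔ Sub (El U) x (cl U om)) ∧
    (∀ O, El U O (cl U τ) ↔ OpenSet (El U) (cl U om) O) ∧ IsTopology (El U) (cl U S) (cl U τ) ∧
    SecondCountable (El U) (cl U om) (cl U τ) := by
  obtain ⟨S, hS⟩ := exists_pow (P := P) om
  obtain ⟨S', hS'⟩ := exists_pow S
  have hτ : ∀ U O, El U O (cl U (sepN (fun U O => OpenSet (El U) (cl U om) O) S')) ↔
      OpenSet (El U) (cl U om) O := fun U O => by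
    rw [el_sepN fun U O => OpenSet (El U) (cl U om) O, hS']
    exact ⟨fun h => h.2, fun h => ⟨fun x hx => (hS U x).2 (h x hx).1, h⟩⟩
  let c : ℕ × Finset ℕ → Nm P := fun t =>
    sepN (fun U x => ∀ i : Fin t.1, El U (cl U (nn i)) x ↔ i.1 ∈ t.2) S
  have hc : ∀ t U x, El U x (cl U (c t)) ↔ Sub (El U) x (cl U om) ∧
      ∀ i : Fin t.1, El U (cl U (nn i)) x ↔ i.1 ∈ t.2 := fun t U x => by
    rw [el_sepN (P := P) fun U x => ∀ i : Fin t.1, El U (cl U (nn i)) x ↔ i.1 ∈ t.2, hS]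
  refine ⟨S, _, fun U => ⟨hS U, hτ U, ⟨fun V hV x hx => (hS U x).2 ((hτ U V).1 hV x hx).1,
    (hτ U _).2 fun x hx => ⟨(hS U x).1 hx, _, el_nn_om 0, fun y hy _ => (hS U y).2 hy⟩,
    fun V V' I h1 h2 hI => (hτ U _).2 fun x hx => ?_, fun A V h1 h2 => (hτ U _).2 fun x hx => ?_⟩,
    _, fun V hV => ?_, cardLe_setNm c (fun _ _ => True) (by simp), fun V x hV hx => ?_⟩⟩
  · obtain ⟨h3, m, h4, h5⟩ := (hτ U _).1 h1 x ((hI x).1 hx).1
    obtain ⟨-, m', h6, h7⟩ := (hτ U _).1 h2 x ((hI x).1 hx).2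
    rcases (isOrd_cl_on _).2 m m' h4 h6 with h | rfl | h
    · exact ⟨h3, m', h6, fun y hy h8 => (hI y).2
        ⟨h5.mono (sub_of_el_om h6 h) (fun _ _ => Iff.rfl) y hy h8, h7 y hy h8⟩⟩
    · exact ⟨h3, m, h4, fun y hy h8 => (hI y).2 ⟨h5 y hy h8, h7 y hy h8⟩⟩
    · exact ⟨h3, m, h4, fun y hy h8 => (hI y).2
        ⟨h5 y hy h8, h7.mono (sub_of_el_om h4 h) (fun _ _ => Iff.rfl) y hy h8⟩⟩
  · obtain ⟨W, h3, h4⟩ := (h2 x).1 hx
    obtain ⟨h5, m, h6, h7⟩ := (hτ U _).1 (h1 W h3) x h4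
    exact ⟨h5, m, h6, fun y hy h8 => (h2 y).2 ⟨W, h3, h7 y hy h8⟩⟩
  · obtain ⟨V, rfl⟩ := cl_surj V
    refine wlog_set V c _ U hV fun U t _ e => (hτ U _).2 fun x hx => ?_
    rw [e] at hx ⊢
    obtain ⟨h1, h2⟩ := (hc t U x).1 hx
    exact ⟨h1, _, el_nn_om t.1, fun y hy h3 => (hc t U y).2
      ⟨hy, fun i => (h3 _ (el_nn.2 i.2)).trans (h2 i)⟩⟩
  · classical
    obtain ⟨h1, m, h2, h3⟩ := (hτ U _).1 hV x hx
    obtain ⟨m, rfl⟩ := cl_surj m
    obtain ⟨x, rfl⟩ := cl_surj x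
    obtain ⟨V, rfl⟩ := cl_surj V
    clear hV hx
    revert h3; revert h1
    refine wlog_nat m U h2 fun U M e h1 h3 => ?_
    rw [e] at h3
    refine ⟨_, el_setNm c (M, (Finset.range M).filter fun i => El U (cl U (nn i)) (cl U x)) trivial,
      (hc _ U _).2 ⟨h1, fun i => by simp⟩, fun y hy => ?_⟩
    obtain ⟨h4, h5⟩ := (hc _ U _).1 hy
    exact h3 y h4 (forall_el_nn.2 fun i hi => (h5 ⟨i, hi⟩).trans (by simp [hi]))

theorem nullSet_singleton {x N : MU U} (hx : Sub (El U) x (cl U om))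
    (hN : ∀ z, El U z N ↔ z = x) : NullSet (El U) (cl U om) N := by
  intro n hn
  obtain ⟨x, rfl⟩ := cl_surj x
  obtain ⟨n, rfl⟩ := cl_surj n
  obtain ⟨S, hS⟩ := exists_pow (P := P) om
  let O := sepN (fun U y => ∀ i, El U i (cl U n) → (El U i y ↔ El U i (cl U x))) S
  have hO : ∀ U y, El U y (cl U O) ↔ Sub (El U) y (cl U om) ∧
      ∀ i, El U i (cl U n) → (El U i y ↔ El U i (cl U x)) := fun U y => by
    rw [el_sepN fun U y => ∀ i, El U i (cl U n) → (El U i y ↔ El U i (cl U x)), hS]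
  refine ⟨cl U O, fun y hy => ⟨((hO U y).1 hy).1, _, hn, fun z hz h => (hO U z).2
    ⟨hz, fun i hi => (h i hi).trans (((hO U y).1 hy).2 i hi)⟩⟩, fun m Y Z hm hY hZ => ?_,
    fun z hz => (hO U z).2 (by rw [(hN z).1 hz]; exact ⟨hx, fun _ _ => Iff.rfl⟩)⟩
  obtain ⟨m, rfl⟩ := cl_surj m
  obtain ⟨Y, rfl⟩ := cl_surj Y
  obtain ⟨Z, rfl⟩ := cl_surj Z
  clear hx hN N
  revert hZ; revert hY; revert hm
  refine wlog_nat n U hn fun U n' e hm hY hZ => ?_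
  revert hZ; revert hY; revert e
  refine wlog_nat m U hm fun U M e' e hY hZ => ?_
  rw [e'] at hY hZ
  let Ψ : GU P → Prop := fun U => cl U n = cl U (nn n') ∧
    (∀ y, El U y (cl U Y) ↔ Sub (El U) y (cl U (nn M)) ∧
      CylSub (El U) (cl U om) (cl U (nn M)) y (cl U O)) ∧
    ∀ z, El U z (cl U Z) ↔ ∀ i, El U i z → El U i (cl U (nn M)) ∧ ¬ El U i (cl U n)
  have : Dec Ψ := by unfold Ψ; infer_instance
  have hΨ : Ψ U := ⟨e, hY, hZ⟩
  refine ⟨cl U (relNm fs (fun s => fs (s \ Finset.range n')) fun s U => El U (cl U (fs s)) (cl U Y)),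
    isFun_relNm _ _ _ _ _ Ψ (fun U s h hs => ⟨hs, (h.2.2 _).2 fun i hi => ?_⟩)
      (fun U s t _ _ _ e => by rw [fs_inj e]) (fun U a h ha => ?_) hΨ, fun a a' c h1 h2 => ?_⟩
  · obtain ⟨j, rfl⟩ := el_fs_iff.1 hi
    obtain ⟨h1, h2⟩ := Finset.mem_sdiff.1 j.2
    exact ⟨fs_sub.1 ((h.2.1 _).1 hs).1 _ h1, by rw [h.1, el_nn]; simpa using h2⟩
  · obtain ⟨s, -, e⟩ := eq_fs ((h.2.1 _).1 ha).1
    exact Ex.intro s ⟨e ▸ ha, e⟩
  · obtain ⟨a, rfl⟩ := cl_surj a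
    obtain ⟨a', rfl⟩ := cl_surj a'
    obtain ⟨c, rfl⟩ := cl_surj c
    clear e e' hY hZ
    revert h2; revert hΨ
    refine wlog_rel a c _ _ _ U h1 fun U s hs e1 e2 h h2 => ?_
    revert h; revert e2; revert e1; revert hs
    refine wlog_rel a' c _ _ _ U h2 fun U t ht e3 e4 hs e1 e2 h => ?_
    have key : ∀ s : Finset ℕ, El U (cl U (fs s)) (cl U Y) → ∀ i, i < n' →
        (i ∈ s ↔ El U (cl U (nn i)) (cl U x)) := fun s hs i hi => by
      rw [← el_fs (U := U)]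
      exact ((hO U _).1 (((h.2.1 _).1 hs).2 _ (subNm_sub _) fun _ _ => Iff.rfl)).2 _
        (h.1 ▸ el_nn.2 hi)
    have h3 := fs_inj (e2.symm.trans e4)
    rw [e1, e3]
    congr 2
    ext i
    by_cases hi : i < n'
    · rw [key s hs i hi, key t ht i hi]
    · simpa [hi] using Finset.ext_iff.1 h3 i

theorem exists_nullCover : ∃ (o : Ordinal.{0}) (F : MU U), NullCover (El U) (cl U om) F ∧
    CardLe (El U) F (cl U (oN o)) := by
  obtain ⟨S, hS⟩ := exists_pow (P := P) om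
  obtain ⟨S', hS'⟩ := exists_pow S
  have h := el_sepN (U := U)
    (fun U N => ∃ x, Sub (El U) x (cl U om) ∧ ∀ z, El U z N ↔ z = x) S'
  refine ⟨_, cl U (sepN (fun U N => ∃ x, Sub (El U) x (cl U om) ∧ ∀ z, El U z N ↔ z = x) S'),
    ⟨fun N hN => ?_, fun x hx => ?_⟩, exists_cardLe_on _⟩
  · obtain ⟨-, x, h1, h2⟩ := (h N).1 hN
    exact nullSet_singleton h1 h2
  · obtain ⟨N, hN⟩ := MU_zfc.pairing x x
    simp only [or_self] at hN
    exact ⟨N, (h N).2 ⟨(hS' U N).2 fun z hz => (hS U z).2 ((hN z).1 hz ▸ hx), x, hx, hN⟩,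
      (hN x).2 rfl⟩

/-- The counting condition in the definition of the measure of an open set. -/
theorem card_le_of_measureLe {O : MU U} {n M : ℕ}
    (h : MeasureLe (El U) (cl U om) O (cl U (nn n))) (T : Finset (Finset ℕ))
    (hT : ∀ s ∈ T, s ⊆ Finset.range M ∧ CylSub (El U) (cl U om) (cl U (nn M)) (cl U (fs s)) O) :
    T.card ≤ 2 ^ (M - n) := by
  obtain ⟨O, rfl⟩ := cl_surj O
  obtain ⟨S, hS⟩ := exists_pow (P := P) (nn M)
  have h1 := el_sepN (U := U) (fun U y => CylSub (El U) (cl U om) (cl U (nn M)) y (cl U O)) S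
  have h2 := el_sepN (U := U) (fun U z => ∀ i, El U i z → ¬ El U i (cl U (nn n))) S
  simp only [hS] at h1 h2
  have h3 := h _ _ _ (el_nn_om M) h1 fun z => (h2 z).trans
    ⟨fun h i hi => ⟨h.1 i hi, h.2 i hi⟩, fun h => ⟨fun i hi => (h i hi).1, fun i hi => (h i hi).2⟩⟩
  have h4 := card_le_of_cardLe MU_zfc h3 (a := fun s : T => cl U (fs s))
    (b := fun s : (Finset.Ico n M).powerset => cl U (fs s)) (fun s t e => Subtype.ext (fs_inj e))
    (fun s => (h1 _).2 ⟨fs_sub.2 fun i hi => el_nn.2 (Finset.mem_range.1 ((hT s s.2).1 hi)),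
      (hT s s.2).2⟩) fun z hz => by
      obtain ⟨h5, h6⟩ := (h2 z).1 hz
      obtain ⟨s, hs, rfl⟩ := eq_fs h5
      exact ⟨⟨s, Finset.mem_powerset.2 fun i hi => Finset.mem_Ico.2
        ⟨not_lt.1 fun h => h6 _ (el_fs.2 hi) (el_nn.2 h), Finset.mem_range.1 (hs hi)⟩⟩, rfl⟩
  simpa using h4

end Pool.Agent.Shared.RealForcing
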