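import Pool.Agent.Shared.RealForcing.Sys

/-! Adding random reals on top of a system of σ-filters. -/

namespace Pool.Agent.Shared.RealForcing

open Set Filter MeasureTheory Function

noncomputable def coin : Measure Bool := (PMF.uniformOfFintype Bool).toMeasure

instance : IsProbabilityMeasure coin := by unfold coin; infer_instance

theorem coin_single (b : Bool) : coin {b} = 2⁻¹ := by
  simp [coin]

noncomputable def nu : Measure (ℕ → Bool) := Measure.infinitePi fun _ => coin

instance : IsProbabilityMeasure nu := by unfold nu; infer_instance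

abbrev Om (I : Type) := I → ℕ → Bool

noncomputable def mu (I : Type) : Measure (Om I) := Measure.infinitePi fun _ => nu

instance (I : Type) : IsProbabilityMeasure (mu I) := by unfold mu; infer_instance

theorem nu_cyl (s : Finset ℕ) (b : ℕ → Bool) : nu {t | ∀ i ∈ s, t i = b i} = 2⁻¹ ^ s.card := by
  have : {t : ℕ → Bool | ∀ i ∈ s, t i = b i} = Set.pi s fun i => {b i} := by ext; simp
  rw [this, nu, Measure.infinitePi_pi _ fun _ _ => MeasurableSet.singleton _]
  simp [coin_single]

theorem null_of_le {Ω : Type} [MeasurableSpace Ω] {μ : Measure Ω} {S : Set Ω}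
    (h : ∀ n : ℕ, μ S ≤ 2⁻¹ ^ n) : μ S = 0 :=
  le_antisymm (ge_of_tendsto' (ENNReal.tendsto_pow_atTop_nhds_zero_of_lt_one (by simp)) h) zero_le

theorem ae_exists_eq {D : Set ℕ} (hD : D.Infinite) (b : Bool) : ∀ᵐ t ∂nu, ∃ i ∈ D, t i = b := by
  refine ae_iff.2 (null_of_le fun n => ?_)
  obtain ⟨s, hs, rfl⟩ := hD.exists_subset_card_eq n
  rw [← nu_cyl s fun _ => !b]
  refine measure_mono fun t ht i hi => ?_
  have : t i ≠ b := fun h => ht ⟨i, hs hi, h⟩
  revert this
  cases t i <;> cases b <;> simp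

/-- Resampling one coordinate preserves an infinite product measure. -/
theorem measurePreserving_update {ι : Type} [DecidableEq ι] {β : Type} [MeasurableSpace β]
    (μ : ι → Measure β) [∀ i, IsProbabilityMeasure (μ i)] (i : ι) :
    MeasurePreserving (fun p : (ι → β) × β => update p.1 i p.2)
      ((Measure.infinitePi μ).prod (μ i)) (Measure.infinitePi μ) := by
  have hm : Measurable (fun p : (ι → β) × β => update p.1 i p.2) := by fun_prop
  refine ⟨hm, Measure.eq_infinitePi _ fun s t ht => ?_⟩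
  rw [Measure.map_apply hm (MeasurableSet.pi s.countable_toSet fun i _ => ht i)]
  by_cases hi : i ∈ s
  · have key : (fun p : (ι → β) × β => update p.1 i p.2) ⁻¹' (Set.pi (s : Set ι) t) =
        (Set.pi ((s.erase i : Finset ι) : Set ι) t) ×ˢ (t i) := by
      ext ⟨u, b⟩
      simp only [mem_preimage, Set.mem_pi, Finset.mem_coe, Set.mem_prod, Finset.mem_erase]
      constructor
      · intro h
        refine ⟨fun j hj => ?_, by simpa using h i hi⟩
        have := h j hj.2
        rwa [update_of_ne hj.1] at this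
      · rintro ⟨h1, h2⟩ j hj
        by_cases hji : j = i
        · subst hji; simpa using h2
        · rw [update_of_ne hji]; exact h1 j ⟨hji, hj⟩
    rw [key, Measure.prod_prod, Measure.infinitePi_pi _ (fun i _ => ht i),
      Finset.prod_erase_mul _ _ hi]
  · have key : (fun p : (ι → β) × β => update p.1 i p.2) ⁻¹' (Set.pi (s : Set ι) t) =
        (Set.pi (s : Set ι) t) ×ˢ Set.univ := by
      ext ⟨u, b⟩
      simp only [mem_preimage, Set.mem_pi, Finset.mem_coe, Set.mem_prod, mem_univ, and_true]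
      refine forall₂_congr fun j hj => ?_
      rw [update_of_ne (by rintro rfl; exact hi hj)]
    rw [key, Measure.prod_prod, Measure.infinitePi_pi _ (fun i _ => ht i)]
    simp

variable {X I : Type}

/-- `f` depends only on the random coordinates in `T`. -/
def DepOn (T : Set I) {β : Type} (f : X × Om I → β) : Prop :=
  ∀ x ω ω', (∀ i ∈ T, ω i = ω' i) → f (x, ω) = f (x, ω')

theorem DepOn.mono {T T' : Set I} {β : Type} {f : X × Om I → β} (h : DepOn T f) (h' : T ⊆ T') :
    DepOn T' f := fun x ω ω' h1 => h x ω ω' fun i hi => h1 i (h' hi)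

/-- The sets depending on countably many random coordinates. -/
@[reducible] def cdep (X I : Type) : MeasurableSpace (X × Om I) where
  MeasurableSet' S := ∃ T : Set I, T.Countable ∧ DepOn T fun y => y ∈ S
  measurableSet_empty := ⟨∅, countable_empty, fun _ _ _ _ => rfl⟩
  measurableSet_compl := fun _ ⟨T, h1, h2⟩ => ⟨T, h1, fun x ω ω' h => congrArg Not (h2 x ω ω' h)⟩
  measurableSet_iUnion f hf := by
    choose T h1 h2 using hf
    refine ⟨⋃ n, T n, countable_iUnion h1, fun x ω ω' h => ?_⟩
    simp only [mem_iUnion]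
    exact congrArg Exists (funext fun n => (h2 n).mono (subset_iUnion T n) x ω ω' h)

theorem le_cdep [m : MeasurableSpace X] :
    @Measurable (X × Om I) _ (cdep X I) Prod.instMeasurableSpace id := by
  have h2 : @Measurable _ _ (cdep X I) _ Prod.fst :=
    fun S _ => ⟨∅, countable_empty, fun _ _ _ _ => rfl⟩
  have h3 : ∀ i, @Measurable _ _ (cdep X I) _ fun y => y.2 i := fun i S _ =>
    ⟨{i}, countable_singleton i, fun x ω ω' h => show (ω i ∈ S) = (ω' i ∈ S) by rw [h i rfl]⟩
  exact h2.prodMk (@measurable_pi_lambda _ _ _ (cdep X I) _ _ h3)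

theorem exists_depOn [MeasurableSpace X] {ι : Type} [Countable ι] {E : ι → X × Om I → Prop}
    (hE : ∀ i, Measurable (E i)) : ∃ T : Set I, T.Countable ∧ DepOn T fun y i => E i y := by
  have h4 : ∀ i, ∃ T : Set I, T.Countable ∧ DepOn T (E i) := fun i => le_cdep (hE i).setOf
  choose T h2 h3 using h4
  exact ⟨⋃ i, T i, countable_iUnion h2, fun x ω ω' h =>
    funext fun i => (h3 i).mono (subset_iUnion T i) x ω ω' h⟩

theorem exists_depOn_fun [MeasurableSpace X] {f : X × Om I → ℕ → ℕ} (hf : Measurable f) :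
    ∃ T : Set I, T.Countable ∧ DepOn T f := by
  obtain ⟨T, h1, h2⟩ := exists_depOn (E := fun (i : ℕ × ℕ) y => f y i.1 = i.2) fun i => by fun_prop
  exact ⟨T, h1, fun x ω ω' h => funext fun n =>
    (congrFun (h2 x ω ω' h) (n, f (x, ω') n)).mpr rfl⟩

theorem exists_depOn_set [MeasurableSpace X] {a : X × Om I → Set ℕ} (ha : Measurable a) :
    ∃ T : Set I, T.Countable ∧ DepOn T a :=
  exists_depOn (E := fun n y => n ∈ a y) fun i => by fun_prop

theorem DepOn.prod {T : Set I} {β γ : Type} {f : X × Om I → β} {g : X × Om I → γ}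
    (hf : DepOn T f) (hg : DepOn T g) : DepOn T fun y => (f y, g y) :=
  fun x ω ω' h => Prod.ext (hf x ω ω' h) (hg x ω ω' h)

/-- A fresh coordinate is random over the events that do not depend on it. -/
theorem ae_fresh [MeasurableSpace X] {β : Type} [MeasurableSpace β] {f : X × Om I → β}
    (hm : Measurable f) {T : Set I} (hf : DepOn T f) {ζ : I} (hζ : ζ ∉ T)
    {Q : β × (ℕ → Bool) → Prop} (hQ : Measurable Q) (h : ∀ b, ∀ᵐ t ∂nu, Q (b, t)) (x : X) :
    ∀ᵐ ω ∂mu I, Q (f (x, ω), ω ζ) := by
  classical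
  have h1 := measurePreserving_update (fun _ : I => nu) ζ
  have h2 : Measurable fun ω : Om I => Q (f (x, ω), ω ζ) := by fun_prop
  rw [mu, ← h1.map_eq, ae_map_iff h1.measurable.aemeasurable h2.setOf]
  refine (Measure.ae_prod_iff_ae_ae (h2.comp h1.measurable).setOf).2
    (Eventually.of_forall fun ω => (h (f (x, ω))).mono fun t ht => ?_)
  simp only [comp_apply, update_self]
  rwa [hf x _ ω fun i hi => update_of_ne (fun h : i = ζ => hζ (h ▸ hi)) _ _]

theorem measurable_ae [MeasurableSpace X] {Ω : Type} [MeasurableSpace Ω] (μ : Measure Ω)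
    [SFinite μ] {φ : X × Ω → Prop} (h : Measurable φ) :
    Measurable fun x => ∀ᵐ ω ∂μ, φ (x, ω) := by
  simp only [ae_iff]
  exact (measurable_measure_prodMk_left (ν := μ) (s := {y | ¬ φ y}) h.not.setOf).eq_const 0

/-- The system followed by random forcing. -/
noncomputable def Sys.rand {K : Type} [Preorder K] (s : Sys K X) (I : Type) :
    Sys K (X × Om I) where
  k0 := s.k0
  k0_le := s.k0_le
  m k := @Prod.instMeasurableSpace _ _ (s.m k) _
  F k := (s.F k).curry (ae (mu I))
  m_mono k k' h := sup_le_sup_right (MeasurableSpace.comap_mono (s.m_mono k k' h)) _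
  F_anti k k' h := fun _ hS => s.F_anti k k' h hS
  sigma k := inferInstance
  neBot := ⟨fun h => by
    have := s.neBot
    have h1 : ∀ᶠ x in s.F s.k0, ∀ᵐ ω ∂mu I, False :=
      eventually_curry_iff.1 (h ▸ eventually_bot : ∀ᶠ _ in (s.F s.k0).curry (ae (mu I)), False)
    obtain ⟨_, h2⟩ := h1.exists
    exact h2.exists.elim fun _ h => h⟩
  refl k k' φ h hφ h1 := s.refl k k' _ h (@measurable_ae _ (s.m k) _ _ (mu I) _ φ hφ) h1
  ccc k := @CCC.curry _ (s.m k) _ _ (s.ccc k) _ _ (mu I) _
  ub := s.ub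

theorem Sys.rand_ev {K : Type} [Preorder K] {s : Sys K X} {k : K} {φ : X × Om I → Prop} :
    (∀ᶠ y in (s.rand I).F k, φ y) ↔ ∀ᶠ x in s.F k, ∀ᵐ ω ∂mu I, φ (x, ω) := eventually_curry_iff

theorem Sys.rand_fst {K : Type} [Preorder K] {s : Sys K X} {k : K} {φ : X → Prop}
    (h : ∀ᶠ x in s.F k, φ x) : ∀ᶠ y in (s.rand I).F k, φ y.1 :=
  Sys.rand_ev.2 (h.mono fun _ hx => Eventually.of_forall fun _ => hx)

theorem Sys.Ms.fst {K : Type} [Preorder K] {s : Sys K X} {k : K} {β : Type} [MeasurableSpace β]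
    {φ : X → β} (h : s.Ms k φ) : (s.rand I).Ms k fun y => φ y.1 :=
  let _ := s.m k; Measurable.comp h measurable_fst

theorem Sys.ms_coord {K : Type} [Preorder K] (s : Sys K X) (k : K) (ζ : I) :
    (s.rand I).Ms k fun y => y.2 ζ :=
  let _ := s.m k; show Measurable fun y : X × Om I => y.2 ζ by fun_prop

theorem Sys.ev_fresh {K : Type} [Preorder K] {s : Sys K X} {k : K} {U : GU (s.rand I).Cd}
    (hU : Sys.lev k U) {β : Type} [MeasurableSpace β] {f : X × Om I → β}
    (hm : (s.rand I).Ms k f) {T : Set I} (hf : DepOn T f) {ζ : I} (hζ : ζ ∉ T)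
    {Q : β × (ℕ → Bool) → Prop} (hQ : Measurable Q) (h : ∀ b, ∀ᵐ t ∂nu, Q (b, t)) :
    Sys.ev (fun y => Q (f y, y.2 ζ)) U :=
  Sys.ev_of_ae hU (Sys.rand_ev.2 (Eventually.of_forall
    (@ae_fresh _ _ (s.m k) _ _ f hm T hf ζ hζ Q hQ h)))

end Pool.Agent.Shared.RealForcing
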