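import Mathlib

/-! General facts on measurable events and on σ-filters with the countable chain condition. -/

namespace Pool.Agent.Shared.RealForcing

open Set Filter MeasureTheory

variable {X : Type} [MeasurableSpace X]

theorem measurable_app {β : Type} [MeasurableSpace β] {f : X → ℕ → β} {g : X → ℕ}
    (hf : ∀ n, Measurable fun x => f x n) (hg : Measurable g) : Measurable fun x => f x (g x) :=
  (measurable_from_prod_countable_left (f := fun p : X × ℕ => f p.1 p.2) hf).comp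
    (measurable_id.prodMk hg)

theorem measurable_natInf {φ : X → ℕ → Prop} (h : ∀ n, Measurable fun x => φ x n) :
    Measurable fun x => sInf {n | φ x n} := by
  refine measurable_to_countable' fun n => ?_
  have : (fun x => sInf {n | φ x n}) ⁻¹' {n} =
      {x | (φ x n ∧ ∀ m, m < n → ¬ φ x m) ∨ (n = 0 ∧ ∀ m, ¬ φ x m)} := by
    ext x
    simp only [mem_preimage, mem_singleton_iff, mem_ofPred_eq]
    constructor
    · rintro rfl
      by_cases hne : {n | φ x n}.Nonempty
      · exact Or.inl ⟨Nat.sInf_mem hne, fun m hm => Nat.notMem_of_lt_sInf hm⟩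
      · refine Or.inr ⟨?_, fun m hm => hne ⟨m, hm⟩⟩
        rw [not_nonempty_iff_eq_empty.1 hne, Nat.sInf_empty]
    · rintro (⟨h1, h2⟩ | ⟨rfl, h2⟩)
      · refine le_antisymm (Nat.sInf_le h1) (not_lt.1 fun hc => h2 _ hc ?_)
        exact Nat.sInf_mem (s := {n | φ x n}) ⟨n, h1⟩
      · exact Nat.sInf_eq_zero.2 (Or.inr (eq_empty_iff_forall_notMem.2 h2))
  rw [this, measurableSet_setOfPred]
  fun_prop

theorem measurable_frequently {φ : X → ℕ → Prop} (h : ∀ n, Measurable fun x => φ x n) :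
    Measurable fun x => ∃ᶠ n in atTop, φ x n := by
  simp only [frequently_atTop]
  fun_prop

theorem measurable_eventually {φ : X → ℕ → Prop} (h : ∀ n, Measurable fun x => φ x n) :
    Measurable fun x => ∀ᶠ n in atTop, φ x n := by
  simp only [eventually_atTop]
  fun_prop

/-- The countable chain condition for measurable events modulo the filter `F`. -/
def CCC (F : Filter X) : Prop :=
  ∀ (ι : Type) (φ : ι → X → Prop), (∀ i, Measurable (φ i)) → (∀ i, ∃ᶠ x in F, φ i x) →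
    (∀ i j, i ≠ j → ∀ x, φ i x → ¬ φ j x) → Countable ι

variable {F : Filter X} [CountableInterFilter F]

omit [MeasurableSpace X] in
theorem frequently_exists_countable {ι : Sort*} [Countable ι] {φ : ι → X → Prop}
    (h : ∃ᶠ x in F, ∃ i, φ i x) : ∃ i, ∃ᶠ x in F, φ i x := by
  by_contra hc
  push Not at hc
  exact h ((eventually_countable_forall.2 hc).mono fun x hx => not_exists.2 hx)

omit [CountableInterFilter F] in
/-- Every family of measurable events has a countable subfamily that almost covers each member. -/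
theorem CCC.exists_ess_sup (h : CCC F) (𝒟 : Set (X → Prop)) (hm : ∀ φ ∈ 𝒟, Measurable φ) :
    ∃ 𝒟₀ ⊆ 𝒟, 𝒟₀.Countable ∧ ∀ φ ∈ 𝒟, ∀ᶠ x in F, φ x → ∃ ψ ∈ 𝒟₀, ψ x := by
  let S : Set (Set (X → Prop)) := {T | (∀ p ∈ T, Measurable p ∧ (∃ᶠ x in F, p x) ∧
    ∃ d ∈ 𝒟, ∀ x, p x → d x) ∧ ∀ p ∈ T, ∀ q ∈ T, p ≠ q → ∀ x, p x → ¬ q x}
  obtain ⟨T, hT⟩ : ∃ T, Maximal (· ∈ S) T := by
    apply zorn_subset
    intro C hC hch
    refine ⟨⋃₀ C, ⟨?_, ?_⟩, fun s hs => subset_sUnion_of_mem hs⟩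
    · rintro a ⟨t, ht, ha⟩
      exact (hC ht).1 a ha
    · rintro a ⟨t, ht, ha⟩ b ⟨t', ht', hb⟩ hab
      rcases hch.total ht ht' with h | h
      · exact (hC ht').2 a (h ha) b hb hab
      · exact (hC ht).2 a ha b (h hb) hab
  have hc : Countable T := h T (fun p => p.1) (fun p => (hT.prop.1 p.1 p.2).1)
    (fun p => (hT.prop.1 p.1 p.2).2.1) fun p q hpq =>
      hT.prop.2 p.1 p.2 q.1 q.2 fun h => hpq (Subtype.ext h)
  choose e he1 he2 using fun p : T => (hT.prop.1 p.1 p.2).2.2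
  refine ⟨range e, by rintro _ ⟨p, rfl⟩; exact he1 p, countable_range e, fun φ hφ => ?_⟩
  by_contra hcon
  let ψ : X → Prop := fun x => φ x ∧ ∀ p : T, ¬ p.1 x
  have hψ : ∃ᶠ x in F, ψ x := by
    refine (not_eventually.1 hcon).mono fun x hx => ?_
    push Not at hx
    exact ⟨hx.1, fun p hp => hx.2 _ ⟨p, rfl⟩ (he2 p x hp)⟩
  have hmem : insert ψ T ∈ S := by
    refine ⟨?_, ?_⟩
    · rintro a (rfl | ha)
      · refine ⟨(hm φ hφ).and (Measurable.forall fun p => (hT.prop.1 p.1 p.2).1.not), hψ, φ, hφ,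
          fun x hx => hx.1⟩
      · exact hT.prop.1 a ha
    · rintro a (rfl | ha) b (rfl | hb) hab x h1 h2
      · exact hab rfl
      · exact h1.2 ⟨b, hb⟩ h2
      · exact h2.2 ⟨a, ha⟩ h1
      · exact hT.prop.2 a ha b hb hab x h1 h2
  have hq' : ψ ∈ T := hT.le_of_ge hmem (subset_insert _ _) (mem_insert _ _)
  obtain ⟨x, hx⟩ := hψ.exists
  exact hx.2 ⟨ψ, hq'⟩ hx

/-- Among uncountably many positive events, any finite number can be chosen with positive
intersection. -/
theorem CCC.exists_linked (h : CCC F) {ι : Type} [Uncountable ι] (φ : ι → X → Prop)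
    (hm : ∀ i, Measurable (φ i)) (hpos : ∀ i, ∃ᶠ x in F, φ i x) (n : ℕ) :
    ∃ s : Finset ι, s.card = n ∧ ∃ᶠ x in F, ∀ i ∈ s, φ i x := by
  classical
  obtain ⟨𝒟₀, h1, h2, h3⟩ := h.exists_ess_sup
    {D | Measurable D ∧ {i | ∃ᶠ x in F, D x ∧ φ i x}.Countable} fun _ h => h.1
  have := h2.to_subtype
  let U : X → Prop := fun x => ∃ ψ : 𝒟₀, ψ.1 x
  have hU : Measurable U := Measurable.exists fun ψ => (h1 ψ.2).1
  have hU2 : {i | ∃ᶠ x in F, U x ∧ φ i x}.Countable := by
    refine (countable_iUnion fun ψ : 𝒟₀ => (h1 ψ.2).2).mono fun i hi => ?_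
    obtain ⟨ψ, hψ⟩ := frequently_exists_countable (φ := fun (ψ : 𝒟₀) x => ψ.1 x ∧ φ i x)
      (hi.mono fun x ⟨⟨ψ, h4⟩, h5⟩ => ⟨ψ, h4, h5⟩)
    exact mem_iUnion.2 ⟨ψ, hψ⟩
  have key : ∃ s : Finset ι, s.card = n ∧ ∃ᶠ x in F, (∀ i ∈ s, φ i x) ∧ ¬ U x := by
    induction n with
    | zero =>
      obtain ⟨i, hi⟩ : ∃ i, i ∉ {i | ∃ᶠ x in F, U x ∧ φ i x} := by
        by_contra hc
        push Not at hc
        exact not_countable (countable_univ_iff.1 (hU2.mono fun i _ => hc i))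
      refine ⟨∅, rfl, ((hpos i).and_eventually (not_frequently.1 hi)).mono fun x hx => ?_⟩
      exact ⟨by simp, fun h => hx.2 ⟨h, hx.1⟩⟩
    | succ n ih =>
      obtain ⟨s, hs, hZ⟩ := ih
      have hZm : Measurable fun x => (∀ i ∈ s, φ i x) ∧ ¬ U x := by
        refine Measurable.and ?_ hU.not
        have : (fun x => ∀ i ∈ s, φ i x) = fun x => ∀ i : s, φ i x := by
          funext x; simp
        rw [this]
        exact Measurable.forall fun i : s => hm i
      have : ¬ {i | ∃ᶠ x in F, ((∀ i ∈ s, φ i x) ∧ ¬ U x) ∧ φ i x}.Countable := by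
        intro hc
        obtain ⟨x, h4, h5⟩ := (hZ.and_eventually (h3 _ ⟨hZm, hc⟩)).exists
        obtain ⟨ψ, h6, h7⟩ := h5 h4
        exact h4.2 ⟨⟨ψ, h6⟩, h7⟩
      obtain ⟨i, hi, his⟩ : ∃ i, i ∈ {i | ∃ᶠ x in F, ((∀ i ∈ s, φ i x) ∧ ¬ U x) ∧ φ i x} ∧
          i ∉ s := by
        by_contra hc
        push Not at hc
        exact this (s.countable_toSet.mono fun i hi => hc i hi)
      refine ⟨insert i s, by rw [Finset.card_insert_of_notMem his, hs], hi.mono fun x hx => ?_⟩
      refine ⟨fun j hj => ?_, hx.1.2⟩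
      rcases Finset.mem_insert.1 hj with rfl | hj
      · exact hx.2
      · exact hx.1.1 j hj
  obtain ⟨s, hs, h4⟩ := key
  exact ⟨s, hs, h4.mono fun x hx => hx.1⟩

/-- The Fubini product of a ccc σ-filter with the null ideal of a probability measure is ccc. -/
theorem CCC.curry (h : CCC F) {Ω : Type} [MeasurableSpace Ω] (μ : Measure Ω)
    [IsProbabilityMeasure μ] : CCC (F.curry (ae μ)) := by
  intro ι φ hm hpos hd
  by_contra hc
  have hsec : ∀ i, Measurable fun x => μ {ω | φ i (x, ω)} := fun i =>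
    measurable_measure_prodMk_left (ν := μ) (s := {y | φ i y}) (hm i).setOf
  have h1 : ∀ i, ∃ k : ℕ, ∃ᶠ x in F, ((k : ENNReal))⁻¹ < μ {ω | φ i (x, ω)} := by
    intro i
    refine frequently_exists_countable (((frequently_curry_iff _).1 (hpos i)).mono fun x hx => ?_)
    exact ENNReal.exists_inv_nat_lt (frequently_ae_iff.1 hx)
  choose k hk using h1
  obtain ⟨n, hn⟩ : ∃ n, ¬ {i | k i = n}.Countable := by
    by_contra hcon
    push Not at hcon
    refine hc (countable_univ_iff.1 ((countable_iUnion hcon).mono fun i _ => ?_))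
    exact mem_iUnion.2 ⟨k i, rfl⟩
  have : Uncountable {i | k i = n} := not_countable_iff.1 fun h => hn (countable_coe_iff.1 h)
  obtain ⟨s, hs, h2⟩ := h.exists_linked (ι := {i | k i = n})
    (fun i x => ((n : ENNReal))⁻¹ < μ {ω | φ i (x, ω)})
    (fun i => Measurable.lt measurable_const (hsec i)) (fun i => by have h := hk i; rwa [show k i = n from i.2] at h) (n + 1)
  obtain ⟨x, hx⟩ := h2.exists
  have h3 : μ (⋃ i ∈ s, {ω | φ i (x, ω)}) = ∑ i ∈ s, μ {ω | φ i (x, ω)} := by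
    refine measure_biUnion_finset (fun i _ j _ hij => ?_) fun i _ => ?_
    · exact Set.disjoint_left.2 fun ω h4 h5 => hd i j (fun h => hij (Subtype.ext h)) _ h4 h5
    · exact ((hm i).comp measurable_prodMk_left).setOf
  have h4 : ∑ _i ∈ s, ((n : ENNReal))⁻¹ ≤ 1 :=
    (Finset.sum_le_sum fun i hi => (hx i hi).le).trans (h3 ▸ prob_le_one)
  rw [Finset.sum_const, hs, nsmul_eq_mul] at h4
  rcases Nat.eq_zero_or_pos n with rfl | hn0
  · simp at h4
  · have h5 : (n : ENNReal) ≠ 0 := by exact_mod_cast hn0.ne'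
    rw [Nat.cast_add, add_mul, ENNReal.mul_inv_cancel h5 (by simp), Nat.cast_one, one_mul] at h4
    have h6 : (1 : ENNReal) < 1 + (n : ENNReal)⁻¹ :=
      ENNReal.lt_add_right (by simp) (by simp)
    exact absurd h4 (not_le.2 h6)

/-- Functions on a product are almost surely dominated by a function of the first coordinate. -/
theorem exists_bound {Ω : Type} [MeasurableSpace Ω] (μ : Measure Ω) [IsProbabilityMeasure μ]
    {f : X × Ω → ℕ → ℕ} (hf : Measurable f) :
    ∃ g : X → ℕ → ℕ, Measurable g ∧ ∀ x, ∀ᵐ ω ∂μ, ∀ᶠ n in atTop, f (x, ω) n ≤ g x n := by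
  have hsec : ∀ n m, Measurable fun x => μ {ω | m < f (x, ω) n} := fun n m =>
    measurable_measure_prodMk_left (ν := μ) (s := {y | m < f y n})
      (measurableSet_setOfPred.2 (by fun_prop))
  refine ⟨fun x n => sInf {m | μ {ω | m < f (x, ω) n} ≤ 2⁻¹ ^ n}, measurable_pi_lambda _ fun n =>
    measurable_natInf fun m => Measurable.le' (hsec n m) measurable_const, fun x => ?_⟩
  have h1 : ∀ n, μ {ω | sInf {m | μ {ω | m < f (x, ω) n} ≤ 2⁻¹ ^ n} < f (x, ω) n} ≤ 2⁻¹ ^ n := by
    intro n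
    refine Nat.sInf_mem (s := {m | μ {ω | m < f (x, ω) n} ≤ 2⁻¹ ^ n}) ?_
    have h2 : Tendsto (fun m => μ {ω | m < f (x, ω) n}) atTop (nhds (μ (⋂ m, {ω | m < f (x, ω) n}))) := by
      refine tendsto_measure_iInter_atTop (fun m => MeasurableSet.nullMeasurableSet
        (measurableSet_setOfPred.2 (by fun_prop))) (fun a b hab ω h => lt_of_le_of_lt hab h)
        ⟨0, measure_ne_top _ _⟩
    have h3 : (⋂ m, {ω | m < f (x, ω) n}) = ∅ :=
      eq_empty_iff_forall_notMem.2 fun ω h => lt_irrefl (f (x, ω) n) (mem_iInter.1 h (f (x, ω) n))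
    rw [h3, measure_empty] at h2
    exact (h2.eventually (ge_mem_nhds (ENNReal.pow_pos (by simp) n))).exists
  have h2 : (∑' n, μ {ω | sInf {m | μ {ω | m < f (x, ω) n} ≤ 2⁻¹ ^ n} < f (x, ω) n}) ≠ ⊤ :=
    ne_top_of_le_ne_top (by rw [ENNReal.tsum_geometric]; simp) (ENNReal.tsum_le_tsum h1)
  exact (ae_eventually_notMem h2).mono fun ω h => h.mono fun n hn => not_lt.1 hn

end Pool.Agent.Shared.RealForcing
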