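import Mathlib

/-! Well-orders of regular uncountable order type and transfinite dependent choice. -/

namespace Pool.Agent.Shared.RealForcing

open Set Cardinal

/-- `W` is ordered in the order type of a regular uncountable cardinal. -/
class Reg (W : Type) [LinearOrder W] : Prop where
  reg : (#W).IsRegular
  unc : ℵ₀ < #W
  iio : ∀ w : W, #(Iio w) < #W

theorem reg_toType {κ : Cardinal.{0}} (h : κ.IsRegular) (h' : ℵ₀ < κ) : Reg κ.ord.ToType :=
  ⟨by rwa [mk_ord_toType], by rwa [mk_ord_toType], fun w => by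
    rw [mk_ord_toType]; simpa using mk_Iio_lt w (by simp)⟩

variable {W : Type} [LinearOrder W]

instance Reg.infinite [Reg W] : Infinite W := infinite_iff.2 Reg.unc.le

theorem Reg.iic [Reg W] (w : W) : #(Iic w) < #W := by
  rw [← Iio_insert]
  exact mk_insert_le.trans_lt (add_lt_of_lt Reg.unc.le (Reg.iio w)
    (one_lt_aleph0.trans Reg.unc))

theorem Reg.bdd [Reg W] {I : Type} (hI : #I < #W) (f : I → W) : ∃ w, ∀ i, f i < w := by
  by_contra hc
  push Not at hc
  have h1 : #(⋃ i, Iic (f i)) < #W :=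
    (card_iUnion_lt_iff_forall_of_isRegular Reg.reg hI).2 fun i => Reg.iic _
  have h2 : (⋃ i, Iic (f i)) = Set.univ := eq_univ_of_forall fun w => mem_iUnion.2 (hc w)
  rw [h2, mk_univ] at h1
  exact lt_irrefl _ h1

theorem Reg.bdd_countable [Reg W] {I : Type} [Countable I] (f : I → W) : ∃ w, ∀ i, f i < w :=
  Reg.bdd (mk_le_aleph0.trans_lt Reg.unc) f

theorem Reg.exists_gt [Reg W] (w : W) : ∃ v, w < v :=
  let ⟨v, hv⟩ := Reg.bdd_countable fun _ : Unit => w; ⟨v, hv ()⟩

theorem Reg.list_lt [Reg W] {I : Type} (hI : #I < #W) : #(List I) < #W :=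
  (mk_list_le_max I).trans_lt (max_lt Reg.unc hI)

theorem Reg.prod_lt [Reg W] {I I' : Type} (hI : #I < #W) (hI' : #I' < #W) : #(I × I') < #W := by
  simpa using mul_lt_of_lt Reg.unc.le hI hI'

theorem Reg.countable_lt [Reg W] (I : Type) [Countable I] : #I < #W :=
  mk_le_aleph0.trans_lt Reg.unc

/-- A bookkeeping function: every value is taken cofinally often. -/
theorem Reg.exists_book [Reg W] :
    ∃ π : W → W × W, ∀ x : W × W, ∀ w, ∃ η, w < η ∧ π η = x := by
  obtain ⟨e⟩ : Nonempty (W ≃ (W × W) × W) := Cardinal.eq.1 (by simp [mul_eq_self Reg.unc.le])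
  refine ⟨fun η => (e η).1, fun x w => ?_⟩
  by_contra hc
  push Not at hc
  have h1 : ∀ v, e.symm (x, v) ∈ Iic w := fun v => not_lt.1 fun h => hc _ h (by simp)
  have h2 : #W ≤ #(Iic w) := mk_le_of_injective (f := fun v => (⟨_, h1 v⟩ : Iic w))
    fun v v' h => by simpa using h
  exact absurd (Reg.iic w) (not_lt.2 h2)

/-- Dependent choice along a well-order. -/
theorem exists_seq {σ : Type*} [Nonempty σ] [WellFoundedLT W]
    (R : (w : W) → (Iio w → σ) → σ → Prop)
    (h : ∀ w (f : Iio w → σ),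
      (∀ v : Iio w, R v.1 (fun u => f ⟨u.1, lt_trans u.2 v.2⟩) (f v)) → ∃ s, R w f s) :
    ∃ f : W → σ, ∀ w, R w (fun u => f u.1) (f w) := by
  let F : (w : W) → ((v : W) → v < w → σ) → σ := fun w g =>
    Classical.epsilon (R w fun u => g u.1 u.2)
  let f : W → σ := WellFoundedLT.fix F
  have hf : ∀ w, f w = Classical.epsilon (R w fun u => f u.1) := fun w =>
    WellFoundedLT.fix_eq F w
  refine ⟨f, fun w => ?_⟩
  induction w using WellFoundedLT.induction with
  | ind w ih =>
    rw [hf w]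
    exact Classical.epsilon_spec (h w (fun u => f u.1) fun v => ih v.1 v.2)

end Pool.Agent.Shared.RealForcing
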