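import Pool.Agent.Shared.RealForcing.Sem
import Pool.Agent.Shared.RealForcing.Meas
import Pool.Agent.Shared.RealForcing.Reg

/-! Forcing with positive measurable events of a closed system of ccc σ-filters: every countable
family of truth values is given by measurable events. -/

namespace Pool.Agent.Shared.RealForcing

open Pool.Agent.Lib.MP_2739cb_lc Set Filter Cardinal MeasureTheory

/-- A system of σ-algebras and ccc σ-filters on `Y`, indexed by a preorder `K` in which chains of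
size at most `ℵ₁` are bounded. -/
structure Sys (K Y : Type) [Preorder K] where
  k0 : K
  k0_le : ∀ k, k0 ≤ k
  m : K → MeasurableSpace Y
  F : K → Filter Y
  m_mono : ∀ k k', k ≤ k' → m k ≤ m k'
  F_anti : ∀ k k', k ≤ k' → F k' ≤ F k
  sigma : ∀ k, CountableInterFilter (F k)
  neBot : (F k0).NeBot
  refl : ∀ k k' (φ : Y → Prop), k ≤ k' → Measurable[m k] φ → (∀ᶠ y in F k', φ y) → ∀ᶠ y in F k, φ y
  ccc : ∀ k, @CCC Y (m k) (F k)
  ub : ∀ (I : Type) [LinearOrder I] (c : I → K), #I ≤ ℵ₁ → (∀ u v, u < v → c u ≤ c v) →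
    ∃ k, ∀ i, c i ≤ k

namespace Sys

variable {K Y : Type} [Preorder K] (s : Sys K Y)

instance (k : K) : CountableInterFilter (s.F k) := s.sigma k

abbrev Ms (k : K) {β : Type} [MeasurableSpace β] (φ : Y → β) : Prop := Measurable[s.m k] φ

structure Cd where
  k : K
  S : Y → Prop
  ms : s.Ms k S
  pos : ∃ᶠ y in s.F k, S y

variable {s}

theorem Ms.up {k k' : K} {β : Type} [MeasurableSpace β] {φ : Y → β} (h : s.Ms k φ)
    (hk : k ≤ k') : s.Ms k' φ := Measurable.mono h (s.m_mono _ _ hk) le_rfl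

theorem ev_up {k k' : K} (hk : k ≤ k') {φ : Y → Prop} (h : ∀ᶠ y in s.F k, φ y) :
    ∀ᶠ y in s.F k', φ y := s.F_anti _ _ hk h

theorem pos_up {k k' : K} (hk : k ≤ k') {φ : Y → Prop} (hm : s.Ms k φ) (h : ∃ᶠ y in s.F k, φ y) :
    ∃ᶠ y in s.F k', φ y := fun h' => h (s.refl k k' _ hk (@Measurable.not _ (s.m k) _ hm) h')

instance : Preorder s.Cd where
  le q p := p.k ≤ q.k ∧ ∀ᶠ y in s.F q.k, q.S y → p.S y
  le_refl _ := ⟨le_rfl, Eventually.of_forall fun _ h => h⟩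
  le_trans _ _ _ h h' := ⟨h'.1.trans h.1, by
    filter_upwards [h.2, ev_up h.1 h'.2] with y h1 h2 h3 using h2 (h1 h3)⟩

instance : OrderTop s.Cd where
  top := ⟨s.k0, fun _ => True, measurable_const,
    haveI := s.neBot; Eventually.frequently (Eventually.of_forall fun _ => trivial)⟩
  le_top _ := ⟨s.k0_le _, Eventually.of_forall fun _ _ => trivial⟩

/-- The generic point lies in the event `E`. -/
def ev (E : Y → Prop) (U : GU s.Cd) : Prop :=
  TU U (RO.dense fun p => ∀ᶠ y in s.F p.k, p.S y → E y)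

/-- The generic chain passes through `k`. -/
def lev (k : K) (U : GU s.Cd) : Prop := TU U (RO.dense fun p => k ≤ p.k)

instance (E : Y → Prop) : Dec fun U : GU s.Cd => ev E U := Dec.tu _

instance (k : K) : Dec fun U : GU s.Cd => lev k U := Dec.tu _

instance (E : Y → Prop) : Dec (no_index fun U : GU s.Cd => ev E U) := Dec.tu _

instance (k : K) : Dec (no_index fun U : GU s.Cd => lev k U) := Dec.tu _

variable {U : GU s.Cd} {k k' : K} {E E' S : Y → Prop}

theorem le_ev {p q : s.Cd} (hq : q ≤ p) (h : ∀ᶠ y in s.F p.k, p.S y → E y) :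
    ∀ᶠ y in s.F q.k, q.S y → E y := by
  filter_upwards [hq.2, ev_up hq.1 h] with y h1 h2 h3 using h2 (h1 h3)

theorem frc_ev {p : s.Cd} (h : ∀ᶠ y in s.F p.k, p.S y → E y) : Frc p fun U => ev E U :=
  fun _ hU => TU.of_mem hU fun q hq => ⟨q, le_rfl, le_ev hq h⟩

theorem frc_lev {p : s.Cd} (h : k ≤ p.k) : Frc p fun U => lev k U :=
  fun _ hU => TU.of_mem hU fun q hq => ⟨q, le_rfl, h.trans hq.1⟩

theorem lev.mono (h : lev k' U) (hk : k ≤ k') : lev k U :=
  TU.mono h fun _ hp q hq => let ⟨r, hr, h1⟩ := hp q hq; ⟨r, hr, hk.trans h1⟩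

theorem lev_k0 (U : GU s.Cd) : lev s.k0 U :=
  TU.of_forall fun _ q _ => ⟨q, le_rfl, s.k0_le _⟩

theorem exists_le_lev {p : s.Cd} (h : Frc p fun U => lev k U) : ∃ q, q ≤ p ∧ k ≤ q.k :=
  s_of_forall (a := RO.dense fun p : s.Cd => k ≤ p.k) h p le_rfl

theorem exists_le_ev {p : s.Cd} (h : Frc p fun U => ev E U) :
    ∃ q, q ≤ p ∧ ∀ᶠ y in s.F q.k, q.S y → E y :=
  s_of_forall (a := RO.dense fun p : s.Cd => ∀ᶠ y in s.F p.k, p.S y → E y) h p le_rfl

theorem ae_of_frc {p : s.Cd} (hm : s.Ms p.k E) (h : Frc p fun U => ev E U) :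
    ∀ᶠ y in s.F p.k, p.S y → E y := by
  let := s.m p.k
  by_contra hc
  let q : s.Cd := ⟨p.k, fun y => p.S y ∧ ¬ E y, p.ms.and hm.not,
    (not_eventually.1 hc).mono fun y hy => by simpa using hy⟩
  obtain ⟨r, hr, h1⟩ := exists_le_ev (h.mono (q := q) ⟨le_rfl, Eventually.of_forall fun _ h => h.1⟩)
  exact r.pos (by filter_upwards [hr.2, h1] with y h2 h3 h4 using (h2 h4).2 (h3 h4))

theorem ev.mono (hk : lev k U) (h : ∀ᶠ y in s.F k, E y → E' y) (hE : ev E U) : ev E' U := by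
  refine of_dense (Ψ := fun U => lev k U ∧ ev E U) (fun p hp => ?_) ⟨hk, hE⟩
  obtain ⟨q, hq, h1⟩ := exists_le_lev fun U hU => (hp U hU).1
  obtain ⟨r, hr, h2⟩ := exists_le_ev (Frc.mono (fun U hU => (hp U hU).2) hq)
  exact ⟨r, hr.trans hq, frc_ev (by
    filter_upwards [h2, ev_up (h1.trans hr.1) h] with y h3 h4 h5 using h4 (h3 h5))⟩

theorem ev.imp (hE : ev E U) (h : ∀ y, E y → E' y) : ev E' U :=
  hE.mono (lev_k0 U) (Eventually.of_forall h)

theorem ev_of_ae (hk : lev k U) (h : ∀ᶠ y in s.F k, E y) : ev E U :=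
  ev.mono (E := fun _ => True) hk (h.mono fun _ h _ => h)
    (TU.of_forall fun _ q _ => ⟨q, le_rfl, Eventually.of_forall fun _ _ => trivial⟩)

theorem ev.and (h : ev E U) (h' : ev E' U) : ev (fun y => E y ∧ E' y) U := by
  refine TU.mono₂ h h' fun p h1 h2 q hq => ?_
  obtain ⟨r, hr, h3⟩ := h1 q hq
  obtain ⟨t, ht, h4⟩ := h2 r (hr.trans hq)
  exact ⟨t, ht.trans hr, by
    filter_upwards [le_ev ht h3, h4] with y h5 h6 h7 using ⟨h5 h7, h6 h7⟩⟩

theorem ev.exists (h : ev E U) : ∃ y, E y := by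
  obtain ⟨p, hp⟩ := TU.nonempty h
  obtain ⟨q, -, h1⟩ := hp p le_rfl
  obtain ⟨y, h2, h3⟩ := (q.pos.and_eventually h1).exists
  exact ⟨y, h3 h2⟩

theorem ev_finite {ι : Type} [Finite ι] {E : ι → Y → Prop} (h : ∀ i, ev (E i) U) :
    ev (fun y => ∀ i, E i y) U := by
  classical
  have := Fintype.ofFinite ι
  have key : ∀ t : Finset ι, ev (fun y => ∀ i ∈ t, E i y) U := by
    intro t
    induction t using Finset.induction_on with
    | empty => exact ev_of_ae (lev_k0 U) (Eventually.of_forall fun _ => by simp)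
    | insert a t _ ih => exact ((h a).and ih).imp fun y hy => by simpa using hy
  exact (key Finset.univ).imp fun y hy i => hy i (Finset.mem_univ i)

/-- A positive event is a condition. -/
theorem exists_ev (hm : s.Ms k S) (hp : ∃ᶠ y in s.F k, S y) :
    ∃ U : GU s.Cd, lev k U ∧ ev S U := by
  obtain ⟨U, hU⟩ := exists_GU (⟨k, S, hm, hp⟩ : s.Cd)
  exact ⟨U, frc_lev le_rfl U hU, frc_ev (Eventually.of_forall fun _ h => h) U hU⟩

theorem frc_iff {Φ : GU s.Cd → Prop} [Dec Φ] {p : s.Cd} :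
    Frc p Φ ↔ ∀ U, lev p.k U → ev p.S U → Φ U := by
  refine ⟨fun h U h1 h2 => ?_, fun h U hU =>
    h U (frc_lev le_rfl U hU) (frc_ev (Eventually.of_forall fun _ h => h) U hU)⟩
  refine of_dense (Ψ := fun U => lev p.k U ∧ ev p.S U) (fun q hq => ?_) ⟨h1, h2⟩
  obtain ⟨r, hr, h3⟩ := exists_le_lev fun U hU => (hq U hU).1
  obtain ⟨t, ht, h4⟩ := exists_le_ev (Frc.mono (fun U hU => (hq U hU).2) hr)
  exact ⟨t, ht.trans hr, h.mono ⟨h3.trans ht.1, h4⟩⟩

/-- A true statement is forced by a positive event. -/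
theorem exists_cond {Φ : GU s.Cd → Prop} [Dec Φ] (h : Φ U) :
    ∃ k S, s.Ms k S ∧ (∃ᶠ y in s.F k, S y) ∧ ∀ U, lev k U → ev S U → Φ U :=
  let ⟨p, hp⟩ := exists_frc h; ⟨p.k, p.S, p.ms, p.pos, frc_iff.1 hp⟩

theorem reflect (hS : s.Ms k S) (hE : s.Ms k E) (h : ∀ U : GU s.Cd, lev k U → ev S U → ev E U) :
    ∀ᶠ y in s.F k, S y → E y := by
  by_cases hp : ∃ᶠ y in s.F k, S y
  · exact ae_of_frc (p := ⟨k, S, hS, hp⟩) hE (frc_iff.2 h)
  · exact (not_frequently.1 hp).mono fun y h1 h2 => absurd h2 h1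

theorem ev_not (hk : lev k U) (hE : s.Ms k E) : ev (fun y => ¬ E y) U ↔ ¬ ev E U := by
  refine ⟨fun h h' => let ⟨_, h⟩ := (h.and h').exists; h.1 h.2, fun h => ?_⟩
  refine of_dense (Ψ := fun U => lev k U ∧ ¬ ev E U) (fun p hp => ?_) ⟨hk, h⟩
  obtain ⟨q, hq, h1⟩ := exists_le_lev fun U hU => (hp U hU).1
  refine ⟨q, hq, frc_ev ?_⟩
  let := s.m q.k
  by_contra hc
  let r : s.Cd := ⟨q.k, fun y => q.S y ∧ E y, q.ms.and (hE.up h1),
    (not_eventually.1 hc).mono fun y hy => by simpa using hy⟩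
  obtain ⟨U, hU⟩ := exists_GU r
  have hr : r ≤ q := ⟨le_rfl, Eventually.of_forall fun _ h => h.1⟩
  exact (hp.mono (hr.trans hq) U hU).2 (frc_ev (p := r) (Eventually.of_forall fun _ h => h.2) U hU)

theorem ev_ex {ι : Sort*} [Countable ι] {E : ι → Y → Prop} (hk : lev k U) (hE : ∀ i, s.Ms k (E i))
    (h : ev (fun y => ∃ i, E i y) U) : Ex (fun i U => lev k U ∧ ev (E i) U) U := by
  refine of_dense (Ψ := fun U => lev k U ∧ ev (fun y => ∃ i, E i y) U) (fun p hp => ?_) ⟨hk, h⟩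
  obtain ⟨q, hq, h1⟩ := exists_le_lev fun U hU => (hp U hU).1
  obtain ⟨r, hr, h2⟩ := exists_le_ev (Frc.mono (fun U hU => (hp U hU).2) hq)
  obtain ⟨i, hi⟩ := frequently_exists_countable (φ := fun i y => r.S y ∧ E i y)
    ((r.pos.and_eventually h2).mono fun y hy => let ⟨i, h⟩ := hy.2 hy.1; ⟨i, hy.1, h⟩)
  let := s.m r.k
  let t : s.Cd := ⟨r.k, _, r.ms.and ((hE i).up (h1.trans hr.1)), hi⟩
  exact ⟨t, le_trans (b := r) ⟨le_rfl, Eventually.of_forall fun _ h => h.1⟩ (hr.trans hq),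
    fun U hU => Ex.intro i ⟨frc_lev (p := t) (h1.trans hr.1) U hU,
      frc_ev (p := t) (Eventually.of_forall fun _ h => h.2) U hU⟩⟩

/-- From a forced existential statement to an almost sure one. -/
theorem ae_ex {ι : Sort*} [Countable ι] {E : ι → Y → Prop} (hS : s.Ms k S)
    (hE : ∀ i, s.Ms k (E i)) {Φ : ι → GU s.Cd → Prop}
    (hΦ : ∀ i U, lev k U → Φ i U → ev (E i) U) (h : ∀ U, lev k U → ev S U → Ex Φ U) :
    ∀ᶠ y in s.F k, S y → ∃ i, E i y := by
  refine reflect hS (@Measurable.exists _ _ (s.m k) _ _ hE) fun U h1 h2 => ?_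
  have h3 := h U h1 h2
  clear h2
  revert h1
  exact Ex.elim U h3 fun U i hi h1 => (hΦ i U h1 hi).imp fun y hy => ⟨i, hy⟩

theorem capture_one (Φ : GU s.Cd → Prop) [Dec Φ] (k : K) :
    ∃ k', k ≤ k' ∧ ∃ E, s.Ms k' E ∧ ∀ U, lev k' U → (Φ U ↔ ev E U) := by
  let W := (ℵ₁ : Cardinal.{0}).ord.ToType
  have hW : #W = ℵ₁ := mk_ord_toType _
  have : Reg W := reg_toType isRegular_aleph_one aleph0_lt_aleph_one
  have hc : ∀ w : W, Countable (Iio w) := fun w => by
    have := (Reg.iio w).trans_eq (hW.trans succ_aleph0.symm)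
    rwa [Order.lt_succ_iff, mk_le_aleph0_iff] at this
  by_contra hcon
  have : Nonempty s.Cd := ⟨⊤⟩
  obtain ⟨f, hf⟩ := exists_seq (W := W) (σ := s.Cd)
    (fun w f p => k ≤ p.k ∧ (Frc p Φ ∨ Frc p fun U => ¬ Φ U) ∧
      ∀ v : Iio w, (f v).k ≤ p.k ∧ ∀ y, p.S y → ¬ (f v).S y) (by
      intro w f hf
      have := hc w
      obtain ⟨k₁, h1⟩ := s.ub (WithBot (Iio w)) (fun v => v.elim k fun v => (f v).k)
        (mk_le_aleph0.trans aleph0_lt_aleph_one.le) (by
          rintro (_ | u) (_ | v) huv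
          · exact le_rfl
          · exact (hf v).1
          · exact absurd huv not_lt_bot
          · exact ((hf v).2.2 ⟨u.1, WithBot.coe_lt_coe.1 huv⟩).1)
      have hk : k ≤ k₁ := h1 none
      have hv : ∀ v, (f v).k ≤ k₁ := fun v => h1 (some v)
      let := s.m k₁
      have hm : ∀ v, Measurable (f v).S := fun v => (f v).ms.up (hv v)
      by_cases hpos : ∃ᶠ y in s.F k₁, ¬ ∃ v, (f v).S y
      · let p : s.Cd := ⟨k₁, _, (Measurable.exists hm).not, hpos⟩
        obtain ⟨q, hq, h2⟩ := RO.decide (val Φ) p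
        let := s.m q.k
        let r : s.Cd := ⟨q.k, fun y => q.S y ∧ p.S y, q.ms.and (p.ms.up hq.1),
          (q.pos.and_eventually hq.2).mono fun y hy => ⟨hy.1, hy.2 hy.1⟩⟩
        have hr : r ≤ q := ⟨le_rfl, Eventually.of_forall fun _ h => h.1⟩
        refine ⟨r, hk.trans hq.1, h2.imp (fun h => (frc_of_val h).mono hr)
          (fun h U hU h3 => (TU_not _).1 (TU.of_mem hU (RO.mono h hr)) (val_iff.2 h3)),
          fun v => ⟨(hv v).trans hq.1, fun y hy h3 => hy.2 ⟨v, h3⟩⟩⟩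
      · refine absurd ⟨k₁, hk, fun y => ∃ v : {v // Frc (f v) Φ}, (f v).S y,
          Measurable.exists fun v => hm _, fun U hU => ⟨fun h => ?_, fun h => ?_⟩⟩ hcon
        · have h2 := ev_ex hU hm (ev_of_ae hU ((not_frequently.1 hpos).mono fun y => not_not.1))
          clear hU
          revert h
          refine Ex.elim U h2 fun U v hv' h => hv'.2.imp fun y hy => ⟨⟨v, ?_⟩, hy⟩
          exact (hf v).2.1.resolve_right fun h3 => frc_iff.1 h3 U (hv'.1.mono (hv v)) hv'.2 h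
        · exact Ex.elim U (ev_ex hU (fun v : {v // Frc (f v) Φ} => hm v) h) fun U v hv' =>
            frc_iff.1 v.2 U (hv'.1.mono (hv v)) hv'.2)
  obtain ⟨k₁, h1⟩ := s.ub W (fun v => (f v).k) hW.le fun u v huv => ((hf v).2.2 ⟨u, huv⟩).1
  have h2 : Countable W := s.ccc k₁ W (fun v => (f v).S) (fun v => (f v).ms.up (h1 v))
    (fun v => pos_up (h1 v) (f v).ms (f v).pos) fun u v huv y hu hv => by
      rcases lt_or_gt_of_ne huv with h | h
      · exact ((hf v).2.2 ⟨u, h⟩).2 y hv hu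
      · exact ((hf u).2.2 ⟨v, h⟩).2 y hu hv
  exact absurd (hW ▸ mk_le_aleph0 : ℵ₁ ≤ ℵ₀) (not_le.2 aleph0_lt_aleph_one)

/-- Countably many truth values are given by measurable events. -/
theorem capture {ι : Type} [Countable ι] (Φ : ι → GU s.Cd → Prop) [∀ i, Dec (Φ i)] (k : K) :
    ∃ k', k ≤ k' ∧ ∃ E : ι → Y → Prop, (∀ i, s.Ms k' (E i)) ∧
      ∀ i U, lev k' U → (Φ i U ↔ ev (E i) U) := by
  rcases isEmpty_or_nonempty ι with h | h
  · exact ⟨k, le_rfl, fun i => isEmptyElim i, fun i => isEmptyElim i, fun i => isEmptyElim i⟩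
  obtain ⟨e, he⟩ := exists_surjective_nat ι
  choose g hg1 E hg2 hg3 using fun i k => capture_one (Φ i) k
  let c : ℕ → K := fun n => Nat.rec k (fun n x => g (e n) x) n
  have hc : Monotone c := monotone_nat_of_le_succ fun n => hg1 _ _
  obtain ⟨k', h1⟩ := s.ub ℕ c (mk_le_aleph0.trans aleph0_lt_aleph_one.le) fun u v h => hc h.le
  choose n hn using he
  have h2 : ∀ i, g i (c (n i)) ≤ k' := fun i => by
    have h3 : g (e (n i)) (c (n i)) ≤ k' := h1 (n i + 1)
    rwa [hn] at h3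
  refine ⟨k', h1 0, fun i => E i (c (n i)), fun i => ?_, fun i U hU => ?_⟩
  · exact (hg2 i _).up (h2 i)
  · exact hg3 i _ U (hU.mono (h2 i))

end Sys

end Pool.Agent.Shared.RealForcing
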