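import Pool.Agent.Shared.RealForcing.Bridge
import Pool.Agent.Shared.RealForcing.Sys

/-! Reals of the quotient models are given by measurable functions. -/

namespace Pool.Agent.Shared.RealForcing

open Pool.Agent.Lib.MP_2739cb_lc Set Filter MeasureTheory

namespace Sys

variable {K Y : Type} [Preorder K] {s : Sys K Y} {U : GU s.Cd} {k : K}

@[elab_as_elim]
theorem ev_elim {ι : Sort*} [Countable ι] {E : ι → Y → Prop} {Φ : GU s.Cd → Prop} (U : GU s.Cd)
    (hk : lev k U) (hE : ∀ i, s.Ms k (E i)) (h : ev (fun y => ∃ i, E i y) U) [Dec Φ]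
    (H : ∀ U i, lev k U → ev (E i) U → Φ U) : Φ U :=
  Ex.elim U (ev_ex hk hE h) fun U i h => H U i h.1 h.2

/-- The generic chain meets every dense set of levels. -/
@[elab_as_elim]
theorem wlog_dense {Φ : GU s.Cd → Prop} {D : K → Prop}
    (hD : ∀ k', k ≤ k' → ∃ k'', k' ≤ k'' ∧ D k'') (U : GU s.Cd) (hk : lev k U) [Dec Φ]
    (H : ∀ U k', k ≤ k' → D k' → lev k' U → Φ U) : Φ U := by
  refine of_dense (Ψ := lev k) (fun p hp => ?_) hk
  obtain ⟨q, hq, h1⟩ := exists_le_lev hp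
  obtain ⟨k', h2, h3⟩ := hD _ h1
  let r : s.Cd := ⟨k', q.S, q.ms.up h2, pos_up h2 q.ms q.pos⟩
  exact ⟨r, le_trans (b := q) ⟨h2, Eventually.of_forall fun _ h => h⟩ hq,
    fun U hU => H U k' (h1.trans h2) h3 (frc_lev (p := r) le_rfl U hU)⟩

@[elab_as_elim]
theorem wlog_lev {Φ : GU s.Cd → Prop} {k' : K} (U : GU s.Cd) (hk : lev k U) (hk' : lev k' U)
    [Dec Φ] (H : ∀ U k'', k ≤ k'' → k' ≤ k'' → lev k'' U → Φ U) : Φ U := by
  refine of_dense (Ψ := fun U => lev k U ∧ lev k' U) (fun p hp => ?_) ⟨hk, hk'⟩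
  obtain ⟨q, hq, h1⟩ := exists_le_lev fun U hU => (hp U hU).1
  obtain ⟨r, hr, h2⟩ := exists_le_lev (Frc.mono (fun U hU => (hp U hU).2) hq)
  exact ⟨r, hr.trans hq, fun U hU => H U r.k (h1.trans hr.1) h2 (frc_lev le_rfl U hU)⟩

theorem ev_true (U : GU s.Cd) {E : Y → Prop} (h : ∀ y, E y) : ev E U :=
  ev_of_ae (lev_k0 U) (Eventually.of_forall h)

theorem ev_by_contra {E : Y → Prop} (hk : lev k U) (hE : s.Ms k E)
    (h : ¬ ev (fun y => ¬ E y) U) : ev E U :=
  not_not.1 fun h1 => h ((ev_not hk hE).2 h1)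

theorem ev_imp {E E' : Y → Prop} (hk : lev k U) (hE : s.Ms k E) (h : ev E U → ev E' U) :
    ev (fun y => E y → E' y) U := by
  by_cases h1 : ev E U
  · exact (h h1).imp fun _ h _ => h
  · exact ((ev_not hk hE).2 h1).imp fun _ h h' => absurd h' h

@[elab_as_elim]
theorem wlog_not_all {ι : Sort*} [Countable ι] {E : ι → Y → Prop} {Φ : GU s.Cd → Prop}
    (U : GU s.Cd) (hk : lev k U) (hE : ∀ i, s.Ms k (E i)) (h : ¬ ev (fun y => ∀ i, E i y) U)
    [Dec Φ] (H : ∀ U i, lev k U → ¬ ev (E i) U → Φ U) : Φ U := by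
  let := s.m k
  have h2 : ev (fun y => ∃ i, ¬ E i y) U :=
    ((ev_not hk (Measurable.forall hE)).2 h).imp fun y hy => not_forall.1 hy
  exact ev_elim U hk (fun i => (hE i).not) h2 fun U i hk h4 => H U i hk ((ev_not hk (hE i)).1 h4)

@[elab_as_elim]
theorem wlog_val {β : Type} [Countable β] [MeasurableSpace β] [MeasurableSingletonClass β]
    {Φ : GU s.Cd → Prop} (f : Y → β) (U : GU s.Cd) (hk : lev k U) (hf : s.Ms k f) [Dec Φ]
    (H : ∀ U b, lev k U → ev (fun y => f y = b) U → Φ U) : Φ U :=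
  ev_elim (E := fun b y => f y = b) U hk
    (fun b => let _ := s.m k; Measurable.eq_const hf b) (ev_true U fun _ => ⟨_, rfl⟩) H

theorem ev_const {p : Prop} (h : ev (fun _ => p) U) : p := let ⟨_, h⟩ := h.exists; h

/-- The name of the function given by `f`. -/
noncomputable def fnNm (s : Sys K Y) (f : Y → ℕ → ℕ) : Nm s.Cd :=
  funNm fun n m U => ev (fun y => f y n = m) U

/-- The name of the set given by `a`. -/
noncomputable def sbNm (s : Sys K Y) (a : Y → Set ℕ) : Nm s.Cd :=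
  subNm fun n U => ev (fun y => n ∈ a y) U

variable {f g : Y → ℕ → ℕ} {a b : Y → Set ℕ}

theorem app_fnNm {n m : ℕ} : App (El U) (cl U (s.fnNm f)) (cl U (nn n)) (cl U (nn m)) ↔
    ev (fun y => f y n = m) U := app_funNm

theorem el_sbNm {n : ℕ} : El U (cl U (nn n)) (cl U (s.sbNm a)) ↔ ev (fun y => n ∈ a y) U :=
  el_subNm

theorem sbNm_sub : Sub (El U) (cl U (s.sbNm a)) (cl U om) := subNm_sub _

@[elab_as_elim]
theorem wlog_fn {Φ : GU s.Cd → Prop} (x z : Nm s.Cd) (f : Y → ℕ → ℕ) (U : GU s.Cd)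
    (h : App (El U) (cl U (s.fnNm f)) (cl U x) (cl U z)) [Dec Φ]
    (H : ∀ U n m, ev (fun y => f y n = m) U → cl U x = cl U (nn n) → cl U z = cl U (nn m) → Φ U) :
    Φ U :=
  wlog_rel x z (fun x : ℕ × ℕ => nn x.1) (fun x => nn x.2)
    (fun x U => ev (fun y => f y x.1 = x.2) U) U h fun U i => H U i.1 i.2

@[elab_as_elim]
theorem wlog_sb {Φ : GU s.Cd → Prop} (z : Nm s.Cd) (a : Y → Set ℕ) (U : GU s.Cd)
    (h : El U (cl U z) (cl U (s.sbNm a))) [Dec Φ]
    (H : ∀ U n, ev (fun y => n ∈ a y) U → cl U z = cl U (nn n) → Φ U) : Φ U :=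
  wlog_set z nn (fun n U => ev (fun y => n ∈ a y) U) U h H

theorem Ms.eval (hf : s.Ms k f) (n : ℕ) : s.Ms k fun y => f y n :=
  let _ := s.m k; Measurable.eval (a := n) hf

theorem isFun_fnNm (hk : lev k U) (hf : s.Ms k f) :
    IsFun (El U) (cl U (s.fnNm f)) (cl U om) (cl U om) := by
  refine isFun_relNm (fun x : ℕ × ℕ => nn x.1) (fun x => nn x.2)
    (fun x U => ev (fun y => f y x.1 = x.2) U) _ _ (lev k) (fun U i _ _ => ⟨el_nn_om _, el_nn_om _⟩)
    (fun U i j _ hi hj e => ?_) (fun U x hk hx => ?_) hk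
  · obtain ⟨y, h1, h2⟩ := (ev.and hi hj).exists
    rw [← h1, ← h2, nn_inj e]
  · revert hk
    refine wlog_nat x U hx fun U n e hk => ?_
    revert e
    exact wlog_val (fun y => f y n) U hk (hf.eval n) fun U m _ h e => Ex.intro (n, m) ⟨h, e⟩

theorem exists_fn (k : K) (g : Nm s.Cd) : ∃ k', k ≤ k' ∧ ∃ f, s.Ms k' f ∧ ∀ U, lev k' U →
    IsFun (El U) (cl U g) (cl U om) (cl U om) → cl U g = cl U (s.fnNm f) := by
  obtain ⟨k', hk, E, hE, h⟩ := capture
    (fun (x : ℕ × ℕ) U => App (El U) (cl U g) (cl U (nn x.1)) (cl U (nn x.2))) k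
  have hf : s.Ms k' fun y n => sInf {m | E (n, m) y} :=
    let _ := s.m k'; measurable_pi_lambda _ fun n => measurable_natInf fun m => hE (n, m)
  refine ⟨k', hk, _, hf, fun U hU hg => fun_ext MU_zfc hg (isFun_fnNm hU hf) fun x z hxz => ?_⟩
  obtain ⟨h1, h2⟩ := MU_zfc.app_mem hg hxz
  obtain ⟨x, rfl⟩ := cl_surj x
  obtain ⟨z, rfl⟩ := cl_surj z
  revert hU hg hxz h2
  refine wlog_nat x U h1 fun U n e hU hg h2 hxz => ?_
  revert hU hg hxz e
  refine wlog_nat z U h2 fun U m e' e hU hg hxz => ?_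
  rw [e, e'] at hxz ⊢
  have h3 : ∀ j : Fin m, ev (fun y => ¬ E (n, j) y) U := fun j =>
    (ev_not hU (hE _)).2 fun h3 =>
      j.2.ne (nn_inj (MU_zfc.app_unique hg ((h (n, j) U hU).2 h3) hxz))
  refine app_fnNm.2 ((((h (n, m) U hU).1 hxz).and (ev_finite h3)).imp fun y hy => ?_)
  refine le_antisymm (Nat.sInf_le hy.1) (not_lt.1 fun hc => hy.2 ⟨_, hc⟩ ?_)
  exact Nat.sInf_mem (s := {m | E (n, m) y}) ⟨m, hy.1⟩

theorem exists_sb (k : K) (x : Nm s.Cd) : ∃ k', k ≤ k' ∧ ∃ a, s.Ms k' a ∧ ∀ U, lev k' U →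
    Sub (El U) (cl U x) (cl U om) → cl U x = cl U (s.sbNm a) := by
  obtain ⟨k', hk, E, hE, h⟩ := capture (fun (n : ℕ) U => El U (cl U (nn n)) (cl U x)) k
  exact ⟨k', hk, fun y => {n | E n y}, let _ := s.m k'; measurable_set_iff.2 hE, fun U h1 h2 =>
    ext_om _ _ (fun U => lev k' U ∧ Sub (El U) (cl U x) (cl U om)) (fun _ h => h.2)
      (fun _ _ => sbNm_sub) (fun U n h1 => (h n U h1.1).trans (el_sbNm (a := fun y => {n | E n y})).symm) ⟨h1, h2⟩⟩

theorem sbNm_congr (h : ev (fun y => a y = b y) U) :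
    cl U (s.sbNm a) = cl U (s.sbNm b) :=
  ext_om _ _ (ev fun y => a y = b y) (fun _ _ => sbNm_sub) (fun _ _ => sbNm_sub)
    (fun U n h => by
      rw [el_sbNm, el_sbNm]
      exact ⟨fun h1 => (h.and h1).imp fun y hy => hy.1 ▸ hy.2,
        fun h1 => (h.and h1).imp fun y hy => hy.1 ▸ hy.2⟩) h

theorem leStar_fnNm (hk : lev k U) (hf : s.Ms k f) (hg : s.Ms k g) :
    LeStar (El U) (cl U om) (cl U (s.fnNm f)) (cl U (s.fnNm g)) ↔
      ev (fun y => ∀ᶠ n in atTop, f y n ≤ g y n) U := by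
  let := s.m k
  simp only [eventually_atTop]
  constructor
  · rintro ⟨N, hN, h⟩
    obtain ⟨N, rfl⟩ := cl_surj N
    revert h hk
    refine wlog_nat N U hN fun U N e hk h => ?_
    rw [e] at h
    refine ev.imp ?_ fun y hy => ⟨N, hy⟩
    clear e
    by_contra hn
    revert h
    refine wlog_not_all U hk (fun n => show Measurable _ by fun_prop) hn fun U n hk hn h => hn ?_
    clear hn
    revert h
    refine wlog_val (fun y => (f y n, g y n)) U hk (show Measurable _ by fun_prop)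
      fun U x _ h1 h => h1.imp fun y hy hn => ?_
    rw [show f y n = x.1 from congrArg Prod.fst hy, show g y n = x.2 from congrArg Prod.snd hy]
    exact ordLe_nn.1 (h _ _ _ (ordLe_nn.2 hn) (app_fnNm.2 (h1.imp fun _ => congrArg Prod.fst))
      (app_fnNm.2 (h1.imp fun _ => congrArg Prod.snd)))
  · intro h
    refine ev_elim U hk (fun n => show Measurable _ by fun_prop) h fun U N _ h =>
      ⟨_, el_nn_om N, fun n u v h1 h2 h3 => ?_⟩
    obtain ⟨n, rfl⟩ := cl_surj n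
    obtain ⟨u, rfl⟩ := cl_surj u
    obtain ⟨v, rfl⟩ := cl_surj v
    revert h h1 h3
    refine wlog_fn n u f U h2 fun U n u' h4 e1 e2 h h1 h3 => ?_
    revert h h1 h4 e1 e2
    refine wlog_fn _ v g U h3 fun U n' v' h5 e3 e4 h4 e1 e2 h h1 => ?_
    obtain rfl := nn_inj (e1.symm.trans e3)
    rw [e1, ordLe_nn] at h1
    rw [e2, e4, ordLe_nn]
    obtain ⟨y, h6, h7, h8⟩ := (h.and (h4.and h5)).exists
    exact h7 ▸ h8 ▸ h6 _ h1

theorem infSub_sbNm (hk : lev k U) (ha : s.Ms k a) :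
    InfSub (El U) (cl U om) (cl U (s.sbNm a)) ↔ ev (fun y => ∀ n, ∃ m, n ≤ m ∧ m ∈ a y) U := by
  let := s.m k
  constructor
  · intro h
    by_contra hn
    revert h
    refine wlog_not_all U hk (fun n => show Measurable _ by fun_prop) hn fun U n _ hn h => hn ?_
    obtain ⟨m, h1, h2⟩ := h.2 _ (el_nn_om n)
    obtain ⟨m, rfl⟩ := cl_surj m
    clear h hn
    revert h2
    exact wlog_sb m a U h1 fun U m h3 e h2 => h3.imp fun y hy => ⟨m, ordLe_nn.1 (e ▸ h2), hy⟩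
  · refine fun h => ⟨sbNm_sub, fun n hn => ?_⟩
    obtain ⟨n, rfl⟩ := cl_surj n
    revert h hk
    refine wlog_nat n U hn fun U n e hk h => ?_
    rw [e]
    exact ev_elim U hk (fun m => show Measurable _ by fun_prop) (h.imp fun y hy => hy n)
      fun U m _ h => ⟨_, el_sbNm.2 (h.imp fun _ h => h.2), ordLe_nn.2 (ev_const (h.imp fun _ h => h.1))⟩

theorem almostSub_sbNm (hk : lev k U) (ha : s.Ms k a) (hb : s.Ms k b) :
    AlmostSub (El U) (cl U om) (cl U (s.sbNm a)) (cl U (s.sbNm b)) ↔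
      ev (fun y => ∃ N, ∀ n, N ≤ n → n ∈ a y → n ∈ b y) U := by
  let := s.m k
  constructor
  · rintro ⟨N, hN, h⟩
    obtain ⟨N, rfl⟩ := cl_surj N
    revert h hk
    refine wlog_nat N U hN fun U N e hk h => ?_
    rw [e] at h
    refine ev.imp ?_ fun y hy => ⟨N, hy⟩
    clear e
    by_contra hn
    revert h
    refine wlog_not_all U hk (fun n => show Measurable _ by fun_prop) hn fun U n hk hn h => hn ?_
    by_cases hn : N ≤ n
    · exact (ev_imp hk (show Measurable _ by fun_prop) fun h1 =>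
        el_sbNm.1 (h _ (el_sbNm.2 h1) (ordLe_nn.2 hn))).imp fun _ h _ => h
    · exact ev_true U fun _ h => absurd h hn
  · intro h
    refine ev_elim U hk (fun n => show Measurable _ by fun_prop) h fun U N _ h =>
      ⟨_, el_nn_om N, fun n h1 h2 => ?_⟩
    obtain ⟨n, rfl⟩ := cl_surj n
    revert h h2
    refine wlog_sb n a U h1 fun U n h3 e h h2 => ?_
    rw [e] at h2 ⊢
    exact el_sbNm.2 ((h.and h3).imp fun y hy => hy.1 n (ordLe_nn.1 h2) hy.2)

theorem strictMono_of_isPartition (hk : lev k U) (hf : s.Ms k f)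
    (h : IsPartition (El U) (cl U om) (cl U (s.fnNm f))) : ev (fun y => StrictMono (f y)) U := by
  let := s.m k
  refine ev.imp ?_ fun y hy => strictMono_nat_of_lt_succ hy
  by_contra hn
  revert h
  refine wlog_not_all U hk (fun n => show Measurable _ by fun_prop) hn fun U n hk hn h => hn ?_
  clear hn
  revert h
  refine wlog_val (fun y => (f y n, f y (n + 1))) U hk (show Measurable _ by fun_prop)
    fun U x _ h1 h => h1.imp fun y hy => ?_
  rw [show f y n = x.1 from congrArg Prod.fst hy, show f y (n + 1) = x.2 from congrArg Prod.snd hy]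
  exact el_nn.1 (h.2.2 _ _ _ _ (el_nn.2 (Nat.lt_succ_self n))
    (app_fnNm.2 (h1.imp fun _ => congrArg Prod.fst)) (app_fnNm.2 (h1.imp fun _ => congrArg Prod.snd)))

theorem isBlocks_sbNm (hk : lev k U) (hf : s.Ms k f) (hb : s.Ms k b) :
    IsBlocks (El U) (cl U (s.sbNm fun y => {x | ∃ i, i ∈ b y ∧ f y i ≤ x ∧ x < f y (i + 1)}))
      (cl U (s.fnNm f)) (cl U (s.sbNm b)) := by
  let := s.m k
  intro x
  obtain ⟨x, rfl⟩ := cl_surj x
  constructor
  · intro h
    revert hk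
    refine wlog_sb x _ U h fun U n h e hk => ?_
    rw [e]
    have h1 : ev (fun y => ∃ t : ℕ × ℕ × ℕ, t.1 ∈ b y ∧ f y t.1 = t.2.1 ∧ f y (t.1 + 1) = t.2.2 ∧
        t.2.1 ≤ n ∧ n < t.2.2) U := h.imp fun y ⟨i, h1, h2⟩ => ⟨(i, _, _), h1, rfl, rfl, h2⟩
    refine ev_elim U hk (fun n => show Measurable _ by fun_prop) h1 fun U t _ h =>
      ⟨_, _, _, _, el_sbNm.2 (h.imp fun _ h => h.1), isSuccOf_nn.2 rfl,
        app_fnNm.2 (h.imp fun _ h => h.2.1), app_fnNm.2 (h.imp fun _ h => h.2.2.1),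
        ordLe_nn.2 (ev_const (h.imp fun _ h => h.2.2.2.1)),
        el_nn.2 (ev_const (h.imp fun _ h => h.2.2.2.2))⟩
  · rintro ⟨i, j, u, v, h1, h2, h3, h4, h5, h6⟩
    obtain ⟨i, rfl⟩ := cl_surj i
    obtain ⟨j, rfl⟩ := cl_surj j
    obtain ⟨u, rfl⟩ := cl_surj u
    obtain ⟨v, rfl⟩ := cl_surj v
    clear hk
    revert h6; revert h5; revert h4; revert h2; revert h1
    refine wlog_fn i u f U h3 fun U i' u' h7 e1 e2 h1 h2 h4 h5 h6 => ?_
    revert h1 h2 h5 h6 h7 e1 e2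
    refine wlog_fn j v f U h4 fun U j' v' h8 e3 e4 h7 e1 e2 h1 h2 h5 h6 => ?_
    rw [e1] at h1 h2
    rw [e3, isSuccOf_nn] at h2
    obtain rfl := nn_inj h2
    obtain ⟨m, hm, e⟩ := el_nn_iff.1 (e4 ▸ h6)
    rw [e2, e, ordLe_nn] at h5
    rw [e]
    exact el_sbNm.2 (((el_sbNm.1 h1).and (h7.and h8)).imp fun y hy =>
      ⟨i', hy.1, hy.2.1 ▸ h5, hy.2.2 ▸ hm⟩)

end Sys

end Pool.Agent.Shared.RealForcing
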