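import Pool.Agent.Lib.MP_2739cb_lc.Defs

/-!
Cardinal characteristics of the continuum and the Menger property, read inside a structure
`(M, E)` for the language of set theory (`E x y` interprets `x ∈ y`). The letter `w` stands
for the set `ω` of natural numbers of the structure.
-/

namespace Pool.Agent.Shared.RealForcing

open Pool.Agent.Lib.MP_2739cb_lc

universe v

variable {M : Type v} (E : M → M → Prop)

/-- `s = y ∪ {y}`. -/
def IsSuccOf (s y : M) : Prop := ∀ z, E z s ↔ E z y ∨ z = y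

/-- `w` contains the empty set and is closed under successor. -/
def IsInd (w : M) : Prop :=
  (∃ e, E e w ∧ ∀ z, ¬ E z e) ∧ ∀ y, E y w → ∃ s, E s w ∧ IsSuccOf E s y

/-- `w = ω`, the least inductive set. -/
def IsOmega (w : M) : Prop := IsInd E w ∧ ∀ w', IsInd E w' → Sub E w w'

/-- `a ≤ b` for natural numbers (ordinals). -/
def OrdLe (a b : M) : Prop := E a b ∨ a = b

/-- `κ` is the least size of a set `F` with `Φ F`: the least ordinal into which such an `F`
injects. -/
def IsMinCard (Φ : M → Prop) (κ : M) : Prop :=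
  IsOrd E κ ∧ (∃ F, Φ F ∧ CardLe E F κ) ∧ ∀ α, E α κ → ∀ F, Φ F → ¬ CardLe E F α

/-- `F` is finite. -/
def IsFinite (w F : M) : Prop := ∃ n, E n w ∧ CardLe E F n

/-- `f ≤* g`: `f n ≤ g n` for all but finitely many `n`. -/
def LeStar (w f g : M) : Prop :=
  ∃ N, E N w ∧ ∀ n u v, OrdLe E N n → App E f n u → App E g n v → OrdLe E u v

/-- `F` is a family of functions `ω → ω` without `≤*`-upper bound. -/
def Unbounded (w F : M) : Prop :=
  (∀ f, E f F → IsFun E f w w) ∧ ∀ g, IsFun E g w w → ∃ f, E f F ∧ ¬ LeStar E w f g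

/-- `D` is a `≤*`-dominating family of functions `ω → ω`. -/
def Dominating (w D : M) : Prop :=
  (∀ g, E g D → IsFun E g w w) ∧ ∀ f, IsFun E f w w → ∃ g, E g D ∧ LeStar E w f g

/-! ### Groupwise density -/

/-- `a` is an infinite subset of `ω`. -/
def InfSub (w a : M) : Prop := Sub E a w ∧ ∀ n, E n w → ∃ m, E m a ∧ OrdLe E n m

/-- `a ⊆* b` for subsets of `ω`. -/
def AlmostSub (w a b : M) : Prop := ∃ N, E N w ∧ ∀ n, E n a → OrdLe E N n → E n b

/-- `p : ω → ω` is strictly increasing with `p 0 = 0`: it lists the left end points of a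
partition of `ω` into finite intervals. -/
def IsPartition (w p : M) : Prop :=
  IsFun E p w w ∧ (∀ e, (∀ z, ¬ E z e) → App E p e e) ∧
    ∀ i j u v, E i j → App E p i u → App E p j v → E u v

/-- `a` is the union of the intervals `[p i, p (i + 1))` with `i ∈ I`. -/
def IsBlocks (a p I : M) : Prop :=
  ∀ x, E x a ↔
    ∃ i s u v, E i I ∧ IsSuccOf E s i ∧ App E p i u ∧ App E p s v ∧ OrdLe E u x ∧ E x v

/-- `G` is a groupwise dense family of infinite subsets of `ω`. -/
def GroupwiseDense (w G : M) : Prop :=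
  (∀ a, E a G → InfSub E w a) ∧
    (∀ a b, E a G → InfSub E w b → AlmostSub E w b a → E b G) ∧
      ∀ p, IsPartition E w p → ∃ I a, InfSub E w I ∧ IsBlocks E a p I ∧ E a G

/-- `Γ` is a set of groupwise dense families, and no infinite subset of `ω` lies in all of
them. -/
def GFamily (w Γ : M) : Prop :=
  (∀ G, E G Γ → GroupwiseDense E w G) ∧ ∀ a, InfSub E w a → ∃ G, E G Γ ∧ ¬ E a G

/-! ### The Menger property -/

/-- `X = ⋃ A`. -/
def IsUnion (X A : M) : Prop := ∀ x, E x X ↔ ∃ V, E V A ∧ E x V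

/-- `τ` is a topology on the set `S`. -/
def IsTopology (S τ : M) : Prop :=
  (∀ V, E V τ → Sub E V S) ∧ E S τ ∧
    (∀ V V' I, E V τ → E V' τ → (∀ x, E x I ↔ E x V ∧ E x V') → E I τ) ∧
      ∀ A V, Sub E A τ → IsUnion E V A → E V τ

/-- The topology `τ` has a countable base. -/
def SecondCountable (w τ : M) : Prop :=
  ∃ B, Sub E B τ ∧ CardLe E B w ∧ ∀ V x, E V τ → E x V → ∃ b, E b B ∧ E x b ∧ Sub E b V

/-- `X` has the Menger property: for every sequence `U` of covers of `X` by members of `τ` there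
is a sequence `G` of finite subfamilies `G n ⊆ U n` whose union covers `X`. -/
def Menger (w τ X : M) : Prop :=
  ∀ U C, IsFun E U w C →
    (∀ n A, App E U n A → Sub E A τ ∧ ∀ x, E x X → ∃ V, E V A ∧ E x V) →
      ∃ G D, IsFun E G w D ∧
        (∀ n A F, App E U n A → App E G n F → Sub E F A ∧ IsFinite E w F) ∧
          ∀ x, E x X → ∃ n F V, App E G n F ∧ E V F ∧ E x V

/-- `A` is a family of Menger subsets of the space `(S, τ)` whose union is not Menger. -/
def BadFamily (w S τ A : M) : Prop :=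
  (∀ Z, E Z A → Sub E Z S ∧ Menger E w τ Z) ∧ ∃ X, IsUnion E X A ∧ ¬ Menger E w τ X

/-! ### Ideals on `ω` -/

/-- `J` is a proper ideal on `ω` containing all finite sets. -/
def IsIdeal (w J : M) : Prop :=
  (∀ a, E a J → Sub E a w) ∧ ¬ E w J ∧ (∀ a, Sub E a w → IsFinite E w a → E a J) ∧
    (∀ a b, E a J → Sub E b a → E b J) ∧
      ∀ a b c, E a J → E b J → (∀ x, E x c ↔ E x a ∨ E x b) → E c J

/-- `f ≤_J g`: the set of `n` with `f n > g n` belongs to `J`. -/
def LeMod (J f g : M) : Prop :=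
  ∃ a, E a J ∧ ∀ n, E n a ↔ ∃ u v, App E f n u ∧ App E g n v ∧ E v u

/-- `F` is a family of functions `ω → ω` without `≤_J`-upper bound. -/
def UnboundedMod (w J F : M) : Prop :=
  (∀ f, E f F → IsFun E f w w) ∧ ∀ g, IsFun E g w w → ∃ f, E f F ∧ ¬ LeMod E J f g

/-- `D` is a `≤_J`-dominating family of functions `ω → ω`. -/
def DominatingMod (w J D : M) : Prop :=
  (∀ g, E g D → IsFun E g w w) ∧ ∀ f, IsFun E f w w → ∃ g, E g D ∧ LeMod E J f g

/-! ### Null subsets of the Cantor space `P(ω)` -/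

/-- The cylinder of all `x ⊆ ω` with `x ∩ m = y ∩ m` is contained in `O`. -/
def CylSub (w m y O : M) : Prop := ∀ x, Sub E x w → (∀ i, E i m → (E i x ↔ E i y)) → E x O

/-- `O` is an open subset of `P(ω)`. -/
def OpenSet (w O : M) : Prop := ∀ x, E x O → Sub E x w ∧ ∃ m, E m w ∧ CylSub E w m x O

/-- The open set `O` has fair coin measure at most `2 ^ (-n)`: for every `m`, at most
`2 ^ (m - n) = |P(m \ n)|` of the `2 ^ m` cylinders of level `m` are contained in `O`. -/
def MeasureLe (w O n : M) : Prop :=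
  ∀ m Y Z, E m w → (∀ y, E y Y ↔ Sub E y m ∧ CylSub E w m y O) →
    (∀ z, E z Z ↔ ∀ i, E i z → E i m ∧ ¬ E i n) → CardLe E Y Z

/-- `N ⊆ P(ω)` is null: it is contained in open sets of arbitrarily small measure. -/
def NullSet (w N : M) : Prop :=
  ∀ n, E n w → ∃ O, OpenSet E w O ∧ MeasureLe E w O n ∧ Sub E N O

/-- `F` is a family of null sets covering `P(ω)`. -/
def NullCover (w F : M) : Prop :=
  (∀ N, E N F → NullSet E w N) ∧ ∀ x, Sub E x w → ∃ N, E N F ∧ E x N

end Pool.Agent.Shared.RealForcing
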