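import Pool.Agent.Shared.RealForcing.Sem
import Pool.Agent.Shared.RealForcing.Defs

/-! Natural numbers, cardinality comparisons and sequences in the quotient models. -/

namespace Pool.Agent.Shared.RealForcing

open Pool.Agent.Lib.MP_2739cb_lc Set Cardinal

universe v

section General

variable {M : Type v} {E : M → M → Prop}

theorem cardLe_mono {A B B' : M} (h : CardLe E A B) (h' : Sub E B B') : CardLe E A B' :=
  let ⟨f, ⟨h1, h2⟩, h3⟩ := h
  ⟨f, ⟨fun p hp => let ⟨a, b, h4, h5, h6⟩ := h1 p hp; ⟨a, b, h4, h' b h5, h6⟩, h2⟩, h3⟩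

theorem fun_ext (h : IsZFC E) {f g A B : M} (hf : IsFun E f A B) (hg : IsFun E g A B)
    (H : ∀ a b, App E f a b → App E g a b) : f = g := by
  have key : ∀ {f g : M}, IsFun E f A B → (∀ a b, App E f a b → App E g a b) →
      ∀ p, E p f → E p g := by
    intro f g hf H p hp
    obtain ⟨a, b, -, -, h1⟩ := hf.1 p hp
    obtain ⟨q, hq, h2⟩ := H a b ⟨p, hp, h1⟩
    rwa [h.extensionality p q fun z => (h1 z).trans (h2 z).symm]
  refine h.extensionality _ _ fun p => ⟨key hf H p, key hg (fun a b hab => ?_) p⟩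
  obtain ⟨b', h1, -⟩ := h.app_total hf (h.app_mem hg hab).1
  rwa [h.app_unique hg hab (H a b' h1)]

/-- Counting with an injection into an explicitly listed set. -/
theorem card_le_of_cardLe (h : IsZFC E) {A B : M} (hAB : CardLe E A B) {ι κ : Type} [Fintype ι]
    [Fintype κ] {a : ι → M} {b : κ → M} (ha : Function.Injective a) (h1 : ∀ i, E (a i) A)
    (h2 : ∀ z, E z B → ∃ j, z = b j) : Fintype.card ι ≤ Fintype.card κ := by
  obtain ⟨f, hf, hf'⟩ := hAB
  have : ∀ i, ∃ j, App E f (a i) (b j) := fun i => by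
    obtain ⟨z, h3, h4⟩ := h.app_total hf (h1 i)
    obtain ⟨j, rfl⟩ := h2 z h4
    exact ⟨j, h3⟩
  choose j hj using this
  exact Fintype.card_le_of_injective j fun i i' e => ha (hf' _ _ _ (hj i) (e ▸ hj i'))

theorem IsMinCard.sub (h : IsZFC E) {Φ : M → Prop} {κ o F : M} (hκ : IsMinCard E Φ κ)
    (ho : IsOrd E o) (hF : Φ F) (hF' : CardLe E F o) : Sub E κ o :=
  (h.ord_total hκ.1 ho).resolve_right fun h1 => hκ.2.2 o h1 F hF hF'

/-- Strict inequality between two least sizes, through an intermediate ordinal. -/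
theorem IsMinCard.lt (h : IsZFC E) {Φ Ψ : M → Prop} {κ μ o : M} (hκ : IsMinCard E Φ κ)
    (hμ : IsMinCard E Ψ μ) (ho : IsOrd E o) (h1 : ∃ F, Φ F ∧ CardLe E F o)
    (h2 : ∀ F, Ψ F → ¬ CardLe E F o) : E κ μ := by
  obtain ⟨F, h3, h4⟩ := h1
  obtain ⟨F', h5, h6⟩ := hμ.2.1
  exact (h.ord_total hμ.1 hκ.1).resolve_left fun h7 =>
    h2 F' h5 (cardLe_mono h6 fun z hz => hκ.sub h ho h3 h4 z (h7 z hz))

end General

variable {P : Type} [Preorder P] {U : GU P}

instance Dec.isSuccOf (x y : Nm P) :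
    Dec fun U => IsSuccOf (El U) (cl U x) (cl U y) := by
  unfold IsSuccOf; infer_instance

instance Dec.isInd (x : Nm P) :
    Dec fun U => IsInd (El U) (cl U x) := by
  unfold IsInd; infer_instance

instance Dec.isOmega (x : Nm P) :
    Dec fun U => IsOmega (El U) (cl U x) := by
  unfold IsOmega; infer_instance

instance Dec.ordLe (x y : Nm P) :
    Dec fun U => OrdLe (El U) (cl U x) (cl U y) := by
  unfold OrdLe; infer_instance

instance Dec.isFinite (x y : Nm P) :
    Dec fun U => IsFinite (El U) (cl U x) (cl U y) := by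
  unfold IsFinite; infer_instance

instance Dec.leStar (x y z : Nm P) :
    Dec fun U => LeStar (El U) (cl U x) (cl U y) (cl U z) := by
  unfold LeStar; infer_instance

instance Dec.unbounded (x y : Nm P) :
    Dec fun U => Unbounded (El U) (cl U x) (cl U y) := by
  unfold Unbounded; infer_instance

instance Dec.dominating (x y : Nm P) :
    Dec fun U => Dominating (El U) (cl U x) (cl U y) := by
  unfold Dominating; infer_instance

instance Dec.infSub (x y : Nm P) :
    Dec fun U => InfSub (El U) (cl U x) (cl U y) := by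
  unfold InfSub; infer_instance

instance Dec.almostSub (x y z : Nm P) :
    Dec fun U => AlmostSub (El U) (cl U x) (cl U y) (cl U z) := by
  unfold AlmostSub; infer_instance

instance Dec.isPartition (x y : Nm P) :
    Dec fun U => IsPartition (El U) (cl U x) (cl U y) := by
  unfold IsPartition; infer_instance

instance Dec.isBlocks (x y z : Nm P) :
    Dec fun U => IsBlocks (El U) (cl U x) (cl U y) (cl U z) := by
  unfold IsBlocks; infer_instance

instance Dec.groupwiseDense (x y : Nm P) :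
    Dec fun U => GroupwiseDense (El U) (cl U x) (cl U y) := by
  unfold GroupwiseDense; infer_instance

instance Dec.gFamily (x y : Nm P) :
    Dec fun U => GFamily (El U) (cl U x) (cl U y) := by
  unfold GFamily; infer_instance

instance Dec.isUnion (x y : Nm P) :
    Dec fun U => IsUnion (El U) (cl U x) (cl U y) := by
  unfold IsUnion; infer_instance

instance Dec.isTopology (x y : Nm P) :
    Dec fun U => IsTopology (El U) (cl U x) (cl U y) := by
  unfold IsTopology; infer_instance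

instance Dec.secondCountable (x y : Nm P) :
    Dec fun U => SecondCountable (El U) (cl U x) (cl U y) := by
  unfold SecondCountable; infer_instance

set_option synthInstance.maxSize 1000 in
instance Dec.menger (x y z : Nm P) :
    Dec fun U => Menger (El U) (cl U x) (cl U y) (cl U z) := by
  unfold Menger; infer_instance

instance Dec.badFamily (x y z t : Nm P) :
    Dec fun U => BadFamily (El U) (cl U x) (cl U y) (cl U z) (cl U t) := by
  unfold BadFamily; infer_instance

instance Dec.isIdeal (x y : Nm P) :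
    Dec fun U => IsIdeal (El U) (cl U x) (cl U y) := by
  unfold IsIdeal; infer_instance

instance Dec.leMod (x y z : Nm P) :
    Dec fun U => LeMod (El U) (cl U x) (cl U y) (cl U z) := by
  unfold LeMod; infer_instance

instance Dec.unboundedMod (x y z : Nm P) :
    Dec fun U => UnboundedMod (El U) (cl U x) (cl U y) (cl U z) := by
  unfold UnboundedMod; infer_instance

instance Dec.dominatingMod (x y z : Nm P) :
    Dec fun U => DominatingMod (El U) (cl U x) (cl U y) (cl U z) := by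
  unfold DominatingMod; infer_instance

instance Dec.cylSub (x y z t : Nm P) :
    Dec fun U => CylSub (El U) (cl U x) (cl U y) (cl U z) (cl U t) := by
  unfold CylSub; infer_instance

instance Dec.openSet (x y : Nm P) :
    Dec fun U => OpenSet (El U) (cl U x) (cl U y) := by
  unfold OpenSet; infer_instance

instance Dec.measureLe (x y z : Nm P) :
    Dec fun U => MeasureLe (El U) (cl U x) (cl U y) (cl U z) := by
  unfold MeasureLe; infer_instance

instance Dec.nullSet (x y : Nm P) :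
    Dec fun U => NullSet (El U) (cl U x) (cl U y) := by
  unfold NullSet; infer_instance

instance Dec.nullCover (x y : Nm P) :
    Dec fun U => NullCover (El U) (cl U x) (cl U y) := by
  unfold NullCover; infer_instance

variable [OrderTop P]

theorem isSuccOf_nn {i : ℕ} {z : MU U} :
    IsSuccOf (El U) z (cl U (nn i)) ↔ z = cl U (nn (i + 1)) :=
  ⟨fun h => MU_ext _ _ fun t => (h t).trans (el_nn_succ i t).symm, fun h => h ▸ el_nn_succ i⟩

theorem ordLe_nn {a b : ℕ} : OrdLe (El U) (cl U (nn a)) (cl U (nn b)) ↔ a ≤ b := by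
  rw [OrdLe, el_nn, le_iff_lt_or_eq]
  exact or_congr_right ⟨nn_inj, fun h => h ▸ rfl⟩

theorem eq_nn_zero {e : MU U} (h : ∀ z, ¬ El U z e) : e = cl U (nn 0) :=
  MU_ext _ _ fun z => iff_of_false (h z) (not_el_nn_zero z)

theorem isOmega_om : IsOmega (El U) (cl U om) := by
  refine ⟨⟨⟨_, el_nn_om 0, not_el_nn_zero⟩, fun y hy => ?_⟩, fun w hw z hz => ?_⟩
  · obtain ⟨y, rfl⟩ := cl_surj y
    exact wlog_nat y U hy fun U n e => ⟨_, el_nn_om (n + 1), e ▸ isSuccOf_nn.2 rfl⟩
  · obtain ⟨z, rfl⟩ := cl_surj z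
    obtain ⟨w, rfl⟩ := cl_surj w
    revert hw
    refine wlog_nat z U hz fun U n e hw => ?_
    rw [e]
    clear e
    induction n with
    | zero => obtain ⟨e, he, h⟩ := hw.1; exact eq_nn_zero h ▸ he
    | succ n ih => obtain ⟨s, hs, h⟩ := hw.2 _ ih; exact isSuccOf_nn.1 h ▸ hs

theorem el_om_of_ordLe {n : ℕ} {z : MU U} (h : OrdLe (El U) z (cl U (nn n))) :
    ∃ m, m ≤ n ∧ z = cl U (nn m) := by
  rcases h with h | h
  · obtain ⟨m, hm, e⟩ := el_nn_iff.1 h
    exact ⟨m, hm.le, e⟩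
  · exact ⟨n, le_rfl, h⟩

theorem exists_isMinCard (Φ : ∀ U : GU P, MU U → Prop) [∀ x, Dec fun U => Φ U (cl U x)]
    {o : Ordinal.{0}} (h : ∃ F, Φ U F ∧ CardLe (El U) F (cl U (oN o))) :
    ∃ κ, IsMinCard (El U) (Φ U) κ := by
  have h1 := el_sepN (U := U) (fun U α => ∃ F, Φ U F ∧ CardLe (El U) F α) (oN (o + 1))
  obtain ⟨κ, hκ, h2⟩ := MU_zfc.foundation _ ⟨_, (h1 _).2 ⟨el_on.2 (lt_add_one o), h⟩⟩
  obtain ⟨h3, h4⟩ := (h1 κ).1 hκ
  refine ⟨κ, ?_, h4, fun α hα F h5 h6 =>
    h2 α hα ((h1 α).2 ⟨(isOrd_cl_on _).1 κ h3 α hα, F, h5, h6⟩)⟩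
  obtain ⟨κ, rfl⟩ := cl_surj κ
  exact wlog_on κ _ U h3 fun U a _ e => e ▸ isOrd_cl_on a

/-- A set covered by a listed family of names injects into an ordinal of that size. -/
theorem cardLe_of_cover {ι : Type} (A : ι → Nm P) {b : Ordinal.{0}} (hb : #ι ≤ b.card) (X : Nm P)
    (Ψ : GU P → Prop) [Dec Ψ]
    (H : ∀ U z, Ψ U → El U (cl U z) (cl U X) → Ex (fun i U => cl U z = cl U (A i)) U) (h : Ψ U) :
    CardLe (El U) (cl U X) (cl U (oN b)) := by
  obtain ⟨e⟩ : Nonempty (ι ↪ b.ToType) := by rwa [← mk_toType] at hb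
  let o : ι → Ordinal.{0} := fun i => Ordinal.typein (α := b.ToType) (· < ·) (e i)
  have ho : Function.Injective o := fun i j h => e.injective (Ordinal.typein_injective _ h)
  obtain ⟨_, _⟩ := exists_wellFoundedLT ι
  let g : ι → GU P → Prop := fun i U => El U (cl U (A i)) (cl U X) ∧
    All (fun j : {j // j < i} => fun U => ¬ cl U (A i) = cl U (A j)) U
  refine ⟨cl U (relNm A (fun i => oN (o i)) g), isFun_relNm _ _ _ _ _ Ψ
    (fun U i _ hi => ⟨hi.1, el_on.2 (Ordinal.typein_lt_self _)⟩) (fun U i j _ hi hj e => ?_)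
    (fun U a h1 h2 => ?_) h, fun a a' c h1 h2 => ?_⟩
  · rcases lt_trichotomy i j with h | h | h
    · exact absurd e.symm (hj.2.elim ⟨i, h⟩)
    · rw [h]
    · exact absurd e (hi.2.elim ⟨j, h⟩)
  · have h3 := (H U a h1 h2).least
    clear h1
    revert h2
    refine Ex.elim U h3 fun U i hi h2 => Ex.intro i ⟨⟨hi.1 ▸ h2, ?_⟩, hi.1⟩
    exact All.intro (fun U => cl U a = cl U (A i) ∧
      All (fun j : {j // j < i} => fun U => ¬ cl U a = cl U (A j)) U)
      (fun U j h => h.1 ▸ h.2.elim j) hi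
  · obtain ⟨a, rfl⟩ := cl_surj a
    obtain ⟨a', rfl⟩ := cl_surj a'
    obtain ⟨c, rfl⟩ := cl_surj c
    revert h2
    refine wlog_rel a c _ _ _ U h1 fun U i _ e1 e2 h2 => ?_
    revert e1 e2
    refine wlog_rel a' c _ _ _ U h2 fun U j _ e3 e4 e1 e2 => ?_
    rw [e1, e3, ho (cl_on_inj (e2.symm.trans e4))]

theorem cardLe_setNm {ι : Type} (A : ι → Nm P) (g : ι → GU P → Prop) {b : Ordinal.{0}}
    (hb : #ι ≤ b.card) : CardLe (El U) (cl U (setNm A g)) (cl U (oN b)) :=
  cardLe_of_cover A hb _ (fun _ => True)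
    (fun U z _ h => wlog_set z A g U h fun _ i _ e => Ex.intro i e) trivial

theorem exists_cardLe_on (x : Nm P) : CardLe (El U) (cl U x) (cl U (oN (#x.ι).ord)) := by
  refine cardLe_of_cover x.A (by simp) x (fun _ => True) (fun U z _ h => ?_) trivial
  refine ((TU_mem _ _).2 h).mono fun p hp q hq => ?_
  obtain ⟨r, hr, j, -, h1⟩ := hp q hq
  exact ⟨r, hr, j, Frc.val fun U hU => (TU_eq _ _).1 (TU.of_mem (a := RO.eq z (x.A j)) hU h1)⟩

/-- A set that injects into an ordinal is listed by a family of names of that size. -/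
theorem exists_listing (X : Nm P) {b : Ordinal.{0}} {ι : Type} (hb : b.card ≤ #ι) :
    ∃ τ : ι → Nm P, ∀ U z, CardLe (El U) (cl U X) (cl U (oN b)) → El U (cl U z) (cl U X) →
      Ex (fun i U => cl U z = cl U (τ i)) U := by
  obtain ⟨e⟩ : Nonempty (b.ToType ↪ ι) := by rwa [← mk_toType] at hb
  obtain ⟨f, hf⟩ := exists_witness fun U f => IsInj (El U) f (cl U X) (cl U (oN b))
  choose τ hτ using fun a : b.ToType => exists_witness fun U x =>
    App (El U) (cl U f) x (cl U (oN (Ordinal.typein (α := b.ToType) (· < ·) a)))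
  refine ⟨Function.extend e τ fun _ => X, fun U z h hz => ?_⟩
  have h1 := hf U h
  obtain ⟨c, h2, h3⟩ := MU_zfc.app_total h1.1 hz
  obtain ⟨c, rfl⟩ := cl_surj c
  clear h hz
  revert h1 h2
  refine wlog_on c b U h3 fun U a ha e' h1 h2 => ?_
  obtain ⟨j, rfl⟩ := Ordinal.typein_surj (α := b.ToType) (· < ·) (o := a) (by simpa using ha)
  refine Ex.intro (e j) ?_
  rw [e.injective.extend_apply]
  exact h1.2 _ _ _ (e' ▸ h2) (hτ j U ⟨_, e' ▸ h2⟩)

theorem isFinite_of_cover (A : ℕ → Nm P) (n : ℕ) (X : Nm P)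
    (h : ∀ z, El U z (cl U X) → ∃ i : Fin n, z = cl U (A i)) :
    IsFinite (El U) (cl U om) (cl U X) :=
  ⟨_, el_nn_om n, cardLe_of_cover (fun i : Fin n => A i) (by simp) X
    (fun U => ∀ z, El U z (cl U X) → ∃ i : Fin n, z = cl U (A i))
    (fun _ _ h hz => let ⟨i, e⟩ := h _ hz; Ex.intro i e) h⟩

/-- The name of a set of natural numbers. -/
noncomputable def subNm (R : ℕ → GU P → Prop) : Nm P := setNm nn R

theorem subNm_sub (R : ℕ → GU P → Prop) : Sub (El U) (cl U (subNm R)) (cl U om) := by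
  intro z hz
  obtain ⟨z, rfl⟩ := cl_surj z
  exact wlog_set z _ _ U hz fun U i _ e => e ▸ el_nn_om i

theorem el_subNm {R : ℕ → GU P → Prop} {n : ℕ} [Dec (R n)] :
    El U (cl U (nn n)) (cl U (subNm R)) ↔ R n U :=
  ⟨fun h => wlog_set _ _ _ U h fun _ _ hi e => nn_inj e ▸ hi, el_setNm nn n⟩

theorem ext_om (a b : Nm P) (Ψ : GU P → Prop) [Dec Ψ]
    (ha : ∀ U, Ψ U → Sub (El U) (cl U a) (cl U om)) (hb : ∀ U, Ψ U → Sub (El U) (cl U b) (cl U om))
    (H : ∀ U n, Ψ U → (El U (cl U (nn n)) (cl U a) ↔ El U (cl U (nn n)) (cl U b))) (h : Ψ U) :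
    cl U a = cl U b := by
  refine MU_ext _ _ fun z => ?_
  obtain ⟨z, rfl⟩ := cl_surj z
  by_cases hz : El U (cl U z) (cl U om)
  · revert h
    exact wlog_nat z U hz fun U n e h => e ▸ H U n h
  · exact iff_of_false (fun h1 => hz (ha U h _ h1)) fun h1 => hz (hb U h _ h1)

/-- The name of a relation on the natural numbers. -/
noncomputable def funNm (R : ℕ → ℕ → GU P → Prop) : Nm P :=
  relNm (fun x : ℕ × ℕ => nn x.1) (fun x => nn x.2) fun x => R x.1 x.2

theorem app_funNm {R : ℕ → ℕ → GU P → Prop} {n m : ℕ} [Dec (R n m)] :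
    App (El U) (cl U (funNm R)) (cl U (nn n)) (cl U (nn m)) ↔ R n m U :=
  ⟨fun h => wlog_rel _ _ _ _ _ U h fun _ _ hi e e' => nn_inj e ▸ nn_inj e' ▸ hi,
    app_relNm (fun x : ℕ × ℕ => nn x.1) (fun x => nn x.2) (g := fun x => R x.1 x.2) (n, m)⟩

/-- The name of a sequence of sets. -/
noncomputable def seqNm (a : ℕ → Nm P) : Nm P := relNm nn a fun _ _ => True

theorem app_seqNm (a : ℕ → Nm P) (n : ℕ) {z : MU U} :
    App (El U) (cl U (seqNm a)) (cl U (nn n)) z ↔ z = cl U (a n) := by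
  obtain ⟨z, rfl⟩ := cl_surj z
  exact ⟨fun h => wlog_rel _ _ _ _ _ U h fun _ _ _ e e' => nn_inj e ▸ e',
    fun h => h ▸ app_relNm nn a n trivial⟩

theorem isFun_seqNm (a : ℕ → Nm P) :
    IsFun (El U) (cl U (seqNm a)) (cl U om) (cl U (setNm a fun _ _ => True)) :=
  isFun_relNm _ _ _ _ _ (fun _ => True) (fun _ i _ _ => ⟨el_nn_om i, el_setNm a i trivial⟩)
    (fun _ _ _ _ _ _ e => nn_inj e ▸ rfl)
    (fun U x _ h => wlog_nat x U h fun _ n e => Ex.intro n ⟨trivial, e⟩) trivial

/-- A name for the power set. -/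
theorem exists_pow (x : Nm P) :
    ∃ y : Nm P, ∀ U z, El U z (cl U y) ↔ Sub (El U) z (cl U x) := by
  obtain ⟨y, hy⟩ := exists_witness fun U y => ∀ z, El U z y ↔ Sub (El U) z (cl U x)
  exact ⟨y, fun U => hy U (MU_zfc.powerset _)⟩

end Pool.Agent.Shared.RealForcing
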