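import Pool.Agent.Shared.RealForcing.Seal

/-! A ccc extension that keeps the family unbounded and adds a function whose values are
eventually in a member of each of `#W` many groupwise dense families. -/

namespace Pool.Agent.Shared.RealForcing

open Set Filter Cond MeasureTheory Cardinal Obj

variable {Λ W : Type}

theorem mk_finset_le {α : Type} {c : Cardinal.{0}} (hc : ℵ₀ ≤ c) (h : #α ≤ c) :
    #(Finset α) ≤ c :=
  (mk_le_of_injective (f := Finset.toList) fun s t h => by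
    ext x; rw [← Finset.mem_toList, h, Finset.mem_toList]).trans
    ((mk_list_le_max α).trans (max_le hc h))

theorem mk_cond_le {J : Type} {A : Set Λ} {c : Cardinal.{0}} (hc : ℵ₀ ≤ c) (hA : #A ≤ c)
    (hJ : #J ≤ c) : #{p : Cond Λ J // p.In A} ≤ c := by
  have h1 : ∀ p : Cond Λ J, {x : A × List ℕ × Finset J |
      x.1.1 ∈ p.supp ∧ x.2.1 = p.s x.1 ∧ x.2.2 = p.F x.1}.Finite := by
    intro p
    refine Finite.of_finite_image (f := fun x => x.1.1) (p.supp_finite.subset ?_) ?_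
    · rintro _ ⟨x, hx, rfl⟩; exact hx.1
    · rintro ⟨a, s, F⟩ ⟨-, h1, h2⟩ ⟨a', s', F'⟩ ⟨-, h3, h4⟩ h
      obtain rfl : a = a' := Subtype.ext h
      exact Prod.ext rfl (Prod.ext (h1.trans h3.symm) (h2.trans h4.symm))
  have key : ∀ p q : {p : Cond Λ J // p.In A}, (h1 p).toFinset = (h1 q).toFinset →
      ∀ a ∈ p.1.supp, q.1.s a = p.1.s a ∧ q.1.F a = p.1.F a := by
    intro p q h a ha
    have h2 : (⟨a, in_iff.1 p.2 ha⟩, p.1.s a, p.1.F a) ∈ (h1 p).toFinset := by simpa using ha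
    rw [h, Finite.mem_toFinset] at h2
    exact ⟨h2.2.1.symm, h2.2.2.symm⟩
  refine (mk_le_of_injective (f := fun p => (h1 p.1).toFinset) fun p q h => ?_).trans
    (mk_finset_le hc ?_)
  · have h2 : ∀ a, q.1.s a = p.1.s a ∧ q.1.F a = p.1.F a := by
      intro a
      by_cases hp : a ∈ p.1.supp
      · exact key p q h a hp
      · by_cases hq : a ∈ q.1.supp
        · exact (key q p h.symm a hq).imp Eq.symm Eq.symm
        · simp only [supp, mem_ofPred_eq, not_or, not_not] at hp hq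
          exact ⟨hq.1.trans hp.1.symm, hq.2.trans hp.2.symm⟩
    exact Subtype.ext (ext' (fun a => (h2 a).1.symm) fun a => (h2 a).2.symm)
  · simp only [mk_prod, lift_id]
    exact (mul_le_mul' hA (mul_le_mul' (mk_le_aleph0.trans hc) (mk_finset_le hc hJ))).trans
      (by rw [mul_eq_self hc, mul_eq_self hc])

theorem mk_ms_le {J : Type} {A : Set Λ} {c : Cardinal.{0}} (hc : ℵ₀ ≤ c) (hω : c ^ ℵ₀ ≤ c)
    (hA : #A ≤ c) (hJ : #J ≤ c) : #{φ : Pt Λ J → Prop // Ms A φ} ≤ c := by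
  have h1 := MeasurableSpace.cardinal_measurableSet_le
    {S : Set (Pt Λ J) | ∃ p : Cond Λ J, p.In A ∧ S = {G | G.mem p}}
  have h2 : #{S : Set (Pt Λ J) | ∃ p : Cond Λ J, p.In A ∧ S = {G | G.mem p}} ≤ c :=
    (mk_le_of_surjective (f := fun p : {p : Cond Λ J // p.In A} =>
      (⟨{G | G.mem p}, p.1, p.2, rfl⟩ : {S : Set (Pt Λ J) | ∃ p : Cond Λ J, p.In A ∧
        S = {G | G.mem p}})) (by rintro ⟨_, p, hp, rfl⟩; exact ⟨⟨p, hp⟩, rfl⟩)).trans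
      (mk_cond_le hc hA hJ)
  refine le_trans (mk_le_of_injective (f := fun φ => ⟨{G | φ.1 G},
    (@measurableSet_setOfPred _ (Sig J A) _).2 φ.2⟩) fun φ ψ h => ?_) (h1.trans
      ((power_le_power_right (max_le h2 ((natCast_lt_aleph0 (n := 2)).le.trans hc))).trans hω))
  exact Subtype.ext (funext fun G => propext (Set.ext_iff.1 (Subtype.ext_iff.1 h) G))

variable [LinearOrder W] [Reg W]

theorem exists_enum (hω : #W ^ ℵ₀ ≤ #W) (A : Set Λ) : ∃ e : W → Arr Λ W,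
    (∀ ξ, GoodArr A (e ξ)) ∧ (#A ≤ #W → ∀ X, GoodArr A X → ∃ ξ, e ξ = X) := by
  have h0 : GoodArr A (fun _ _ _ _ => ∅ : Arr Λ W) :=
    ⟨fun _ _ _ _ => Ms.const _, fun _ _ _ => monotone_const⟩
  by_cases hA : #A ≤ #W
  · have h1 : #{X : Arr Λ W // GoodArr A X} ≤ #W := by
      refine (mk_le_of_injective (β := List ℕ × ℕ × ℕ × Finset ℕ → {φ : Pt Λ W → Prop // Ms A φ})
        (f := fun X x => ⟨fun G => x.2.2.2 ∈ X.1 x.1 x.2.1 x.2.2.1 G, X.2.1 _ _ _ _⟩)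
        fun X Y h => ?_).trans ?_
      · refine Subtype.ext (funext fun s => funext fun n => funext fun w => funext fun G =>
          Set.ext fun u => ?_)
        exact iff_of_eq (congrFun (Subtype.ext_iff.1 (congrFun h (s, n, w, u))) G)
      · rw [← power_def, mk_eq_aleph0 (List ℕ × ℕ × ℕ × Finset ℕ)]
        exact (power_le_power_right (mk_ms_le Reg.unc.le hω hA le_rfl)).trans hω
    have : Nonempty {X : Arr Λ W // GoodArr A X} := ⟨⟨_, h0⟩⟩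
    obtain ⟨e⟩ := h1
    exact ⟨fun ξ => (Function.invFun e ξ).1, fun ξ => (Function.invFun e ξ).2, fun _ X hX =>
      ⟨e ⟨X, hX⟩, congrArg Subtype.val (Function.leftInverse_invFun e.injective _)⟩⟩
  · exact ⟨fun _ _ _ _ _ => ∅, fun _ => h0, fun h => absurd h hA⟩

omit [LinearOrder W] [Reg W] in
theorem GoodArr.mono {A A' : Set Λ} {X : Arr Λ W} (h : GoodArr A X) (h' : A ⊆ A') :
    GoodArr A' X := ⟨fun s n w => (h.1 s n w).mono h', h.2⟩

variable {B : Base Λ W}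

omit [Reg W] in
theorem Sealed.up {k k' : Obj Λ W} {𝒮 𝒮' : Set (Fam Λ W)} {a : Pt Λ W → Set ℕ} {X : Arr Λ W}
    (h : Sealed B k 𝒮 a X) (hk : k ≤ k') (hS : 𝒮 ⊆ 𝒮') : Sealed B k' 𝒮' a X :=
  let ⟨ξ, Y, h1, h2⟩ := h; ⟨ξ, Y, fun s m => hS (h1 s m), ev hk h2⟩

theorem inK_uni {I : Type} [Nonempty I] (hI : #I ≤ #W) {c : I → Obj Λ W}
    (hc : ∀ i j, c i ≤ c j ∨ c j ≤ c i) (h : ∀ i, InK B (c i)) : InK B (uni c) :=
  ⟨(h (Classical.arbitrary I)).1.trans (le_uni hc _), mk_uni_le hI fun i => (h i).2.1,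
    pres_uni hc (fun i => (h i).1) fun i => (h i).2.2⟩

/-- The filter: a chain of approximations along which all arrays are sealed. -/
theorem exists_filter [WellFoundedLT W] (hΛ : #W < #Λ) (hω : #W ^ ℵ₀ ≤ #W) {k₁ : Obj Λ W}
    (hk₁ : InK B k₁) {H : W → Obj Λ W → (Pt Λ W → Set ℕ) → Prop}
    (hup : ∀ ξ k k' a, InK B k' → k ≤ k' → H ξ k a → H ξ k' a)
    (hH : ∀ ξ, DenseAbove B k₁ (H ξ)) :
    ∃ k, InK B k ∧ k₁ ≤ k ∧ ∃ (𝒮 : Set (Fam Λ W)) (a₁ a₂ : W → Pt Λ W → Set ℕ), Proper k 𝒮 ∧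
      (∀ ξ, MsSet k.A (a₁ ξ) ∧ MsSet k.A (a₂ ξ) ∧ single (a₁ ξ) ∈ 𝒮 ∧ single (a₂ ξ) ∈ 𝒮 ∧
        H ξ k (a₂ ξ)) ∧ ∀ X, GoodArr k.A X → ∃ ξ, Sealed B k 𝒮 (a₁ ξ) X := by
  classical
  obtain ⟨π, hπ⟩ := Reg.exists_book (W := W)
  choose e he1 he2 using exists_enum (Λ := Λ) hω
  obtain ⟨f, hf⟩ := exists_seq (W := W)
    (σ := Obj Λ W × Set (Fam Λ W) × (Pt Λ W → Set ℕ) × (Pt Λ W → Set ℕ))
    (fun w f s => InK B s.1 ∧ k₁ ≤ s.1 ∧ #s.2.1 < #W ∧ (∀ y ∈ s.2.1, MsFam s.1.A y) ∧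
      Proper s.1 s.2.1 ∧ (MsSet s.1.A s.2.2.1 ∧ MsSet s.1.A s.2.2.2 ∧ single s.2.2.1 ∈ s.2.1 ∧
        single s.2.2.2 ∈ s.2.1 ∧ H w s.1 s.2.2.2) ∧
      ∀ v : Iio w, (f v).1 ≤ s.1 ∧ (f v).2.1 ⊆ s.2.1 ∧
        (v.1 = (π w).1 → Sealed B s.1 s.2.1 s.2.2.1 (e (f v).1.A (π w).2))) (by
      intro w f hf
      let c : WithBot (Iio w) → Obj Λ W := fun v => v.elim k₁ fun v => (f v).1
      have hc := chain_of_lt (c := c) (by
        rintro (_ | u) (_ | v) huv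
        · exact le_rfl
        · exact (hf v).2.1
        · exact absurd huv not_lt_bot
        · exact ((hf v).2.2.2.2.2.2 ⟨u.1, (WithBot.coe_lt_coe (a := u) (b := v)).1 huv⟩).1)
      have hk : InK B (uni c) := inK_uni (by
        rw [show #(WithBot (Iio w)) = #(Iio w) + 1 from mk_option]
        exact (add_lt_of_lt Reg.unc.le (Reg.iio w) (one_lt_aleph0.trans Reg.unc)).le) hc
        (by rintro (_ | v); exacts [hk₁, (hf v).1])
      have hv : ∀ v, (f v).1 ≤ uni c := fun v => le_uni hc (some v)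
      have hs : #(⋃ v, (f v).2.1) < #W :=
        (card_iUnion_lt_iff_forall_of_isRegular Reg.reg (Reg.iio w)).2 fun v => (hf v).2.2.1
      have hm : ∀ y ∈ ⋃ v, (f v).2.1, MsFam (uni c).A y := fun y hy =>
        let ⟨v, h⟩ := mem_iUnion.1 hy; ((hf v).2.2.2.1 y h).mono (hv v).1
      have hp : Proper (uni c) (⋃ v, (f v).2.1) := proper_iUnion
        (fun u v huv => ((hf v).2.2.2.2.2.2 ⟨u.1, huv⟩).2.1) hv fun v => (hf v).2.2.2.2.1
      obtain ⟨X, hX, hX'⟩ : ∃ X, GoodArr (uni c).A X ∧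
          ∀ v : Iio w, v.1 = (π w).1 → X = e (f v).1.A (π w).2 := by
        by_cases h : (π w).1 < w
        · exact ⟨_, (he1 (f ⟨_, h⟩).1.A (π w).2).mono (hv _).1, fun v h => by congr; exact h.symm⟩
        · exact ⟨_, he1 _ w, fun v h1 => absurd (h1 ▸ v.2) h⟩
      obtain ⟨a₁, 𝒯, h1, h2, h3, h4, h5, h6⟩ := exists_seal hk.1 hk.2.2 hs hm hp hX
      have h7 : #(𝒯 ∪ ⋃ v, (f v).2.1 : Set _) < #W := (mk_union_le _ _).trans_lt
        (add_lt_of_lt Reg.unc.le ((le_aleph0_iff_set_countable.2 h2).trans_lt Reg.unc) hs)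
      have h8 : ∀ y ∈ 𝒯 ∪ ⋃ v, (f v).2.1, MsFam (uni c).A y := fun y hy => hy.elim (h3 y) (hm y)
      obtain ⟨k', h9, h10, a₂, h11, h12, h13⟩ := exists_meet hΛ (hH w) hk (le_uni hc none) h7 h8 h5
      refine ⟨(k', insert (single a₂) (𝒯 ∪ ⋃ v, (f v).2.1), a₁, a₂), h9,
        (le_uni hc none).trans h10, mk_insert_le.trans_lt
          (add_lt_of_lt Reg.unc.le h7 (one_lt_aleph0.trans Reg.unc)), ?_, h13,
        ⟨h1.mono h10.1, h11, Or.inr (Or.inl h4), Or.inl rfl, h12⟩, fun v => ⟨(hv v).trans h10,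
          fun y hy => Or.inr (Or.inr (mem_iUnion.2 ⟨v, hy⟩)), fun h => ?_⟩⟩
      · rintro y (rfl | hy)
        · exact h11.single
        · exact (h8 y hy).mono h10.1
      · exact hX' v h ▸ h6.up h10 fun y hy => Or.inr (Or.inl hy))
  have hlt : ∀ v w, v < w → (f v).1 ≤ (f w).1 := fun v w h => ((hf w).2.2.2.2.2.2 ⟨v, h⟩).1
  have hc := chain_of_lt hlt
  have hk := inK_uni le_rfl hc fun v => (hf v).1
  refine ⟨_, hk, (hf (Classical.arbitrary W)).2.1.trans (le_uni hc _), ⋃ v, (f v).2.1,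
    fun v => (f v).2.2.1, fun v => (f v).2.2.2, proper_iUnion
      (fun u v huv => ((hf v).2.2.2.2.2.2 ⟨u, huv⟩).2.1) (le_uni hc) fun v => (hf v).2.2.2.2.1,
    fun v => ?_, fun X hX => ?_⟩
  · obtain ⟨h1, h2, h3, h4, h5⟩ := (hf v).2.2.2.2.2.1
    exact ⟨h1.mono (le_uni hc v).1, h2.mono (le_uni hc v).1, mem_iUnion.2 ⟨v, h3⟩,
      mem_iUnion.2 ⟨v, h4⟩, hup _ _ _ _ hk (le_uni hc v) h5⟩
  · obtain ⟨Z, h1, h2, h3⟩ := exists_countable_supp
      (φ := fun (x : List ℕ × ℕ × ℕ × Finset ℕ) G => x.2.2.2 ∈ X x.1 x.2.1 x.2.2.1 G)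
      fun x => hX.1 _ _ _ _
    obtain ⟨v, hv⟩ := exists_sub_of_countable hlt h2 h1
    obtain ⟨ξ, rfl⟩ := he2 _ (hf v).1.2.1 X ⟨fun s n w u => (h3 (s, n, w, u)).mono' hv, hX.2⟩
    obtain ⟨w, hw, h4⟩ := hπ (v, ξ) v
    have h5 := ((hf w).2.2.2.2.2.2 ⟨v, hw⟩).2.2 (by rw [h4])
    rw [h4] at h5
    exact ⟨w, h5.up (le_uni hc w) (subset_iUnion (fun v => (f v).2.1) w)⟩

theorem exists_canjar [WellFoundedLT W] (hΛ : #W < #Λ) (hω : #W ^ ℵ₀ ≤ #W) {k₁ : Obj Λ W}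
    (hk₁ : InK B k₁) {H : W → Obj Λ W → (Pt Λ W → Set ℕ) → Prop}
    (hup : ∀ ξ k k' a, InK B k' → k ≤ k' → H ξ k a → H ξ k' a)
    (hH : ∀ ξ, DenseAbove B k₁ (H ξ)) :
    ∃ k, InK B k ∧ k₁ ≤ k ∧ ∃ d : Pt Λ W → ℕ → ℕ, Ms k.A d ∧
      (∀ᶠ G in k.F, ∀ᶠ i in atTop, i ≤ d G i) ∧
      ∀ ξ, ∃ a, MsSet k.A a ∧ H ξ k a ∧ ∀ᶠ G in k.F, ∀ᶠ i in atTop, d G i ∈ a G := by
  classical
  obtain ⟨k, hk, h1, 𝒮, a₁, a₂, hp, ha, hs⟩ := exists_filter hΛ hω hk₁ hup hH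
  obtain ⟨c, hc⟩ : ∃ a, a ∉ k.A := by
    by_contra hc
    push Not at hc
    have h2 := hk.2.1
    rw [eq_univ_of_forall hc, mk_univ] at h2
    exact absurd hΛ (not_lt.2 h2)
  let Z : W → Pt Λ W → ℕ → ℕ → Prop := fun j G i v => v ∈ a₁ j G ∧ v ∈ a₂ j G ∧ i ≤ v
  have hZ : ∀ j i v, Ms k.A fun G => Z j G i v := fun j i v =>
    ((ha j).1 v).and (((ha j).2.1 v).and (Ms.const _))
  have key : ∀ y ∈ 𝒮, ∀ (F₀ : Finset W) m, ∀ᶠ G in k.F,
      ¬ Avoid (y G) {v | m ≤ v ∧ ∀ j ∈ F₀, v ∈ a₁ j G ∧ v ∈ a₂ j G} := by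
    intro y hy F₀ m
    filter_upwards [hp (Option (F₀ ⊕ F₀))
      (fun i => i.elim y (Sum.elim (fun j => single (a₁ j)) fun j => single (a₂ j)))
      (by rintro (_ | j | j); exacts [hy, (ha j).2.2.1, (ha j).2.2.2.1]) m] with G hG h2
    refine hG ⟨fun i => i.elim {v | m ≤ v ∧ ∀ j ∈ F₀, v ∈ a₁ j G ∧ v ∈ a₂ j G}
      (Sum.elim (fun j => (a₁ j G)ᶜ) fun j => (a₂ j G)ᶜ), fun x hx => ?_, ?_⟩
    · by_contra h3
      simp only [mem_iUnion, not_exists] at h3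
      exact h3 none ⟨hx, fun j hj => ⟨not_not.1 (h3 (some (Sum.inl ⟨j, hj⟩))),
        not_not.1 (h3 (some (Sum.inr ⟨j, hj⟩)))⟩⟩
    · rintro (_ | j | j)
      · exact h2
      · exact avoid_single.2 fun x hx h => h hx
      · exact avoid_single.2 fun x hx h => h hx
  have hst := stepAt hc hZ fun F₀ i m => by
    filter_upwards [key _ (ha (Classical.arbitrary W)).2.2.1 F₀ (max m i)] with G hG
    by_contra h2
    exact hG (avoid_single.2 fun x _ hx => h2 ⟨x, le_of_max_le_left hx.1, fun j hj =>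
      ⟨(hx.2 j hj).1, (hx.2 j hj).2, le_of_max_le_right hx.1⟩⟩)
  have hle := le_step hc Z
  have hk' : InK B (k.step c Z) := by
    refine ⟨hk.1.trans hle, mk_step_le hk.2.1 _ _, fun f hf => ?_⟩
    obtain ⟨E, hE1, hE2, hE3⟩ := (ext hle).exists_step_interp hc hZ mem_step hf
    let X : Arr Λ W := fun s n w G => {u | ∃ t v, v < w ∧ E t n v G ∧ s <+: t ∧
      (∀ i, s.length ≤ i → i < t.length → i ≤ t.getD i 0) ∧
      u = (Finset.Ico s.length t.length).image fun i => t.getD i 0}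
    obtain ⟨η, ξ, Y, h2, h3⟩ := hs X ⟨fun s n w u => Ms.ex fun t => Ms.ex fun v =>
      (Ms.const _).and ((hE1 t n v).and (Ms.const _)),
      fun s n G w w' hw u ⟨t, v, h1, h2⟩ => ⟨t, v, h1.trans_le hw, h2⟩⟩
    refine ⟨ξ, hE3 (B.b ξ) ((B.ms ξ).mono' hk.1.1) fun s F₀ m => ?_⟩
    filter_upwards [h3, key _ (h2 s m) F₀ 0, eventually_countable_forall.2 fun s =>
      eventually_countable_forall.2 (hE2 s {η})] with G h4 h5 h6
    rcases h4 with ⟨s', n, h4⟩ | h4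
    · obtain ⟨t, v, h7, h8⟩ := h6 s' n
      have h9 := h8.2 η (Finset.mem_singleton_self η)
      refine absurd (fun x hx => ?_) (h4 _ (mem_iUnion.2 ⟨v + 1, t, v, Nat.lt_succ_self v, h7, h8.1,
        fun i hi hi' => (h9 i hi hi').2.2, rfl⟩))
      obtain ⟨i, hi, rfl⟩ := Finset.mem_image.1 hx
      exact (h9 i (Finset.mem_Ico.1 hi).1 (Finset.mem_Ico.1 hi).2).1
    · simp only [Avoid, not_forall, not_not] at h5
      obtain ⟨u, hu, h5⟩ := h5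
      obtain ⟨n, hn, t, v, h7, h8, h9, h10, rfl⟩ := h4 s m u hu
      refine ⟨n, t, v, hn, h7, h8, h9, fun j hj i hi hi' => ?_⟩
      have h11 := (h5 (Finset.mem_image_of_mem _ (Finset.mem_Ico.2 ⟨hi, hi'⟩))).2 j hj
      exact ⟨h11.1, h11.2, h10 i hi hi'⟩
  refine ⟨_, hk', h1.trans hle, gen c, ms_gen (mem_insert _ _),
    (hst.allowed (Classical.arbitrary W)).mono fun G hG => hG.mono fun i hi => hi.2.2,
    fun ξ => ⟨a₂ ξ, (ha ξ).2.1.mono hle.1, hup _ _ _ _ hk' hle (ha ξ).2.2.2.2,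
      (hst.allowed ξ).mono fun G hG => hG.mono fun i hi => hi.2.1⟩⟩

end Pool.Agent.Shared.RealForcing
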