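import Pool.Agent.Shared.RealForcing.Space
import Pool.Agent.Shared.RealForcing.Meas

/-! The generic function at a coordinate, and quotient arguments. -/

namespace Pool.Agent.Shared.RealForcing

open Set Filter Cond MeasureTheory

variable {Λ J : Type} {N N' : Data Λ J} {A A' : Set Λ} {a : Λ}

theorem ccc_GF (N : Data Λ J) (A : Set Λ) : @CCC _ (Sig J A) (GF N A) :=
  fun _ _ h1 h2 h3 => countable_of_disjoint h1 h2 h3

/-- The generic function at coordinate `a`. -/
noncomputable def gen (a : Λ) (G : Pt Λ J) (i : ℕ) : ℕ :=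
  sInf {v | ∃ t : List ℕ, G.mem (top.upd a t ∅) ∧ i < t.length ∧ t.getD i 0 = v}

theorem ms_gen (ha : a ∈ A) : Ms A (gen (J := J) a) := by
  let := Sig J A
  refine measurable_pi_lambda _ fun i => measurable_natInf fun v => Measurable.exists fun t => ?_
  exact (ms_mem (upd_in (top_in A) ha t ∅)).and measurable_const

theorem le_one (N : Data Λ J) (p : Cond Λ J) (a : Λ) : Le N p (top.upd a (p.s a) ∅) := by
  refine Le.of_triv (fun b => ?_) (fun b => ?_) fun b => ?_ <;> by_cases h : b = a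
  · subst h; simp
  · rw [upd_s_ne _ h]; exact List.nil_prefix
  · subst h; simp
  · rw [upd_F_ne _ h]; exact Finset.empty_subset _
  · subst h; simp
  · rw [upd_F_ne _ h]; exact Or.inr rfl

theorem gen_eq {G : Pt Λ J} (hG : Gen N A G) (ha : a ∈ A) {p : Cond Λ J} (hp : p.In A)
    (hpG : G.mem p) {i : ℕ} (hi : i < (p.s a).length) : gen a G i = (p.s a).getD i 0 := by
  have h1 : {v | ∃ t : List ℕ, G.mem (top.upd a t ∅) ∧ i < t.length ∧ t.getD i 0 = v} =
      {(p.s a).getD i 0} := by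
    refine eq_singleton_iff_unique_mem.2 ⟨⟨p.s a, hG.2.1 _ p hpG hp (upd_in (top_in A) ha _ _)
      (le_one N p a), hi, rfl⟩, ?_⟩
    rintro _ ⟨t, ht, hit, rfl⟩
    obtain ⟨r, -, -, h2, h3⟩ := hG.2.2 _ p ht hpG (upd_in (top_in A) ha _ _) hp
    have h4 := h2.pre a
    rw [upd_s_self] at h4
    rw [← getD_of_pre h4 hit, getD_of_pre (h3.pre a) hi]
  rw [gen, h1, csInf_singleton]

theorem fo_gen (ha : a ∈ A) {p : Cond Λ J} (hp : p.In A) {i : ℕ} (hi : i < (p.s a).length) :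
    Fo N A p fun G => gen a G i = (p.s a).getD i 0 :=
  (ev_gen N A).mono fun _ hG hpG => gen_eq hG ha hp hpG hi

/-- At coordinate `a` the iteration adds a function over the part supported in `A`, whose values
eventually satisfy each of the events `Z j`. -/
structure StepAt (N : Data Λ J) (A : Set Λ) (a : Λ) (A' : Set Λ)
    (Z : J → Pt Λ J → ℕ → ℕ → Prop) : Prop where
  cl : Closed N A
  not_mem : a ∉ A
  sub : A ⊆ A'
  mem : a ∈ A'
  sound : ∀ j i v, ∀ r ∈ N a j i v, r.In A ∧ Fo N A' r fun G => Z j G i v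
  full : ∀ (F₀ : Finset J) (i m : ℕ) (p : Cond Λ J), p.In A →
    ∃ q, q.In A ∧ Le N q p ∧ ∃ v, m ≤ v ∧ ∀ j ∈ F₀, ∃ r ∈ N a j i v, Le N q r

variable {Z : J → Pt Λ J → ℕ → ℕ → Prop}

theorem StepAt.ext (h : StepAt N A a A' Z) : Ext N A N A' := ⟨h.cl, h.sub, fun _ _ => rfl⟩

theorem StepAt.ext1 (h : StepAt N A a A' Z) {p q : Cond Λ J} (hp : p.In A') (hq : q.In A)
    (hqp : Le N q (res A p)) (m : ℕ) :
    ∃ p', p'.In A' ∧ Le N p' p ∧ Le N p' q ∧ ∃ v, m ≤ v ∧ p'.s a = p.s a ++ [v] := by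
  obtain ⟨q', hq', h1, v, hv, h2⟩ := h.full (p.F a) (p.s a).length m q hq
  refine ⟨(glue A q' p).upd a (p.s a ++ [v]) (p.F a),
    upd_in (glue_in (hq'.mono h.sub) hp) h.mem _ _, upd_glue_le h.cl h.not_mem hq' (h1.trans hqp)
      (List.prefix_append _ _) (Finset.Subset.refl _) fun j hj i hi hi' => ?_,
    ((glue_le_left h.cl hq' p).upd_left h.cl hq' h.not_mem _ _).trans h1, v, hv, upd_s_self ..⟩
  obtain rfl : i = (p.s a).length := by simp at hi'; omega
  obtain ⟨r, hr, h3⟩ := h2 j hj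
  rw [getD_concat]
  exact ⟨r, hr, (h.sound _ _ _ r hr).1, h3⟩

theorem StepAt.ext_len (h : StepAt N A a A' Z) {p : Cond Λ J} (hp : p.In A') {n : ℕ}
    (hn : (p.s a).length ≤ n) : ∃ p', p'.In A' ∧ Le N p' p ∧ (p'.s a).length = n := by
  induction hn with
  | refl => exact ⟨p, hp, Le.refl _ _, rfl⟩
  | step _ ih =>
    obtain ⟨p', h1, h2, h3⟩ := ih
    obtain ⟨p'', h4, h5, -, v, -, h6⟩ := h.ext1 h1 (res_in A p') (Le.refl _ _) 0
    exact ⟨p'', h4, h5.trans h2, by simp [h6, h3]⟩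

theorem StepAt.allowed (h : StepAt N A a A' Z) (j : J) :
    ∀ᶠ G in GF N A', ∀ᶠ i in atTop, Z j G i (gen a G i) := by
  classical
  refine ev_of_dense fun p hp => ?_
  have h1 : Le N (p.upd a (p.s a) (insert j (p.F a))) p := by
    refine Le.of_triv (fun b => ?_) (fun b => ?_) fun b => ?_ <;> by_cases hb : b = a
    · subst hb; simp
    · rw [upd_s_ne _ hb]
    · subst hb; simp
    · rw [upd_F_ne _ hb]
    · subst hb; simp
    · rw [upd_s_ne _ hb]; exact Or.inl rfl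
  have h2 := upd_in hp h.mem (p.s a) (insert j (p.F a))
  refine ⟨_, h2, h1, (Fo.forall fun i : {i // (p.s a).length ≤ i} => Fo.of_dense
    (φ := fun G => Z j G i (gen a G i)) h2 fun q hq hqp => ?_).imp fun G hG =>
      eventually_atTop.2 ⟨_, fun i hi => hG ⟨i, hi⟩⟩⟩
  obtain ⟨r, hr, h3, h4⟩ := h.ext_len hq (n := max (q.s a).length (i + 1)) (le_max_left _ _)
  have hi : i.1 < (r.s a).length := by rw [h4]; exact lt_max_of_lt_right (Nat.lt_succ_self _)
  obtain ⟨u, hu, h5⟩ := (h3.trans hqp).wit (a := a) (j := j) (i := i) (by simp)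
    (by simpa using i.2) hi
  refine ⟨r, hr, h3, (((h.sound _ _ _ u hu).2.le h5 hr ((h.sound _ _ _ u hu).1.mono h.sub)).and
    (fo_gen h.mem hr hi)).imp fun G hG => ?_⟩
  rw [hG.2]; exact hG.1

/-- The generic function is unbounded over the part supported in `A`, on every infinite set
given by that part. -/
theorem StepAt.unbounded (h : StepAt N A a A' Z) {Y : Pt Λ J → ℕ → Prop}
    (hY : ∀ i, Ms A fun G => Y G i) (hY' : ∀ᶠ G in GF N A', ∃ᶠ i in atTop, Y G i)
    {f : Pt Λ J → ℕ → ℕ} (hf : Ms A f) :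
    ∀ᶠ G in GF N A', ∃ᶠ i in atTop, Y G i ∧ f G i < gen a G i := by
  let := Sig J A
  simp only [frequently_atTop]
  refine eventually_countable_forall.2 fun m => ev_of_dense fun p hp => ?_
  have h1 : ∀ᶠ G in GF N A, ∃ i, max m (p.s a).length ≤ i ∧ Y G i :=
    h.ext.reflect_ev (Ms.ex fun i => (Ms.const _).and (hY i))
      (hY'.mono fun G hG => frequently_atTop.1 hG _)
  obtain ⟨q, hq, h2, i, h3⟩ := Fo.decide_exists (fun i => (Ms.const _).and (hY i)) (res_in A p)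
    (Fo.of_ev h1 _)
  have hi : max m (p.s a).length ≤ i := let ⟨_, h⟩ := h3.ex hq; h.1
  have h4 := glue_in (A := A) (hq.mono h.sub) hp
  obtain ⟨p₁, h5, h6, h7⟩ := h.ext_len h4 (n := i)
    (by rw [glue_s_not h.not_mem]; exact (le_max_right _ _).trans hi)
  obtain ⟨q₁, hq₁, h8, w, h9⟩ := Fo.decide_exists (N := N) (φ := fun w G => f G i = w)
    (fun w => show Measurable _ by fun_prop) (res_in A p₁)
    (Eventually.of_forall fun G _ => ⟨_, rfl⟩)
  obtain ⟨p₂, h10, h11, h12, v, hv, h13⟩ := h.ext1 h5 hq₁ h8 (w + 1)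
  have h14 : i < (p₂.s a).length := by simp [h13, h7]
  refine ⟨p₂, h10, h11.trans (h6.trans (glue_le_right h.cl hq h2)),
    (((h.ext.fo h3).le (h11.trans (h6.trans (glue_le_left h.cl hq p))) h10 (hq.mono h.sub)).and
      (((h.ext.fo h9).le h12 h10 (hq₁.mono h.sub)).and (fo_gen h.mem h10 h14))).imp
        fun G hG => ⟨i, (le_max_left _ _).trans hi, hG.1.2, ?_⟩⟩
  rw [hG.2.1, hG.2.2, h13, ← h7, getD_concat]
  exact hv

/-- The interpretation, in the smaller iteration, of a function given by the larger one. -/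
theorem Ext.exists_interp (h : Ext N A N' A') {f : Pt Λ J → ℕ → ℕ} (hf : Ms A' f) :
    ∃ g : Pt Λ J → ℕ → ℕ, Ms A g ∧ ∀ b : Pt Λ J → ℕ → ℕ, Ms A b → ∀ p n, p.In A →
      Fo N' A' p (fun G => b G n ≤ f G n) → Fo N A p fun G => b G n ≤ g G n := by
  have hE : ∀ n v, ∃ E : Pt Λ J → Prop, _ := fun n v => exists_capture N (A := A)
    (D := {d | ∃ q, q.In A' ∧ Fo N' A' q (fun G => f G n = v) ∧ d = res A q})
    (by rintro _ ⟨q, -, -, rfl⟩; exact res_in A q)
  choose E hE1 hE2 hE3 using hE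
  have hpos : ∀ n, ∀ᶠ G in GF N A, ∃ v, E n v G := by
    intro n
    refine ev_of_dense fun p hp => ?_
    let := Sig J A'
    obtain ⟨q, hq, h1, v, h2⟩ := Fo.decide_exists (N := N') (φ := fun v G => f G n = v)
      (fun w => show Measurable _ by fun_prop) (hp.mono h.sub)
      (Eventually.of_forall fun G _ => ⟨_, rfl⟩)
    exact ⟨res A q, res_in A q, h.res_le h1 hp,
      (hE2 n v _ ⟨q, hq, h2, rfl⟩).imp fun G hG => ⟨v, hG⟩⟩
  let := Sig J A
  have hg : Measurable fun G n => sInf {v | E n v G} :=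
    measurable_pi_lambda _ fun n => measurable_natInf fun v => hE1 n v
  refine ⟨fun G n => sInf {v | E n v G}, hg, fun b hb p n hp h1 => Fo.of_dense hp fun p₁ hp₁ h2 => ?_⟩
  obtain ⟨q₀, hq₀, h3, v, h4⟩ := Fo.decide_exists (N := N)
    (φ := fun v G => sInf {v | E n v G} = v ∧ E n v G)
    (fun v => Measurable.and (Measurable.eq_const (hg.eval (a := n)) v) (hE1 n v)) hp₁
    (Fo.of_ev ((hpos n).mono fun G hG => ⟨_, rfl, Nat.sInf_mem hG⟩) _)
  obtain ⟨r, hr, h5, _, ⟨q, hq, h6, rfl⟩, h7⟩ := hE3 n v q₀ hq₀ (h4.imp fun _ h => h.2)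
  have h8 := glue_in (A := A) (hr.mono h.sub) hq
  have h9 : Fo N' A' (glue A r q) fun G => b G n ≤ v :=
    ((h1.le ((glue_le_left h.cl' hr q).trans (h.le_up (h5.trans (h3.trans h2)) hp)) h8
      (hp.mono h.sub)).and (h6.le (glue_le_right h.cl' hr (h.le_up h7 (res_in A q))) h8 hq)).imp
        fun G hG => hG.2 ▸ hG.1
  have h10 := h.reflect (show Measurable _ by fun_prop) h8 h9
  have h11 : res A (glue A r q) = r := by
    refine ext' (fun c => ?_) fun c => ?_ <;> by_cases hc : c ∈ A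
    · rw [res, glue_s_mem hc, glue_s_mem hc]
    · rw [res, glue_s_not hc, (hr c hc).1]; rfl
    · rw [res, glue_F_mem hc, glue_F_mem hc]
    · rw [res, glue_F_not hc, (hr c hc).2]; rfl
  rw [h11] at h10
  exact ⟨r, hr, h5.trans h3, (h10.and (h4.le h5 hr hq₀)).imp fun G hG => hG.1.trans hG.2.1.ge⟩

/-- `t` extends `s` by values allowed by the side conditions in `F₀`. -/
def Allowed (Z : J → Pt Λ J → ℕ → ℕ → Prop) (F₀ : Finset J) (s t : List ℕ) (G : Pt Λ J) : Prop :=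
  s <+: t ∧ ∀ j ∈ F₀, ∀ i, s.length ≤ i → i < t.length → Z j G i (t.getD i 0)

theorem ms_allowed (hZ : ∀ j i v, Ms A fun G => Z j G i v) (F₀ : Finset J) (s t : List ℕ) :
    Ms A (Allowed Z F₀ s t) := by
  let := Sig J A
  have : Allowed Z F₀ s t = fun G => s <+: t ∧
      ∀ j : F₀, ∀ i, s.length ≤ i → i < t.length → Z j G i (t.getD i 0) := by
    funext G; simp [Allowed]
  rw [this]
  exact measurable_const.and (Measurable.forall fun j => Measurable.forall fun i =>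
    measurable_const.imp (measurable_const.imp (hZ _ _ _)))

/-- Analysis of a function given by a one-step extension. -/
theorem Ext.exists_step_interp (h : Ext N A N' (insert a A)) (ha : a ∉ A)
    (hZ : ∀ j i v, Ms A fun G => Z j G i v)
    (hN : ∀ j i v r, r ∈ N' a j i v ↔ r.In A ∧ Fo N A r fun G => Z j G i v)
    {f : Pt Λ J → ℕ → ℕ} (hf : Ms (insert a A) f) :
    ∃ E : List ℕ → ℕ → ℕ → Pt Λ J → Prop, (∀ t n v, Ms A (E t n v)) ∧
      (∀ s F₀ n, ∀ᶠ G in GF N A, ∃ t v, E t n v G ∧ Allowed Z F₀ s t G) ∧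
      ∀ b : Pt Λ J → ℕ → ℕ, Ms A b →
        (∀ s F₀ m, ∀ᶠ G in GF N A, ∃ n t v, m ≤ n ∧ v < b G n ∧ E t n v G ∧ Allowed Z F₀ s t G) →
        ∀ᶠ G in GF N' (insert a A), ∃ᶠ n in atTop, f G n < b G n := by
  classical
  have hE : ∀ t n v, ∃ E : Pt Λ J → Prop, _ := fun t n v => exists_capture N (A := A)
    (D := {d | ∃ q, q.In (insert a A) ∧ q.s a = t ∧
      Fo N' (insert a A) q (fun G => f G n = v) ∧ d = res A q})
    (by rintro _ ⟨q, -, -, -, rfl⟩; exact res_in A q)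
  choose E hE1 hE2 hE3 using hE
  refine ⟨E, hE1, fun s F₀ n => ev_of_dense fun p hp => ?_, fun b hb hyp => ?_⟩
  · let := Sig J (insert a A)
    have h0 := upd_in (hp.mono h.sub) (mem_insert a A) s F₀
    obtain ⟨q, hq, h1, v, h2⟩ := Fo.decide_exists (N := N') (φ := fun v G => f G n = v)
      (fun w => show Measurable _ by fun_prop) h0 (Eventually.of_forall fun G _ => ⟨_, rfl⟩)
    have h3 : Le N' q p := h1.trans ((Le.refl N' p).upd_left h.cl' hp ha s F₀)
    have h4 : Fo N A (res A q) fun G => ∀ t : {t : F₀ × ℕ // s.length ≤ t.2 ∧ t.2 < (q.s a).length},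
        Z t.1.1 G t.1.2 ((q.s a).getD t.1.2 0) := by
      refine Fo.forall ?_
      rintro ⟨⟨j, i⟩, hi, hi'⟩
      obtain ⟨r, hr, h5⟩ := h1.wit (a := a) (j := j) (i := i) (by simp) (by simpa using hi) hi'
      obtain ⟨h6, h7⟩ := (hN _ _ _ r).1 hr
      exact h7.le (h.res_le h5 h6) (res_in A q) h6
    refine ⟨res A q, res_in A q, h.res_le h3 hp,
      ((hE2 _ n v _ ⟨q, hq, rfl, h2, rfl⟩).and h4).imp fun G hG => ⟨_, v, hG.1, ?_,
        fun j hj i hi hi' => hG.2 ⟨(⟨j, hj⟩, i), hi, hi'⟩⟩⟩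
    simpa using h1.pre a
  · simp only [frequently_atTop]
    refine eventually_countable_forall.2 fun m => ev_of_dense fun p hp => ?_
    let := Sig J A
    obtain ⟨q₀, hq₀, h1, ⟨n, t, v⟩, h2⟩ := Fo.decide_exists (N := N) (ι := ℕ × List ℕ × ℕ)
      (φ := fun x G => m ≤ x.1 ∧ x.2.2 < b G x.1 ∧ E x.2.1 x.1 x.2.2 G ∧
        Allowed Z (p.F a) (p.s a) x.2.1 G)
      (fun x => measurable_const.and (Measurable.and (by fun_prop)
        ((hE1 _ _ _).and (ms_allowed hZ _ _ _)))) (res_in A p)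
      (Fo.of_ev ((hyp (p.s a) (p.F a) m).mono fun G ⟨n, t, v, hG⟩ => ⟨(n, t, v), hG⟩) _)
    obtain ⟨G₀, hG₀⟩ := h2.ex hq₀
    obtain ⟨r, hr, h3, _, ⟨q, hq, rfl, h4, rfl⟩, h5⟩ := hE3 t n v q₀ hq₀ (h2.imp fun _ h => h.2.2.1)
    have h6 : Le N' ((glue A r p).upd a (q.s a) (q.F a ∪ p.F a)) p := by
      refine upd_glue_le h.cl' ha hr (h.le_up (h3.trans h1) (res_in A p)) hG₀.2.2.2.1
        Finset.subset_union_right fun j hj i hi hi' => ⟨r, (hN _ _ _ r).2 ⟨hr, ?_⟩, hr, Le.refl _ _⟩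
      exact (h2.le h3 hr hq₀).imp fun G hG => hG.2.2.2.2 j hj i hi hi'
    have h7 : (glue A r p).upd a (q.s a) (q.F a ∪ p.F a) =
        (glue A r q).upd a (q.s a) (q.F a ∪ p.F a) := by
      refine ext' (fun c => ?_) fun c => ?_ <;> by_cases hc : c = a
      · subst hc; simp
      · rw [upd_s_ne _ hc, upd_s_ne _ hc]
        by_cases hcA : c ∈ A
        · rw [glue_s_mem hcA, glue_s_mem hcA]
        · have : c ∉ insert a A := by simp [hc, hcA]
          rw [glue_s_not hcA, glue_s_not hcA, (hp c this).1, (hq c this).1]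
      · subst hc; simp
      · rw [upd_F_ne _ hc, upd_F_ne _ hc]
        by_cases hcA : c ∈ A
        · rw [glue_F_mem hcA, glue_F_mem hcA]
        · have : c ∉ insert a A := by simp [hc, hcA]
          rw [glue_F_not hcA, glue_F_not hcA, (hp c this).2, (hq c this).2]
    have h8 : Le N' ((glue A r p).upd a (q.s a) (q.F a ∪ p.F a)) q := by
      rw [h7]
      exact upd_glue_le h.cl' ha hr (h.le_up h5 (res_in A q)) List.prefix_rfl
        Finset.subset_union_left fun j _ i hi hi' => absurd hi' (not_lt.2 hi)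
    have h9 := upd_in (glue_in (A := A) (hr.mono h.sub) hp) (mem_insert a A) (q.s a)
      (q.F a ∪ p.F a)
    have h10 : Le N' ((glue A r p).upd a (q.s a) (q.F a ∪ p.F a)) q₀ :=
      ((glue_le_left h.cl' hr p).upd_left h.cl' hr ha _ _).trans (h.le_up h3 hq₀)
    exact ⟨_, h9, h6, ((h4.le h8 h9 hq).and ((h.fo h2).le h10 h9 (hq₀.mono h.sub))).imp
      fun G hG => ⟨n, hG.2.1, hG.1 ▸ hG.2.2.1⟩⟩

end Pool.Agent.Shared.RealForcing
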