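import Mathlib

/-!
Finite support iterations of forcings that add one function `ℕ → ℕ` at each coordinate.
A condition gives each coordinate a stem and a finite set of side conditions; the data `N`
say which conditions allow a value at a position for a side condition.
-/

namespace Pool.Agent.Shared.RealForcing

open Set Filter

structure Cond (Λ J : Type) where
  s : Λ → List ℕ
  F : Λ → Finset J
  fin : {a | s a ≠ [] ∨ F a ≠ ∅}.Finite

abbrev Data (Λ J : Type) := Λ → J → ℕ → ℕ → Set (Cond Λ J)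

variable {Λ J : Type}

theorem getD_of_pre {s t : List ℕ} (h : s <+: t) {i : ℕ} (hi : i < s.length) :
    t.getD i 0 = s.getD i 0 := by
  obtain ⟨u, rfl⟩ := h
  simp [List.getD_eq_getElem?_getD, List.getElem?_append_left hi]

theorem getD_concat (s : List ℕ) (v : ℕ) : (s ++ [v]).getD s.length 0 = v := by
  simp [List.getD_eq_getElem?_getD]

namespace Cond

def In (p : Cond Λ J) (A : Set Λ) : Prop := ∀ a, a ∉ A → p.s a = [] ∧ p.F a = ∅

def supp (p : Cond Λ J) : Set Λ := {a | p.s a ≠ [] ∨ p.F a ≠ ∅}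

theorem supp_finite (p : Cond Λ J) : p.supp.Finite := p.fin

theorem in_iff {p : Cond Λ J} {A : Set Λ} : p.In A ↔ p.supp ⊆ A := by
  constructor
  · intro h a ha
    by_contra hc
    rcases ha with ha | ha
    · exact ha (h a hc).1
    · exact ha (h a hc).2
  · intro h a ha
    by_contra hc
    exact ha (h (not_and_or.1 hc))

theorem In.mono {p : Cond Λ J} {A B : Set Λ} (h : p.In A) (hAB : A ⊆ B) : p.In B :=
  fun a ha => h a fun hc => ha (hAB hc)

theorem in_univ (p : Cond Λ J) : p.In univ := fun _ h => absurd trivial h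

def top : Cond Λ J := ⟨fun _ => [], fun _ => ∅, by simp⟩

@[simp] theorem top_s (a : Λ) : (top : Cond Λ J).s a = [] := rfl
@[simp] theorem top_F (a : Λ) : (top : Cond Λ J).F a = ∅ := rfl

theorem top_in (A : Set Λ) : (top : Cond Λ J).In A := fun _ _ => ⟨rfl, rfl⟩

open Classical in
noncomputable def glue (A : Set Λ) (q p : Cond Λ J) : Cond Λ J :=
  ⟨fun a => if a ∈ A then q.s a else p.s a, fun a => if a ∈ A then q.F a else p.F a,
    (q.fin.union p.fin).subset fun a ha => by
      by_cases h : a ∈ A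
      · left; simpa [h] using ha
      · right; simpa [h] using ha⟩

theorem glue_s_mem {A : Set Λ} {a : Λ} (h : a ∈ A) (q p : Cond Λ J) :
    (glue A q p).s a = q.s a := if_pos h
theorem glue_F_mem {A : Set Λ} {a : Λ} (h : a ∈ A) (q p : Cond Λ J) :
    (glue A q p).F a = q.F a := if_pos h
theorem glue_s_not {A : Set Λ} {a : Λ} (h : a ∉ A) (q p : Cond Λ J) :
    (glue A q p).s a = p.s a := if_neg h
theorem glue_F_not {A : Set Λ} {a : Λ} (h : a ∉ A) (q p : Cond Λ J) :
    (glue A q p).F a = p.F a := if_neg h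

theorem glue_in {A B : Set Λ} {q p : Cond Λ J} (hq : q.In B) (hp : p.In B) :
    (glue A q p).In B := by
  intro a ha
  by_cases h : a ∈ A
  · rw [glue_s_mem h, glue_F_mem h]; exact hq a ha
  · rw [glue_s_not h, glue_F_not h]; exact hp a ha

noncomputable def res (A : Set Λ) (p : Cond Λ J) : Cond Λ J := glue A p top

theorem res_in (A : Set Λ) (p : Cond Λ J) : (res A p).In A :=
  fun _ ha => ⟨glue_s_not ha _ _, glue_F_not ha _ _⟩

theorem ext' {p q : Cond Λ J} (h1 : ∀ a, p.s a = q.s a) (h2 : ∀ a, p.F a = q.F a) : p = q := by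
  cases p; cases q
  congr
  · exact funext h1
  · exact funext h2

theorem res_eq {A : Set Λ} {p : Cond Λ J} (h : p.In A) : res A p = p := by
  refine ext' (fun a => ?_) fun a => ?_
  · by_cases ha : a ∈ A
    · exact glue_s_mem ha _ _
    · rw [(h a ha).1]; exact glue_s_not ha _ _
  · by_cases ha : a ∈ A
    · exact glue_F_mem ha _ _
    · rw [(h a ha).2]; exact glue_F_not ha _ _

open Classical in
noncomputable def upd (p : Cond Λ J) (a : Λ) (t : List ℕ) (F₀ : Finset J) : Cond Λ J :=
  ⟨fun b => if b = a then t else p.s b, fun b => if b = a then F₀ else p.F b,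
    (p.fin.insert a).subset fun b hb => by
      by_cases h : b = a
      · exact Or.inl h
      · right; simpa [h] using hb⟩

@[simp] theorem upd_s_self (p : Cond Λ J) (a : Λ) (t : List ℕ) (F₀ : Finset J) :
    (p.upd a t F₀).s a = t := if_pos rfl
@[simp] theorem upd_F_self (p : Cond Λ J) (a : Λ) (t : List ℕ) (F₀ : Finset J) :
    (p.upd a t F₀).F a = F₀ := if_pos rfl
theorem upd_s_ne (p : Cond Λ J) {a b : Λ} (h : b ≠ a) (t : List ℕ) (F₀ : Finset J) :
    (p.upd a t F₀).s b = p.s b := if_neg h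
theorem upd_F_ne (p : Cond Λ J) {a b : Λ} (h : b ≠ a) (t : List ℕ) (F₀ : Finset J) :
    (p.upd a t F₀).F b = p.F b := if_neg h

theorem upd_in {p : Cond Λ J} {A : Set Λ} (hp : p.In A) {a : Λ} (ha : a ∈ A) (t : List ℕ)
    (F₀ : Finset J) : (p.upd a t F₀).In A := by
  intro b hb
  have : b ≠ a := fun h => hb (h ▸ ha)
  rw [upd_s_ne _ this, upd_F_ne _ this]
  exact hp b hb

end Cond

open Cond

/-- The order of the iteration: `Le N q p` says that `q` extends `p`. -/
inductive Le (N : Data Λ J) (q : Cond Λ J) : Cond Λ J → Prop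
  | mk (p : Cond Λ J) (h1 : ∀ a, p.s a <+: q.s a) (h2 : ∀ a, p.F a ⊆ q.F a)
      (w : Λ → J → ℕ → Cond Λ J)
      (h3 : ∀ a j i, j ∈ p.F a → (p.s a).length ≤ i → i < (q.s a).length →
        w a j i ∈ N a j i ((q.s a).getD i 0))
      (h4 : ∀ a j i, j ∈ p.F a → (p.s a).length ≤ i → i < (q.s a).length → Le N q (w a j i)) :
      Le N q p

variable {N N' : Data Λ J}

theorem Le.intro {q p : Cond Λ J} (h1 : ∀ a, p.s a <+: q.s a) (h2 : ∀ a, p.F a ⊆ q.F a)
    (h3 : ∀ a j i, j ∈ p.F a → (p.s a).length ≤ i → i < (q.s a).length →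
      ∃ r ∈ N a j i ((q.s a).getD i 0), Le N q r) : Le N q p := by
  classical
  choose w hw1 hw2 using h3
  refine Le.mk p h1 h2 (fun a j i => if h : j ∈ p.F a ∧ (p.s a).length ≤ i ∧ i < (q.s a).length
    then w a j i h.1 h.2.1 h.2.2 else top) ?_ ?_
  · intro a j i hj hi hi'
    rw [dif_pos ⟨hj, hi, hi'⟩]; exact hw1 ..
  · intro a j i hj hi hi'
    rw [dif_pos ⟨hj, hi, hi'⟩]; exact hw2 ..

theorem Le.pre {q p : Cond Λ J} (h : Le N q p) (a : Λ) : p.s a <+: q.s a := by
  cases h with
  | mk p h1 => exact h1 a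

theorem Le.sub {q p : Cond Λ J} (h : Le N q p) (a : Λ) : p.F a ⊆ q.F a := by
  cases h with
  | mk p h1 h2 => exact h2 a

theorem Le.wit {q p : Cond Λ J} (h : Le N q p) {a : Λ} {j : J} {i : ℕ} (hj : j ∈ p.F a)
    (hi : (p.s a).length ≤ i) (hi' : i < (q.s a).length) :
    ∃ r ∈ N a j i ((q.s a).getD i 0), Le N q r := by
  cases h with
  | mk p h1 h2 w h3 h4 => exact ⟨_, h3 a j i hj hi hi', h4 a j i hj hi hi'⟩

/-- If at each coordinate the stem is unchanged or there is no side condition, `q ≤ p`. -/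
theorem Le.of_triv {q p : Cond Λ J} (h1 : ∀ a, p.s a <+: q.s a) (h2 : ∀ a, p.F a ⊆ q.F a)
    (h3 : ∀ a, p.s a = q.s a ∨ p.F a = ∅) : Le N q p := by
  refine Le.intro h1 h2 fun a j i hj hi hi' => ?_
  rcases h3 a with h | h
  · rw [h] at hi; omega
  · simp [h] at hj

theorem Le.refl (N : Data Λ J) (p : Cond Λ J) : Le N p p :=
  Le.of_triv (fun _ => List.prefix_rfl) (fun _ => Finset.Subset.refl _) fun _ => Or.inl rfl

theorem Le.top (N : Data Λ J) (p : Cond Λ J) : Le N p top :=
  Le.of_triv (fun _ => List.nil_prefix) (fun _ => Finset.empty_subset _) fun _ => Or.inr rfl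

theorem Le.trans {r q p : Cond Λ J} (h1 : Le N r q) (h2 : Le N q p) : Le N r p := by
  induction h2 with
  | mk p h3 h4 w h5 h6 ih =>
    refine Le.intro (fun a => (h3 a).trans (h1.pre a)) (fun a => (h4 a).trans (h1.sub a))
      fun a j i hj hi hi' => ?_
    by_cases hq : i < (q.s a).length
    · refine ⟨w a j i, ?_, ih a j i hj hi hq⟩
      rw [getD_of_pre (h1.pre a) hq]
      exact h5 a j i hj hi hq
    · exact h1.wit (h4 a hj) (not_lt.1 hq) hi'

/-- `A` is closed: the data at coordinates in `A` only mention conditions supported in `A`. -/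
def Closed (N : Data Λ J) (A : Set Λ) : Prop :=
  ∀ a ∈ A, ∀ j i v, ∀ r ∈ N a j i v, r.In A

theorem closed_univ (N : Data Λ J) : Closed N univ := fun _ _ _ _ _ r _ => r.in_univ

theorem Le.agree {A : Set Λ} (hA : Closed N A) {q q' p : Cond Λ J} (h : Le N q p) (hp : p.In A)
    (hq : ∀ a ∈ A, q'.s a = q.s a ∧ q'.F a = q.F a) (hN : ∀ a ∈ A, N' a = N a) : Le N' q' p := by
  induction h with
  | mk p h3 h4 w h5 h6 ih =>
    refine Le.intro (fun a => ?_) (fun a => ?_) fun a j i hj hi hi' => ?_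
    · by_cases ha : a ∈ A
      · rw [(hq a ha).1]; exact h3 a
      · rw [(hp a ha).1]; exact List.nil_prefix
    · by_cases ha : a ∈ A
      · rw [(hq a ha).2]; exact h4 a
      · rw [(hp a ha).2]; exact Finset.empty_subset _
    · have ha : a ∈ A := by
        by_contra ha
        simp [(hp a ha).2] at hj
      rw [(hq a ha).1] at hi' ⊢
      rw [hN a ha]
      exact ⟨_, h5 a j i hj hi hi', ih a j i hj hi hi' (hA a ha _ _ _ _ (h5 a j i hj hi hi'))⟩

theorem le_res (N : Data Λ J) (A : Set Λ) (p : Cond Λ J) : Le N p (res A p) := by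
  refine Le.of_triv (fun a => ?_) (fun a => ?_) fun a => ?_ <;> by_cases ha : a ∈ A
  · rw [res, glue_s_mem ha]
  · rw [res, glue_s_not ha]; exact List.nil_prefix
  · rw [res, glue_F_mem ha]
  · rw [res, glue_F_not ha]; exact Finset.empty_subset _
  · exact Or.inl (glue_s_mem ha _ _)
  · exact Or.inr (glue_F_not ha _ _)

theorem Le.res_left {A : Set Λ} (hA : Closed N A) {q p : Cond Λ J} (h : Le N q p) (hp : p.In A) :
    Le N (res A q) p :=
  h.agree hA hp (fun _ ha => ⟨glue_s_mem ha _ _, glue_F_mem ha _ _⟩) fun _ _ => rfl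

theorem glue_le_left {A : Set Λ} (hA : Closed N A) {r : Cond Λ J} (hr : r.In A) (p : Cond Λ J) :
    Le N (glue A r p) r :=
  (Le.refl N r).agree hA hr (fun _ ha => ⟨glue_s_mem ha _ _, glue_F_mem ha _ _⟩) fun _ _ => rfl

theorem glue_le_right {A : Set Λ} (hA : Closed N A) {r p : Cond Λ J} (hr : r.In A)
    (h : Le N r (res A p)) : Le N (glue A r p) p := by
  have h1 := (glue_le_left hA hr p).trans h
  refine Le.intro (fun a => ?_) (fun a => ?_) fun a j i hj hi hi' => ?_ <;> by_cases ha : a ∈ A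
  · have := h1.pre a; rwa [res, glue_s_mem ha p] at this
  · rw [glue_s_not ha]
  · have := h1.sub a; rwa [res, glue_F_mem ha p] at this
  · rw [glue_F_not ha]
  · refine h1.wit ?_ ?_ hi'
    · rwa [res, glue_F_mem ha]
    · rwa [res, glue_s_mem ha]
  · rw [glue_s_not ha] at hi'; omega

/-- Changing the entry at a coordinate outside a closed set keeps the extensions of conditions
supported in the closed set. -/
theorem Le.upd_left {A : Set Λ} (hA : Closed N A) {q p : Cond Λ J} (h : Le N q p) (hp : p.In A)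
    {a : Λ} (ha : a ∉ A) (t : List ℕ) (F₀ : Finset J) : Le N (q.upd a t F₀) p :=
  h.agree hA hp (fun b hb => by
    have : b ≠ a := fun h => ha (h ▸ hb)
    exact ⟨upd_s_ne _ this _ _, upd_F_ne _ this _ _⟩) fun _ _ => rfl

/-- Extending the entry at a coordinate `a` that no other coordinate of `p` depends on, after
extending the part of `p` in the closed set `A`. -/
theorem upd_glue_le {A : Set Λ} (hA : Closed N A) {a : Λ} (ha : a ∉ A) {r p : Cond Λ J}
    (hr : r.In A) (h : Le N r (res A p)) {t : List ℕ} {F₀ : Finset J} (h1 : p.s a <+: t)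
    (h2 : p.F a ⊆ F₀)
    (h3 : ∀ j ∈ p.F a, ∀ i, (p.s a).length ≤ i → i < t.length →
      ∃ u ∈ N a j i (t.getD i 0), u.In A ∧ Le N r u) :
    Le N ((glue A r p).upd a t F₀) p := by
  have h4 : Le N ((glue A r p).upd a t F₀) r := (glue_le_left hA hr p).upd_left hA hr ha t F₀
  have h5 := h4.trans h
  refine Le.intro (fun b => ?_) (fun b => ?_) fun b j i hj hi hi' => ?_
  · by_cases hb : b = a
    · subst hb; rwa [upd_s_self]
    · rw [upd_s_ne _ hb]; exact (glue_le_right hA hr h).pre b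
  · by_cases hb : b = a
    · subst hb; rwa [upd_F_self]
    · rw [upd_F_ne _ hb]; exact (glue_le_right hA hr h).sub b
  · by_cases hb : b = a
    · subst hb
      rw [upd_s_self] at hi' ⊢
      obtain ⟨u, hu, -, hu2⟩ := h3 j hj i hi hi'
      exact ⟨u, hu, h4.trans hu2⟩
    · by_cases hbA : b ∈ A
      · refine h5.wit ?_ ?_ hi'
        · rwa [res, glue_F_mem hbA]
        · rwa [res, glue_s_mem hbA]
      · rw [upd_s_ne _ hb, glue_s_not hbA] at hi'; omega

/-- Conditions whose stems agree on the common support are compatible. -/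
theorem exists_le_of_stems (N : Data Λ J) {A : Set Λ} {p q : Cond Λ J} (hp : p.In A) (hq : q.In A)
    (h : ∀ a, a ∈ p.supp → a ∈ q.supp → p.s a = q.s a) :
    ∃ r, r.In A ∧ Le N r p ∧ Le N r q := by
  classical
  refine ⟨⟨fun a => if a ∈ p.supp then p.s a else q.s a, fun a => p.F a ∪ q.F a,
    (p.fin.union q.fin).subset fun a ha => ?_⟩, fun a ha => ?_, ?_, ?_⟩
  · by_contra hc
    have h1 : a ∉ p.supp := fun h => hc (Or.inl h)
    have h2 : a ∉ q.supp := fun h => hc (Or.inr h)
    have h3 := h1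
    simp only [supp, mem_ofPred_eq, not_or, not_not] at h2 h3
    simp [h1, h2.1, h2.2, h3.2] at ha
  · simp [(hp a ha).1, (hp a ha).2, (hq a ha).1, (hq a ha).2]
  · refine Le.of_triv (fun a => ?_) (fun a => Finset.subset_union_left) fun a => ?_
    · by_cases h1 : a ∈ p.supp
      · simp [h1]
      · have h3 := h1
        simp only [supp, mem_ofPred_eq, not_or, not_not] at h3
        simp [h3.1]
    · by_cases h1 : a ∈ p.supp
      · simp [h1]
      · simp only [supp, mem_ofPred_eq, not_or, not_not] at h1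
        exact Or.inr h1.2
  · refine Le.of_triv (fun a => ?_) (fun a => Finset.subset_union_right) fun a => ?_
    · by_cases h2 : a ∈ q.supp
      · by_cases h1 : a ∈ p.supp
        · simp [h1, h a h1 h2]
        · simp [h1]
      · simp only [supp, mem_ofPred_eq, not_or, not_not] at h2
        simp [h2.1]
    · by_cases h2 : a ∈ q.supp
      · by_cases h1 : a ∈ p.supp
        · simp [h1, h a h1 h2]
        · simp [h1]
      · simp only [supp, mem_ofPred_eq, not_or, not_not] at h2
        exact Or.inr h2.2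

/-- A family of finite partial functions into a countable set, any two of which disagree at a
common point, is countable. -/
theorem countable_of_disagree {ι α β : Type} [Countable β] (f : ι → α → β) :
    ∀ (n : ℕ) (D : ι → Finset α) (I : Set ι), (∀ i ∈ I, (D i).card = n) →
      (∀ i ∈ I, ∀ j ∈ I, i ≠ j → ∃ a, a ∈ D i ∧ a ∈ D j ∧ f i a ≠ f j a) → I.Countable := by
  classical
  intro n
  induction n with
  | zero =>
    intro D I h1 h2
    refine Set.Subsingleton.countable fun i hi j hj => ?_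
    by_contra hc
    obtain ⟨a, ha, -⟩ := h2 i hi j hj hc
    rw [Finset.card_eq_zero.1 (h1 i hi)] at ha
    simp at ha
  | succ n ih =>
    intro D I h1 h2
    rcases I.eq_empty_or_nonempty with rfl | ⟨i₀, hi₀⟩
    · exact countable_empty
    have : I ⊆ insert i₀ (⋃ a ∈ (D i₀ : Set α), ⋃ b : β, {i ∈ I | a ∈ D i ∧ f i a = b}) := by
      intro i hi
      by_cases h : i = i₀
      · exact Or.inl h
      · obtain ⟨a, ha, ha', -⟩ := h2 i hi i₀ hi₀ h
        exact Or.inr (mem_biUnion ha' (mem_iUnion.2 ⟨f i a, hi, ha, rfl⟩))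
    refine Countable.mono this (Countable.insert _ ((D i₀).countable_toSet.biUnion fun a _ =>
      countable_iUnion fun b => ih (fun i => (D i).erase a) _ ?_ ?_))
    · rintro i ⟨hi, ha, -⟩
      rw [Finset.card_erase_of_mem ha, h1 i hi]; rfl
    · rintro i ⟨hi, -, hb⟩ j ⟨hj, -, hb'⟩ hij
      obtain ⟨c, hc1, hc2, hc3⟩ := h2 i hi j hj hij
      have : c ≠ a := by rintro rfl; exact hc3 (hb.trans hb'.symm)
      exact ⟨c, Finset.mem_erase.2 ⟨this, hc1⟩, Finset.mem_erase.2 ⟨this, hc2⟩, hc3⟩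

/-- The countable chain condition. -/
theorem countable_antichain (N : Data Λ J) {A : Set Λ} {T : Set (Cond Λ J)}
    (hT : ∀ p ∈ T, p.In A)
    (h : ∀ p ∈ T, ∀ q ∈ T, (∃ r, r.In A ∧ Le N r p ∧ Le N r q) → p = q) : T.Countable := by
  have : T = ⋃ n : ℕ, {p ∈ T | p.supp_finite.toFinset.card = n} := by
    ext p; simp
  rw [this]
  refine countable_iUnion fun n => countable_of_disagree (fun p : Cond Λ J => p.s) n
    (fun p => p.supp_finite.toFinset) _ (fun p hp => hp.2) ?_
  rintro p ⟨hp, -⟩ q ⟨hq, -⟩ hpq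
  by_contra hc
  push Not at hc
  exact hpq (h p hp q hq (exists_le_of_stems N (hT p hp) (hT q hq) fun a h1 h2 =>
    hc a (by simpa using h1) (by simpa using h2)))

/-- Every set of conditions has a countable subset that is predense below each member. -/
theorem exists_countable_predense (N : Data Λ J) {A : Set Λ} (D : Set (Cond Λ J)) :
    ∃ D₀ ⊆ D, D₀.Countable ∧ ∀ d ∈ D, ∀ q, q.In A → Le N q d →
      ∃ r, r.In A ∧ Le N r q ∧ ∃ e ∈ D₀, Le N r e := by
  let S : Set (Set (Cond Λ J)) := {T | (∀ p ∈ T, p.In A ∧ ∃ d ∈ D, Le N p d) ∧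
    ∀ p ∈ T, ∀ q ∈ T, (∃ r, r.In A ∧ Le N r p ∧ Le N r q) → p = q}
  obtain ⟨T, hT⟩ : ∃ T, Maximal (· ∈ S) T := by
    apply zorn_subset
    intro C hC hch
    refine ⟨⋃₀ C, ⟨?_, ?_⟩, fun s hs => subset_sUnion_of_mem hs⟩
    · rintro a ⟨t, ht, ha⟩
      exact (hC ht).1 a ha
    · rintro a ⟨t, ht, ha⟩ b ⟨t', ht', hb⟩ hab
      rcases hch.total ht ht' with h | h
      · exact (hC ht').2 a (h ha) b hb hab
      · exact (hC ht).2 a ha b (h hb) hab
  have hc : T.Countable := countable_antichain N (fun p hp => (hT.prop.1 p hp).1) hT.prop.2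
  choose e he1 he2 using fun p : T => (hT.prop.1 p.1 p.2).2
  have := hc.to_subtype
  refine ⟨range e, by rintro _ ⟨p, rfl⟩; exact he1 p, countable_range e, fun d hd q hq hqd => ?_⟩
  by_contra hcon
  push Not at hcon
  have hmem : insert q T ∈ S := by
    refine ⟨?_, ?_⟩
    · rintro a (rfl | ha)
      · exact ⟨hq, d, hd, hqd⟩
      · exact hT.prop.1 a ha
    · rintro a (rfl | ha) b (rfl | hb) ⟨t, h0, h1, h2⟩
      · rfl
      · exact absurd (h2.trans (he2 ⟨b, hb⟩)) (hcon t h0 h1 _ ⟨_, rfl⟩)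
      · exact absurd (h1.trans (he2 ⟨a, ha⟩)) (hcon t h0 h2 _ ⟨_, rfl⟩)
      · exact hT.prop.2 a ha b hb ⟨t, h0, h1, h2⟩
  have hq' : q ∈ T := hT.le_of_ge hmem (subset_insert _ _) (mem_insert _ _)
  exact hcon q hq (Le.refl N q) _ ⟨⟨q, hq'⟩, rfl⟩ (he2 ⟨q, hq'⟩)

end Pool.Agent.Shared.RealForcing
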