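import Pool.Agent.Shared.RealForcing.Gen
import Pool.Agent.Shared.RealForcing.Reg

/-! Approximations to the iteration, their one-step extensions and unions of chains, and the
preservation of a well-ordered unbounded family. -/

namespace Pool.Agent.Shared.RealForcing

open Set Filter Cond MeasureTheory Cardinal

structure Obj (Λ J : Type) where
  A : Set Λ
  N : Data Λ J
  cl : Closed N A

variable {Λ J : Type}

instance : Preorder (Obj Λ J) where
  le k k' := k.A ⊆ k'.A ∧ ∀ a ∈ k.A, k'.N a = k.N a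
  le_refl _ := ⟨Subset.rfl, fun _ _ => rfl⟩
  le_trans _ _ _ h h' := ⟨h.1.trans h'.1, fun a ha => (h'.2 a (h.1 ha)).trans (h.2 a ha)⟩

instance : Nonempty (Obj Λ J) := ⟨⟨∅, fun _ _ _ _ => ∅, fun _ h => h.elim⟩⟩

namespace Obj

abbrev F (k : Obj Λ J) : Filter (Pt Λ J) := GF k.N k.A

theorem ext {k k' : Obj Λ J} (h : k ≤ k') : Ext k.N k.A k'.N k'.A := ⟨k.cl, h.1, h.2⟩

theorem ev {k k' : Obj Λ J} (h : k ≤ k') {φ : Pt Λ J → Prop} (h1 : ∀ᶠ G in k.F, φ G) :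
    ∀ᶠ G in k'.F, φ G := (ext h).ev h1

open Classical in
noncomputable def step (k : Obj Λ J) (a : Λ) (Z : J → Pt Λ J → ℕ → ℕ → Prop) : Obj Λ J where
  A := insert a k.A
  N b := if b = a then fun j i v => {r | r.In k.A ∧ Fo k.N k.A r fun G => Z j G i v} else k.N b
  cl := by
    intro b hb j i v r hr
    by_cases h : b = a
    · simp only [if_pos h] at hr; exact hr.1.mono (subset_insert _ _)
    · simp only [if_neg h] at hr
      exact (k.cl b (hb.resolve_left h) j i v r hr).mono (subset_insert _ _)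

variable {k : Obj Λ J} {a : Λ} {Z : J → Pt Λ J → ℕ → ℕ → Prop}

theorem le_step (ha : a ∉ k.A) (Z : J → Pt Λ J → ℕ → ℕ → Prop) : k ≤ k.step a Z :=
  ⟨subset_insert _ _, fun b hb => if_neg fun h : b = a => ha (h ▸ hb)⟩

theorem mem_step (j : J) (i v : ℕ) (r : Cond Λ J) :
    r ∈ (k.step a Z).N a j i v ↔ r.In k.A ∧ Fo k.N k.A r fun G => Z j G i v := by
  simp [step]

theorem stepAt (ha : a ∉ k.A) (hZ : ∀ j i v, Ms k.A fun G => Z j G i v)
    (hv : ∀ (F₀ : Finset J) i m, ∀ᶠ G in k.F, ∃ v, m ≤ v ∧ ∀ j ∈ F₀, Z j G i v) :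
    StepAt (k.step a Z).N k.A a (k.step a Z).A Z where
  cl := (ext (le_step ha Z)).cl'
  not_mem := ha
  sub := subset_insert _ _
  mem := mem_insert _ _
  sound j i v r hr := by
    rw [mem_step] at hr
    exact ⟨hr.1, (ext (le_step ha Z)).fo hr.2⟩
  full F₀ i m p hp := by
    obtain ⟨q, hq, h1, v, h2⟩ := Fo.decide_exists (N := k.N)
      (φ := fun v G => m ≤ v ∧ ∀ j : F₀, Z j G i v)
      (fun v => (Ms.const _).and (Ms.all fun j => hZ _ _ _)) hp
      (Fo.of_ev ((hv F₀ i m).mono fun G ⟨v, h1, h2⟩ => ⟨v, h1, fun j => h2 j j.2⟩) _)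
    refine ⟨q, hq, (ext (le_step ha Z)).le_up h1 hp, v, (let ⟨_, h⟩ := h2.ex hq; h.1),
      fun j hj => ⟨q, (mem_step ..).2 ⟨hq, h2.imp fun G hG => hG.2 ⟨j, hj⟩⟩, Le.refl _ _⟩⟩

open Classical in
/-- The union of a chain. -/
noncomputable def uni {I : Type} (c : I → Obj Λ J) : Obj Λ J where
  A := ⋃ i, (c i).A
  N a := if h : ∃ i, a ∈ (c i).A then (c h.choose).N a else fun _ _ _ => ∅
  cl := by
    intro a ha j i v r hr
    have h := mem_iUnion.1 ha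
    simp only [dif_pos h] at hr
    exact ((c _).cl a h.choose_spec j i v r hr).mono (subset_iUnion (fun i => (c i).A) _)

theorem le_uni {I : Type} {c : I → Obj Λ J} (hc : ∀ i j, c i ≤ c j ∨ c j ≤ c i) (i : I) :
    c i ≤ uni c := by
  refine ⟨subset_iUnion (fun i => (c i).A) i, fun a ha => ?_⟩
  have h : ∃ i, a ∈ (c i).A := ⟨i, ha⟩
  simp only [uni, dif_pos h]
  rcases hc i h.choose with h1 | h1
  · exact h1.2 a ha
  · exact (h1.2 a h.choose_spec).symm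

theorem exists_in_of_uni {I : Type} [Nonempty I] {c : I → Obj Λ J}
    (hc : ∀ i j, c i ≤ c j ∨ c j ≤ c i) {p : Cond Λ J} (hp : p.In (uni c).A) :
    ∃ i, p.In (c i).A := by
  have hd : Directed (· ⊆ ·) fun i => (c i).A := fun i j => by
    rcases hc i j with h | h
    · exact ⟨j, h.1, Subset.rfl⟩
    · exact ⟨i, Subset.rfl, h.1⟩
  obtain ⟨i, hi⟩ := hd.exists_mem_subset_of_finset_subset_biUnion (s := p.supp_finite.toFinset)
    (by simpa [uni] using in_iff.1 hp)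
  exact ⟨i, in_iff.2 (by simpa using hi)⟩

end Obj

open Obj

theorem exists_countable_supp_fun {A : Set Λ} {f : Pt Λ J → ℕ → ℕ} (hf : Ms A f) :
    ∃ Z ⊆ A, Z.Countable ∧ Ms Z f := by
  obtain ⟨Z, h1, h2, h3⟩ := exists_countable_supp (A := A)
    (φ := fun (x : ℕ × ℕ) G => f G x.1 = x.2)
    (fun x => by let := Sig J A; exact show Measurable _ by fun_prop)
  refine ⟨Z, h1, h2, ?_⟩
  let := Sig J Z
  exact measurable_pi_lambda _ fun n => measurable_to_countable' fun v => (h3 (n, v)).setOf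

variable {W : Type} [LinearOrder W] [Reg W]

theorem mk_uni_le {I : Type} (hI : #I ≤ #W) {c : I → Obj Λ J} (h : ∀ i, #(c i).A ≤ #W) :
    #(uni c).A ≤ #W :=
  (mk_iUnion_le _).trans ((mul_le_mul' hI (ciSup_le' h)).trans (mul_eq_self Reg.unc.le).le)

theorem mk_step_le {k : Obj Λ J} (h : #k.A ≤ #W) (a : Λ) (Z : J → Pt Λ J → ℕ → ℕ → Prop) :
    #(k.step a Z).A ≤ #W :=
  mk_insert_le.trans ((add_le_add h (one_le_aleph0.trans Reg.unc.le)).trans
    (add_eq_self Reg.unc.le).le)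

/-- A countable subset of the union of a chain of length `W` is contained in a member. -/
theorem exists_sub_of_countable {c : W → Obj Λ J} (hc : ∀ v w, v < w → c v ≤ c w) {Z : Set Λ}
    (hZ : Z.Countable) (h : Z ⊆ (uni c).A) : ∃ w, Z ⊆ (c w).A := by
  have := hZ.to_subtype
  choose v hv using fun z : Z => mem_iUnion.1 (h z.2)
  obtain ⟨w, hw⟩ := Reg.bdd_countable v
  exact ⟨w, fun z hz => (hc _ _ (hw ⟨z, hz⟩)).1 (hv ⟨z, hz⟩)⟩

theorem chain_of_lt {I : Type} [LinearOrder I] {c : I → Obj Λ J} (hc : ∀ v w, v < w → c v ≤ c w)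
    (i j : I) : c i ≤ c j ∨ c j ≤ c i := by
  rcases lt_trichotomy i j with h | rfl | h
  · exact Or.inl (hc _ _ h)
  · exact Or.inl le_rfl
  · exact Or.inr (hc _ _ h)

/-- The family `b` is unbounded in the extension by `k`. -/
def Pres (b : W → Pt Λ W → ℕ → ℕ) (k : Obj Λ W) : Prop :=
  ∀ f : Pt Λ W → ℕ → ℕ, Ms k.A f → ∃ ξ, ∀ᶠ G in k.F, ∃ᶠ n in atTop, f G n < b ξ G n

/-- An initial approximation together with an increasing family of functions. -/
structure Base (Λ W : Type) [LinearOrder W] where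
  k : Obj Λ W
  b : W → Pt Λ W → ℕ → ℕ
  ms : ∀ ξ, Ms k.A (b ξ)
  mono : ∀ ξ η, ξ < η → ∀ᶠ G in k.F, ∀ᶠ n in atTop, b ξ G n ≤ b η G n

variable {B : Base Λ W} {k : Obj Λ W}

theorem Pres.many (h : Pres B.b k) (hk : B.k ≤ k) {I : Type} (hI : #I < #W)
    {f : I → Pt Λ W → ℕ → ℕ} (hf : ∀ i, Ms k.A (f i)) :
    ∃ ξ₀, ∀ ξ, ξ₀ < ξ → ∀ i, ∀ᶠ G in k.F, ∃ᶠ n in atTop, f i G n < B.b ξ G n := by
  choose ξ hξ using fun i => h (f i) (hf i)
  obtain ⟨η, hη⟩ := Reg.bdd hI ξ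
  refine ⟨η, fun ζ hζ i => ?_⟩
  filter_upwards [hξ i, ev hk (B.mono _ _ ((hη i).trans hζ))] with G h1 h2
  exact (h1.and_eventually h2).mono fun n hn => hn.1.trans_le hn.2

theorem Pres.many' (h : Pres B.b k) (hk : B.k ≤ k) {I : Type} (hI : #I < #W)
    {f : I → Pt Λ W → ℕ → ℕ} (hf : ∀ i, Ms k.A (f i)) :
    ∃ ξ, ∀ i, ∀ᶠ G in k.F, ∃ᶠ n in atTop, f i G n < B.b ξ G n := by
  obtain ⟨ξ₀, h1⟩ := h.many hk hI hf
  obtain ⟨ξ, h2⟩ := Reg.exists_gt ξ₀
  exact ⟨ξ, h1 ξ h2⟩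

theorem pres_uni {I : Type} [Nonempty I] {c : I → Obj Λ W} (hc : ∀ i j, c i ≤ c j ∨ c j ≤ c i)
    (h0 : ∀ i, B.k ≤ c i) (h : ∀ i, Pres B.b (c i)) : Pres B.b (uni c) := by
  intro f hf
  obtain ⟨Z, hZ1, hZ2, hZ3⟩ := exists_countable_supp_fun hf
  by_cases hcase : ∃ i, Z ⊆ (c i).A
  · obtain ⟨i, hi⟩ := hcase
    obtain ⟨ξ, hξ⟩ := h i f (hZ3.mono' hi)
    exact ⟨ξ, ev (le_uni hc i) hξ⟩
  have := hZ2.to_subtype
  choose v hv using fun z : Z => mem_iUnion.1 (hZ1 z.2)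
  choose g hg1 hg2 using fun z : Z => (ext (le_uni hc (v z))).exists_interp hf
  choose ξ hξ using fun z : Z => (h (v z)).many (h0 _) (I := Unit) (Reg.countable_lt _)
    (f := fun _ => g z) fun _ => hg1 z
  obtain ⟨η, hη⟩ := Reg.bdd_countable ξ
  refine ⟨η, ?_⟩
  simp only [frequently_atTop]
  refine eventually_countable_forall.2 fun m => ?_
  have hb : Ms (uni c).A (B.b η) := (B.ms η).mono' ((h0 (Classical.arbitrary I)).trans (le_uni hc _)).1
  by_contra hcon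
  obtain ⟨q, hq, -, h1⟩ := Ms.exists_not (N := (uni c).N) (A := (uni c).A)
    (φ := fun G => ∃ n ≥ m, f G n < B.b η G n)
    (by let := Sig W (uni c).A; exact show Measurable _ by fun_prop) (top_in _)
    fun h => hcon (fo_top.1 h)
  obtain ⟨i, hi⟩ := exists_in_of_uni hc hq
  obtain ⟨z, hz, hzi⟩ := not_subset.1 fun h => hcase ⟨i, h⟩
  have h2 : q.In (c (v ⟨z, hz⟩)).A :=
    hi.mono ((hc i (v ⟨z, hz⟩)).resolve_right fun h => hzi (h.1 (hv ⟨z, hz⟩))).1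
  have h3 : Fo _ _ q fun G => ∀ n : {n // m ≤ n}, B.b η G n ≤ g ⟨z, hz⟩ G n :=
    Fo.forall fun n => hg2 ⟨z, hz⟩ (B.b η) ((B.ms η).mono' (h0 _).1) q n h2
      (h1.imp fun G hG => not_lt.1 fun h => hG ⟨n, n.2, h⟩)
  obtain ⟨G, h4, h5⟩ := (h3.and (Fo.of_ev (hξ ⟨z, hz⟩ η (hη _) ()) q)).ex h2
  obtain ⟨n, hn, h6⟩ := frequently_atTop.1 h5 m
  exact absurd h6 (not_lt.2 (h4 ⟨n, hn⟩))

/-- Adding a function that dominates fewer than `#W` functions. -/
theorem exists_hechler (hΛ : #W < #Λ) (hk : #k.A ≤ #W) {I : Type} (hI : #I < #W)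
    {g : I → Pt Λ W → ℕ → ℕ} (hg : ∀ i, Ms k.A (g i)) :
    ∃ k' : Obj Λ W, k ≤ k' ∧ #k'.A ≤ #W ∧ (∀ B : Base Λ W, B.k ≤ k → Pres B.b k → Pres B.b k') ∧
      ∃ d : Pt Λ W → ℕ → ℕ, Ms k'.A d ∧ (∀ i, ∀ᶠ G in k'.F, ∀ᶠ n in atTop, g i G n ≤ d G n) ∧
        ∀ f : Pt Λ W → ℕ → ℕ, Ms k.A f → ∀ᶠ G in k'.F, ∃ᶠ n in atTop, f G n < d G n := by
  classical
  obtain ⟨a, ha⟩ : ∃ a, a ∉ k.A := by
    by_contra hc
    push Not at hc
    rw [eq_univ_of_forall hc, mk_univ] at hk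
    exact absurd hΛ (not_lt.2 hk)
  obtain ⟨e⟩ : Nonempty (I ↪ W) := hI.le
  let gJ : W → Pt Λ W → ℕ → ℕ := Function.extend e g 0
  have hgJ : ∀ j, Ms k.A (gJ j) := by
    intro j
    by_cases h : ∃ i, e i = j
    · obtain ⟨i, rfl⟩ := h
      simp only [gJ, e.injective.extend_apply]; exact hg i
    · simp only [gJ, Function.extend_apply' _ _ _ h]; exact Ms.const _
  let Z : W → Pt Λ W → ℕ → ℕ → Prop := fun j G i v => gJ j G i ≤ v
  have hZ : ∀ j i v, Ms k.A fun G => Z j G i v := fun j i v => by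
    let := Sig W k.A
    have := hgJ j
    exact show Measurable fun G => gJ j G i ≤ v by fun_prop
  have hs := stepAt ha hZ fun F₀ i m => Eventually.of_forall fun G =>
    ⟨max m (F₀.sup fun j => gJ j G i), le_max_left _ _, fun j hj =>
      le_max_of_le_right (Finset.le_sup (f := fun j => gJ j G i) hj)⟩
  refine ⟨k.step a Z, le_step ha Z, mk_step_le hk _ _, fun B hB hP f hf => ?_, gen a,
    ms_gen (mem_insert _ _), fun i => ?_, fun f hf => ?_⟩
  · obtain ⟨E, hE1, hE2, hE3⟩ := (ext (le_step ha Z)).exists_step_interp ha hZ mem_step hf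
    obtain ⟨ξ, hξ⟩ := hP.many' hB (I := List ℕ × List I)
      (Reg.prod_lt (Reg.countable_lt _) (Reg.list_lt hI))
      (f := fun x G n => sInf {v | ∃ t, E t n v G ∧ Allowed Z (x.2.map e).toFinset x.1 t G})
      (fun x => by
        let := Sig W k.A
        exact measurable_pi_lambda _ fun n => measurable_natInf fun v =>
          Measurable.exists fun t => (hE1 t n v).and (ms_allowed hZ _ _ _))
    refine ⟨ξ, hE3 (B.b ξ) ((B.ms ξ).mono' hB.1) fun s F₀ m => ?_⟩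
    let l : List I := (F₀.preimage e e.injective.injOn).toList
    filter_upwards [hξ (s, l), eventually_countable_forall.2 (hE2 s (l.map e).toFinset)]
      with G h1 h2
    obtain ⟨n, hn, h3⟩ := frequently_atTop.1 h1 m
    obtain ⟨t, h4, h5⟩ := Nat.sInf_mem
      (s := {v | ∃ t, E t n v G ∧ Allowed Z (l.map e).toFinset s t G})
      (let ⟨t, v, h⟩ := h2 n; ⟨v, t, h⟩)
    refine ⟨n, t, _, hn, h3, h4, h5.1, fun j hj i hi hi' => ?_⟩
    by_cases h : ∃ i, e i = j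
    · obtain ⟨τ, rfl⟩ := h
      exact h5.2 _ (by simp [l, hj]) i hi hi'
    · simp [Z, gJ, Function.extend_apply' _ _ _ h]
  · simpa [Z, gJ, e.injective.extend_apply] using hs.allowed (e i)
  · simpa using hs.unbounded (Y := fun _ _ => True) (fun _ => Ms.const _)
      (Eventually.of_forall fun _ => Eventually.frequently (Eventually.of_forall fun _ => trivial)) hf

theorem exists_base [WellFoundedLT W] (hΛ : #W < #Λ) :
    ∃ B : Base Λ W, #B.k.A ≤ #W ∧ Pres B.b B.k := by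
  obtain ⟨f, hf⟩ := exists_seq (W := W) (σ := Obj Λ W × (Pt Λ W → ℕ → ℕ))
    (fun w f s => #s.1.A ≤ #W ∧ Ms s.1.A s.2 ∧ ∀ v : Iio w, (f v).1 ≤ s.1 ∧
      (∀ᶠ G in s.1.F, ∀ᶠ n in atTop, (f v).2 G n ≤ s.2 G n) ∧
      ∀ g : Pt Λ W → ℕ → ℕ, Ms (f v).1.A g → ∀ᶠ G in s.1.F, ∃ᶠ n in atTop, g G n < s.2 G n) (by
      intro w f hf
      have hc := chain_of_lt (c := fun v => (f v).1) fun u v huv => ((hf v).2.2 ⟨u.1, huv⟩).1
      obtain ⟨k', h1, h2, -, d, h3, h4, h5⟩ := exists_hechler (k := uni fun v => (f v).1) hΛ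
        (mk_uni_le (Reg.iio w).le fun v => (hf v).1) (Reg.iio w) (g := fun v => (f v).2)
        fun v => (hf v).2.1.mono' (le_uni hc v).1
      exact ⟨(k', d), h2, h3, fun v => ⟨(le_uni hc v).trans h1, h4 v,
        fun g hg => h5 g (hg.mono' (le_uni hc v).1)⟩⟩)
  have hlt : ∀ v w, v < w → (f v).1 ≤ (f w).1 := fun v w h => ((hf w).2.2 ⟨v, h⟩).1
  have hc := chain_of_lt hlt
  refine ⟨⟨uni fun v => (f v).1, fun v => (f v).2, fun v => (hf v).2.1.mono' (le_uni hc v).1,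
    fun v w h => ev (le_uni hc w) ((hf w).2.2 ⟨v, h⟩).2.1⟩, mk_uni_le le_rfl fun v => (hf v).1,
    fun g hg => ?_⟩
  obtain ⟨Z, hZ1, hZ2, hZ3⟩ := exists_countable_supp_fun hg
  obtain ⟨v, hv⟩ := exists_sub_of_countable hlt hZ2 hZ1
  obtain ⟨w, hw⟩ := Reg.exists_gt v
  exact ⟨w, ev (le_uni hc w) (((hf w).2.2 ⟨v, hw⟩).2.2 g (hZ3.mono' hv))⟩

end Pool.Agent.Shared.RealForcing
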