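import Pool.Agent.Lib.MP_2739cb_lc.Ords

/-! The two-valued quotients of the names by all ultrafilters containing the dense open sets
(a version with a parameter of the quotient model of `Lib.MP_2739cb_lc`). -/

namespace Pool.Agent.Shared.RealForcing

open Pool.Agent.Lib.MP_2739cb_lc Nm

universe u v

/-- Ultrafilters on the conditions containing all dense open sets. -/
structure GU (P : Type u) [Preorder P] where
  U : Ultrafilter P
  le : (U : Filter P) ≤ denseFilter P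

variable {P : Type u} [Preorder P] [OrderTop P] {U : GU P}

instance : Nonempty (GU P) := ⟨⟨UF P, Ultrafilter.of_le _⟩⟩

/-- Truth in the quotient model. -/
def TU (U : GU P) (a : RO P) : Prop := {p | a.s p} ∈ U.U

omit [OrderTop P] in
theorem mem_of_dense (U : GU P) {D : Set P} (h1 : ∀ p, ∃ q, q ≤ p ∧ q ∈ D)
    (h2 : ∀ p q, q ≤ p → p ∈ D → q ∈ D) : D ∈ U.U := U.le ⟨D, le_rfl, h1, h2⟩

section

omit [OrderTop P]

theorem TU.of_forall {a : RO P} (h : ∀ p, a.s p) : TU U a := Filter.univ_mem' h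

theorem TU.mono {a b : RO P} (ha : TU U a) (h : ∀ p, a.s p → b.s p) : TU U b :=
  Filter.mem_of_superset ha h

theorem TU.mono₂ {a b c : RO P} (ha : TU U a) (hb : TU U b) (h : ∀ p, a.s p → b.s p → c.s p) : TU U c :=
  Filter.mem_of_superset (Filter.inter_mem ha hb) fun p hp => h p hp.1 hp.2

theorem TU.nonempty {a : RO P} (ha : TU U a) : ∃ p, a.s p :=
  Ultrafilter.nonempty_of_mem ha

theorem TU_bot : ¬ TU U (RO.bot : RO P) := fun h => let ⟨_, h⟩ := h.nonempty; h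

theorem TU_and (a b : RO P) : TU U (RO.and a b) ↔ TU U a ∧ TU U b :=
  ⟨fun h => ⟨h.mono fun _ h => h.1, h.mono fun _ h => h.2⟩,
    fun h => h.1.mono₂ h.2 fun _ h1 h2 => ⟨h1, h2⟩⟩

theorem TU_em (a : RO P) : TU U a ∨ TU U (RO.not a) := by
  have : {p | a.s p} ∪ {p | (RO.not a).s p} ∈ U.U := by
    apply mem_of_dense U
    · exact fun p => RO.decide a p
    · rintro p q hq (h | h)
      · exact Or.inl (RO.mono (a := a) h hq)
      · exact Or.inr (RO.mono (a := RO.not a) h hq)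
  exact Ultrafilter.union_mem_iff.1 this

theorem TU_not (a : RO P) : TU U (RO.not a) ↔ ¬ TU U a := by
  constructor
  · intro h ha
    exact TU_bot (h.mono₂ ha fun p h1 h2 => h1 p le_rfl h2)
  · exact fun h => (TU_em a).resolve_left h

theorem TU_imp (a b : RO P) : TU U (RO.imp a b) ↔ (TU U a → TU U b) := by
  constructor
  · intro h ha
    exact h.mono₂ ha fun p h1 h2 => h1 p le_rfl h2
  · intro h
    rcases TU_em a with ha | ha
    · exact (h ha).mono fun p hp q hq _ => RO.mono hp hq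
    · exact ha.mono fun p hp q hq h1 => absurd h1 (hp q hq)

theorem TU_iff (a b : RO P) : TU U (RO.iff a b) ↔ (TU U a ↔ TU U b) := by
  rw [RO.iff, TU_and, TU_imp, TU_imp]; exact iff_iff_implies_and_implies.symm

theorem TU_or (a b : RO P) : TU U (RO.or a b) ↔ TU U a ∨ TU U b := by
  constructor
  · intro h
    by_contra hc
    push Not at hc
    have h1 := (TU_not a).2 hc.1
    have h2 := (TU_not b).2 hc.2
    obtain ⟨p, hp, hp1, hp2⟩ := ((TU_and _ _).2 ⟨h, (TU_and _ _).2 ⟨h1, h2⟩⟩).nonempty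
    obtain ⟨r, hr, h3 | h3⟩ := hp p le_rfl
    · exact hp1 r hr h3
    · exact hp2 r hr h3
  · rintro (h | h)
    · exact h.mono fun _ => RO.or_inl
    · exact h.mono fun _ => RO.or_inr

theorem TU_ex_nm (Φ : Nm P → RO P) [Ext Φ] : TU U (RO.ex Φ) ↔ ∃ x, TU U (Φ x) := by
  constructor
  · intro h
    obtain ⟨x, hx⟩ := max_principle Φ
    exact ⟨x, h.mono hx⟩
  · rintro ⟨x, hx⟩
    exact hx.mono fun _ => RO.ex_intro x

theorem TU_all_nm (Φ : Nm P → RO P) [Ext Φ] : TU U (RO.all Φ) ↔ ∀ x, TU U (Φ x) := by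
  constructor
  · exact fun h x => h.mono fun _ hp => hp x
  · intro h
    by_contra hc
    have h1 := (TU_not _).2 hc
    have h2 : TU U (RO.ex fun x => RO.not (Φ x)) := by
      refine h1.mono fun p hp q hq => ?_
      have := hp q hq
      rw [RO.all_s, not_forall] at this
      obtain ⟨x, hx⟩ := this
      obtain ⟨r, hr, h3⟩ := RO.exists_not hx
      exact ⟨r, hr, x, h3⟩
    obtain ⟨x, hx⟩ := (TU_ex_nm _).1 h2
    exact (TU_not _).1 hx (h x)

def nmSetoidU (U : GU P) : Setoid (Nm P) where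
  r x y := TU U (RO.eq x y)
  iseqv := ⟨fun x => TU.of_forall (FEq.refl x), fun h => h.mono fun _ => FEq.symm,
    fun h1 h2 => h1.mono₂ h2 fun _ => FEq.trans⟩

/-- The quotient model. -/
def MU (U : GU P) : Type (u + 1) := Quotient (nmSetoidU U)

def cl (U : GU P) (x : Nm P) : MU U := Quotient.mk (nmSetoidU U) x

noncomputable def rp (z : MU U) : Nm P := Quotient.out z

theorem cl_rep (z : MU U) : cl U (rp z) = z := Quotient.out_eq z

theorem cl_surj (z : MU U) : ∃ x, z = cl U x := ⟨rp z, (cl_rep z).symm⟩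

def El (U : GU P) (a b : MU U) : Prop := TU U (RO.mem (rp a) (rp b))

theorem TU_eq (x y : Nm P) : TU U (RO.eq x y) ↔ cl U x = cl U y :=
  (Quotient.eq (r := nmSetoidU U)).symm

theorem TU_subst (Φ : Nm P → RO P) [Ext Φ] {x y : Nm P} (e : cl U x = cl U y) (h : TU U (Φ x)) :
    TU U (Φ y) :=
  ((TU_eq x y).2 e).mono₂ h fun _ e h => Ext.subst Φ e h

theorem TU_mem (x y : Nm P) : TU U (RO.mem x y) ↔ El U (cl U x) (cl U y) := by
  unfold El
  constructor
  · intro h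
    exact TU_subst (fun x => RO.mem x _) (cl_rep _).symm
      (TU_subst (fun y => RO.mem x y) (cl_rep _).symm h)
  · intro h
    exact TU_subst (fun x => RO.mem x _) (cl_rep _)
      (TU_subst (fun y => RO.mem _ y) (cl_rep _) h)

theorem TU_all (Φ : Nm P → RO P) [Ext Φ] : TU U (RO.all Φ) ↔ ∀ z : MU U, TU U (Φ (rp z)) := by
  rw [TU_all_nm]
  exact ⟨fun h z => h _, fun h x => TU_subst Φ (cl_rep _) (h (cl U x))⟩

theorem TU_ex (Φ : Nm P → RO P) [Ext Φ] : TU U (RO.ex Φ) ↔ ∃ z : MU U, TU U (Φ (rp z)) := by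
  rw [TU_ex_nm]
  exact ⟨fun ⟨x, h⟩ => ⟨cl U x, TU_subst Φ (cl_rep _).symm h⟩, fun ⟨z, h⟩ => ⟨_, h⟩⟩

theorem TU_force (φ : Fml) : ∀ v : ℕ → Nm P, TU U (force φ v) ↔ Sat (El U) φ (fun i => cl U (v i)) := by
  induction φ with
  | mem i j => exact fun v => TU_mem _ _
  | eq i j => exact fun v => TU_eq _ _
  | bot => exact fun v => ⟨TU_bot, False.elim⟩
  | imp φ ψ ih1 ih2 =>
    intro v
    rw [force, TU_imp, ih1, ih2]; rfl
  | all φ ih =>
    intro v
    rw [force, TU_all]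
    refine forall_congr' fun z => ?_
    rw [ih]
    have : (fun i => cl U (push (rp z) v i)) = push z fun i => cl U (v i) := by
      funext i; cases i
      · exact cl_rep z
      · rfl
    rw [this]

theorem TU_force₁ (φ : Fml) (v : ℕ → MU U) (x : Nm P) :
    TU U (force φ (push x fun i => rp (v i))) ↔ Sat (El U) φ (push (cl U x) v) := by
  rw [TU_force]
  have : (fun i => cl U (push x (fun i => rp (v i)) i)) = push (cl U x) v := by
    funext i; cases i
    · rfl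
    · exact cl_rep _
  rw [this]

theorem TU_force₂ (φ : Fml) (v : ℕ → MU U) (x y : Nm P) :
    TU U (force φ (push y (push x fun i => rp (v i)))) ↔
      Sat (El U) φ (push (cl U y) (push (cl U x) v)) := by
  rw [TU_force]
  have : (fun i => cl U (push y (push x (fun i => rp (v i))) i)) =
      push (cl U y) (push (cl U x) v) := by
    funext i; rcases i with _ | _ | i
    · rfl
    · rfl
    · exact cl_rep _
  rw [this]

end

omit [OrderTop P] in
theorem MU_sep (Φ : Nm P → RO P) [Ext Φ] (x : MU U) :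
    ∃ w : MU U, ∀ z, El U z w ↔ El U z x ∧ TU U (Φ (rp z)) := by
  refine ⟨cl U (sepNm Φ (rp x)), fun z => ?_⟩
  have h1 : El U z (cl U (sepNm Φ (rp x))) ↔ TU U (RO.mem (rp z) (sepNm Φ (rp x))) := by
    rw [TU_mem, cl_rep]
  rw [h1, El, ← TU_and]
  exact ⟨fun h => h.mono fun p hp => (fmem_sepNm Φ _ _ p).1 hp,
    fun h => h.mono fun p hp => (fmem_sepNm Φ _ _ p).2 hp⟩

theorem MU_collect (Φ : Nm P → Nm P → RO P) [∀ y, Ext fun x => Φ x y] [∀ x, Ext (Φ x)]
    (x : MU U) : ∃ w : MU U, ∀ a, El U a x → (∃ b : MU U, TU U (Φ (rp a) (rp b))) →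
      ∃ b, El U b w ∧ TU U (Φ (rp a) (rp b)) := by
  choose f hf using fun i : (rp x).ι => max_principle (Φ ((rp x).A i))
  let w : Nm P := Nm.mk (rp x).ι f fun _ => ⊤
  refine ⟨cl U w, fun a ha hb => ?_⟩
  have h1 : TU U (RO.ex (Φ (rp a))) := (TU_ex _).2 hb
  have h2 : TU U (RO.ex fun b => RO.and (RO.mem b w) (Φ (rp a) b)) := by
    refine TU.mono₂ ha h1 fun p hp1 hp2 q hq => ?_
    obtain ⟨r, hr, i, hi, h3⟩ := hp1 q hq
    have h4 : (RO.ex (Φ ((rp x).A i))).s r :=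
      Ext.subst (fun t => RO.ex (Φ t)) h3 (RO.mono hp2 (hr.trans hq))
    exact ⟨r, hr, f i, FMem.of_le (y := w) i le_top,
      Ext.subst (fun t => Φ t (f i)) h3.symm (hf i r h4)⟩
  obtain ⟨b, hb⟩ := (TU_ex _).1 h2
  rw [TU_and, TU_mem, cl_rep] at hb
  exact ⟨b, hb⟩

omit [OrderTop P] in
theorem MU_ext (x y : MU U) (h : ∀ z, El U z x ↔ El U z y) : x = y := by
  have h1 : TU U (RO.all fun z => RO.iff (RO.mem z (rp x)) (RO.mem z (rp y))) := by
    rw [TU_all]; intro z; rw [TU_iff]; exact h z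
  have h2 : TU U (RO.eq (rp x) (rp y)) :=
    h1.mono fun p hp => FEq.ext fun z q hq => (RO.iff_s _ _ _).1 (hp z) q hq
  rwa [TU_eq, cl_rep, cl_rep] at h2

omit [OrderTop P] in
theorem MU_found (x : MU U) (h : ∃ y, El U y x) : ∃ y, El U y x ∧ ∀ z, El U z y → ¬ El U z x := by
  have h1 : TU U (RO.ex fun y => RO.mem y (rp x)) := (TU_ex _).2 h
  have h2 : TU U (RO.ex fun y => RO.and (RO.mem y (rp x))
      (RO.all fun z => RO.imp (RO.mem z y) (RO.not (RO.mem z (rp x))))) := by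
    refine h1.mono fun p hp => RO.by_contra fun q hq hn => ?_
    have key : ∀ y : Nm P, ∀ r, r ≤ q → ¬ FMem y (rp x) r := by
      intro y
      induction y using Nm.ind with
      | h y ih =>
        intro r hr hy
        refine hn r hr (RO.ex_intro y ⟨hy, fun z t ht hz t' ht' hz' => ?_⟩)
        obtain ⟨s, hs, j, -, hj⟩ := hz t' ht'
        exact ih j s (hs.trans (ht'.trans (ht.trans hr))) ((FMem.mono hz' hs).subst_left hj)
    obtain ⟨r, hr, y, hy⟩ := hp q hq
    exact key y r hr hy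
  simpa only [TU_ex, TU_and, TU_all, TU_imp, TU_not, TU_mem, cl_rep] using h2

theorem MU_pair (x y : MU U) : ∃ w, ∀ z, El U z w ↔ z = x ∨ z = y := by
  refine ⟨cl U (pairNm (rp x) (rp y)), fun z => ?_⟩
  have : TU U (RO.iff (RO.mem (rp z) (pairNm (rp x) (rp y)))
      (RO.or (RO.eq (rp z) (rp x)) (RO.eq (rp z) (rp y)))) := by
    refine TU.of_forall fun p => (RO.iff_s _ _ _).2 fun q _ => ⟨fun h r hr => ?_, fun h r hr => ?_⟩
    · obtain ⟨t, ht, ⟨_ | _⟩, -, h1⟩ := h r hr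
      · exact ⟨t, ht, Or.inr h1⟩
      · exact ⟨t, ht, Or.inl h1⟩
    · obtain ⟨t, ht, h1 | h1⟩ := h r hr
      · exact ⟨t, ht, ⟨true⟩, le_top, h1⟩
      · exact ⟨t, ht, ⟨false⟩, le_top, h1⟩
  simpa only [TU_iff, TU_or, TU_eq, TU_mem, cl_rep] using this

theorem MU_union (x : MU U) : ∃ w, ∀ z, El U z w ↔ ∃ y, El U y x ∧ El U z y := by
  obtain ⟨w, hw⟩ := MU_sep (fun z => RO.ex fun y => RO.and (RO.mem y (rp x)) (RO.mem z y))
    (cl U (unionNm (rp x)))
  refine ⟨w, fun z => ?_⟩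
  rw [hw]
  simp only [TU_ex, TU_and, TU_mem, cl_rep]
  refine ⟨fun h => h.2, fun h => ⟨?_, h⟩⟩
  obtain ⟨y, h1, h2⟩ := h
  rw [← cl_rep z, ← TU_mem]
  refine TU.mono₂ h1 h2 fun p hp1 hp2 q hq => ?_
  obtain ⟨r, hr, t, ht⟩ := fmem_unionNm hp1 hp2 q hq
  exact ⟨r, hr, t, le_top, ht⟩

theorem MU_power (x : MU U) : ∃ w, ∀ z, El U z w ↔ ∀ t, El U t z → El U t x := by
  obtain ⟨w, hw⟩ := MU_sep (fun z => RO.all fun t => RO.imp (RO.mem t z) (RO.mem t (rp x)))
    (cl U (powNm (rp x)))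
  refine ⟨w, fun z => ?_⟩
  rw [hw]
  have h0 : TU U (RO.all fun t => RO.imp (RO.mem t (rp z)) (RO.mem t (rp x))) ↔
      ∀ t, El U t z → El U t x := by
    simp only [TU_all, TU_imp, TU_mem, cl_rep]
  rw [h0]
  refine ⟨fun h => h.2, fun h => ⟨?_, h⟩⟩
  rw [← cl_rep z, ← TU_mem]
  refine (h0.2 h).mono fun p hp q hq => ?_
  refine ⟨q, le_rfl, {t | FMem ((rp x).A t.1) (rp z) t.2}, le_top, FEq.ext fun t r hr => ?_⟩
  constructor
  · intro ht s hs
    obtain ⟨s', hs', i, -, hi⟩ := hp t s (hs.trans (hr.trans hq)) (ht.mono hs) s le_rfl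
    exact ⟨s', hs', ⟨(i, s'), (ht.mono (hs'.trans hs)).subst_left hi⟩, le_rfl, hi⟩
  · intro ht
    apply FMem.reg
    intro s hs
    obtain ⟨s', hs', ⟨⟨i, r'⟩, hi⟩, h1, h2⟩ := ht s hs
    exact ⟨s', hs', (FMem.mono hi h1).subst_left h2.symm⟩

theorem MU_inf : ∃ w : MU U, (∃ e, El U e w ∧ ∀ z, ¬ El U z e) ∧
    ∀ y, El U y w → ∃ s, El U s w ∧ ∀ z, El U z s ↔ El U z y ∨ z = y := by
  refine ⟨cl U omegaNm, ⟨cl U emptyNm, ?_, fun z => ?_⟩, fun y hy => ?_⟩
  · rw [← TU_mem]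
    exact TU.of_forall fun p => FMem.of_le (y := omegaNm) ⟨0⟩ le_top
  · rw [← cl_rep z, ← TU_mem, ← TU_not]
    exact TU.of_forall fun p q _ => not_fmem_emptyNm _ _
  · refine ⟨cl U (succNm (rp y)), ?_, fun z => ?_⟩
    · rw [← cl_rep y, ← TU_mem] at hy
      rw [← TU_mem]
      refine hy.mono fun p hp q hq => ?_
      obtain ⟨r, hr, n, -, hn⟩ := hp q hq
      refine ⟨r, hr, ⟨n.down + 1⟩, le_top, FEq.ext fun z t ht => ?_⟩
      change _ ↔ FMem z (succNm (natNm n.down)) t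
      rw [fmem_succNm, fmem_succNm]
      exact ⟨Ext.subst (fun y => RO.or (RO.mem z y) (RO.eq z y)) (hn.mono ht),
        Ext.subst (fun y => RO.or (RO.mem z y) (RO.eq z y)) (hn.mono ht).symm⟩
    · have : TU U (RO.iff (RO.mem (rp z) (succNm (rp y)))
          (RO.or (RO.mem (rp z) (rp y)) (RO.eq (rp z) (rp y)))) :=
        TU.of_forall fun p => (RO.iff_s _ _ _).2 fun q _ => fmem_succNm _ _ _
      simpa only [TU_iff, TU_or, TU_eq, TU_mem, cl_rep] using this

theorem MU_choice (x : MU U) (h1 : ∀ y, El U y x → ∃ z, El U z y)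
    (h2 : ∀ y y', El U y x → El U y' x → (∃ z, El U z y ∧ El U z y') → y = y') :
    ∃ c, ∀ y, El U y x → ∃! z, El U z y ∧ El U z c := by
  classical
  let X := rp x
  let N := unionNm X
  obtain ⟨_, _⟩ := exists_wellFoundedLT N.ι
  let Φ : Nm P → RO P := fun z => RO.ex fun j : N.ι => RO.and (RO.eq z (N.A j))
    (RO.ex fun y => RO.and (RO.mem y X) (RO.and (RO.mem (N.A j) y)
      (RO.all fun j' : {j' // j' < j} => RO.not (RO.mem (N.A j'.1) y))))
  let C := sepNm Φ N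
  have H1 : TU U (RO.all fun y => RO.imp (RO.mem y X) (RO.ex fun z => RO.mem z y)) := by
    simpa only [TU_all, TU_imp, TU_ex, TU_mem, cl_rep, X] using h1
  have H2 : TU U (RO.all fun y => RO.all fun y' => RO.imp (RO.mem y X) (RO.imp (RO.mem y' X)
      (RO.imp (RO.ex fun z => RO.and (RO.mem z y) (RO.mem z y')) (RO.eq y y')))) := by
    simpa only [TU_all, TU_imp, TU_ex, TU_and, TU_mem, TU_eq, cl_rep, X] using h2
  have H3 : TU U (RO.all fun y => RO.imp (RO.mem y X) (RO.ex fun z =>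
      RO.and (RO.and (RO.mem z y) (RO.mem z C))
        (RO.all fun z' => RO.imp (RO.and (RO.mem z' y) (RO.mem z' C)) (RO.eq z' z)))) := by
    refine TU.mono₂ H1 H2 fun p hp1 hp2 y q hq hy r hr => ?_
    have hne : ∃ j : N.ι, ∃ t, t ≤ r ∧ FMem (N.A j) y t := by
      obtain ⟨t, ht, z, hz⟩ := hp1 y q hq hy r hr
      obtain ⟨t', ht', j, hj⟩ := fmem_unionNm (FMem.mono hy (ht.trans hr)) hz t le_rfl
      exact ⟨j, t', ht'.trans ht, (FMem.mono hz ht').subst_left hj⟩
    obtain ⟨j, ⟨t, ht, hj⟩, hmin⟩ := WellFounded.has_min wellFounded_lt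
      {j : N.ι | ∃ t, t ≤ r ∧ FMem (N.A j) y t} hne
    have hyt : FMem y X t := FMem.mono hy (ht.trans hr)
    refine ⟨t, ht, N.A j, ⟨hj, ?_⟩, fun z' s hs hz' => ?_⟩
    · refine (fmem_sepNm Φ N _ t).2 ⟨FMem.of_le j le_top, RO.ex_intro j ⟨FEq.refl _ _,
        RO.ex_intro y ⟨hyt, hj, fun j' s hs h => hmin j'.1 ⟨s, hs.trans ht, h⟩ j'.2⟩⟩⟩
    · apply FEq.reg
      intro s1 hs1
      obtain ⟨s2, hs2, j1, e1, h4⟩ := ((fmem_sepNm Φ N _ s).1 hz'.2).2 s1 hs1
      obtain ⟨s3, hs3, y1, h5, h6, h7⟩ := h4 s2 le_rfl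
      have hs3s : s3 ≤ s := hs3.trans (hs2.trans hs1)
      have hs3t : s3 ≤ t := hs3s.trans hs
      have h8 : FMem (N.A j1) y s3 := (FMem.mono hz'.1 hs3s).subst_left (FEq.mono e1 hs3)
      have h9 : FEq y y1 s3 := hp2 y y1 s3 (hs3t.trans (ht.trans (hr.trans hq))) (hyt.mono hs3t)
        s3 le_rfl h5 s3 le_rfl (RO.ex_intro (N.A j1) ⟨h8, h6⟩)
      have hjj : j1 = j := by
        rcases lt_trichotomy j1 j with h | h | h
        · exact absurd h (hmin j1 ⟨s3, hs3t.trans ht, h8⟩)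
        · exact h
        · exact absurd ((hj.mono hs3t).subst_right h9) (h7 ⟨j, h⟩ s3 le_rfl)
      subst hjj
      exact ⟨s3, hs3.trans hs2, FEq.mono e1 hs3⟩
  refine ⟨cl U C, ?_⟩
  simpa only [TU_all, TU_imp, TU_ex, TU_and, TU_mem, TU_eq, cl_rep, X, ExistsUnique] using H3

theorem MU_zfc : IsZFC (El U) where
  extensionality := MU_ext
  foundation := MU_found
  pairing := MU_pair
  union := MU_union
  powerset := MU_power
  infinity := MU_inf
  separation φ v x := by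
    obtain ⟨w, hw⟩ := MU_sep (fun z => force φ (push z fun i => rp (v i))) x
    refine ⟨w, fun z => ?_⟩
    rw [hw, TU_force₁, cl_rep]
  replacement φ v x h := by
    obtain ⟨w, hw⟩ := MU_collect (fun a b => force φ (push b (push a fun i => rp (v i)))) x
    obtain ⟨w', hw'⟩ := MU_sep (fun b => RO.ex fun a => RO.and (RO.mem a (rp x))
      (force φ (push b (push a fun i => rp (v i))))) w
    refine ⟨w', fun b => ?_⟩
    rw [hw']
    simp only [TU_ex, TU_and, TU_mem, TU_force₂, cl_rep] at hw ⊢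
    refine ⟨fun h => h.2, fun h1 => ⟨?_, h1⟩⟩
    obtain ⟨a, ha, hb⟩ := h1
    obtain ⟨b', hb1, hb2⟩ := hw a ha ⟨b, hb⟩
    rwa [(h a ha).unique hb hb2]
  choice := MU_choice

attribute [irreducible] El cl

end Pool.Agent.Shared.RealForcing
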