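import Pool.Agent.Shared.RealForcing.Meas

/-! Sets covered by finitely many pieces each omitting a family of finite sets: compactness and
measurable choice of the pieces. -/

namespace Pool.Agent.Shared.RealForcing

open Set Filter MeasureTheory

variable {ι : Type}

/-- `C` contains no member of `y`. -/
def Avoid (y : Set (Finset ℕ)) (C : Set ℕ) : Prop := ∀ u ∈ y, ¬ (↑u ⊆ C)

/-- `A` is covered by pieces `C i` with `C i` containing no member of `ys i`. -/
def Small (ys : ι → Set (Finset ℕ)) (A : Set ℕ) : Prop :=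
  ∃ C : ι → Set ℕ, A ⊆ ⋃ i, C i ∧ ∀ i, Avoid (ys i) (C i)

theorem Avoid.mono {y y' : Set (Finset ℕ)} {C C' : Set ℕ} (h : Avoid y C) (h1 : y' ⊆ y)
    (h2 : C' ⊆ C) : Avoid y' C' := fun u hu hc => h u (h1 hu) (hc.trans h2)

theorem Small.mono {ys ys' : ι → Set (Finset ℕ)} {A A' : Set ℕ} (h : Small ys A)
    (h1 : ∀ i, ys' i ⊆ ys i) (h2 : A' ⊆ A) : Small ys' A' :=
  let ⟨C, h3, h4⟩ := h; ⟨C, h2.trans h3, fun i => (h4 i).mono (h1 i) Subset.rfl⟩

/-- Reindexing along an injection of the pieces. -/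
theorem Small.of_equiv {ι' : Type} (e : ι' ≃ ι) {ys : ι → Set (Finset ℕ)} {A : Set ℕ}
    (h : Small (fun i => ys (e i)) A) : Small ys A := by
  obtain ⟨C, h1, h2⟩ := h
  refine ⟨fun i => C (e.symm i), fun x hx => ?_, fun i => by simpa using h2 (e.symm i)⟩
  obtain ⟨i, hi⟩ := mem_iUnion.1 (h1 hx)
  exact mem_iUnion.2 ⟨e i, by simpa using hi⟩

theorem Small.comp_equiv {ι' : Type} (e : ι' ≃ ι) {ys : ι → Set (Finset ℕ)} {A : Set ℕ}
    (h : Small ys A) : Small (fun i => ys (e i)) A :=
  Small.of_equiv e.symm (by simpa using h)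

theorem Small.sum {ι' : Type} {ys : ι → Set (Finset ℕ)} {ys' : ι' → Set (Finset ℕ)} {A A' : Set ℕ}
    (h : Small ys A) (h' : Small ys' A') : Small (Sum.elim ys ys') (A ∪ A') := by
  obtain ⟨C, h1, h2⟩ := h
  obtain ⟨C', h1', h2'⟩ := h'
  refine ⟨Sum.elim C C', ?_, by rintro (i | i); exacts [h2 i, h2' i]⟩
  rintro x (hx | hx)
  · obtain ⟨i, hi⟩ := mem_iUnion.1 (h1 hx); exact mem_iUnion.2 ⟨Sum.inl i, hi⟩
  · obtain ⟨i, hi⟩ := mem_iUnion.1 (h1' hx); exact mem_iUnion.2 ⟨Sum.inr i, hi⟩

def Good (ys : ι → Set (Finset ℕ)) (A : Set ℕ) (l : List (Option ι)) : Prop :=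
  (∀ x, x < l.length → x ∈ A → l.getD x none ≠ none) ∧
    ∀ i u, u ∈ ys i → ¬ ∀ x, x ∈ u → l.getD x none = some i

theorem getD_pre {α : Type} {s t : List α} (h : s <+: t) {i : ℕ} (hi : i < s.length) (d : α) :
    t.getD i d = s.getD i d := by
  obtain ⟨u, rfl⟩ := h
  simp [List.getD_eq_getElem?_getD, List.getElem?_append_left hi]

theorem lt_length_of_getD {l : List (Option ι)} {x : ℕ} {i : ι} (h : l.getD x none = some i) :
    x < l.length := by
  by_contra hc
  rw [List.getD_eq_default _ _ (not_lt.1 hc)] at h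
  exact absurd h (by simp)

theorem Good.pre {ys : ι → Set (Finset ℕ)} {A : Set ℕ} {l σ : List (Option ι)} (h : Good ys A l)
    (hσ : σ <+: l) : Good ys A σ :=
  ⟨fun x hx hA => getD_pre hσ hx none ▸ h.1 x (hx.trans_le hσ.length_le) hA,
    fun i u hu hc => h.2 i u hu fun x hx =>
      (getD_pre hσ (lt_length_of_getD (hc x hx)) none).trans (hc x hx)⟩

theorem Good.mono {ys ys' : ι → Set (Finset ℕ)} {A A' : Set ℕ} {l : List (Option ι)}
    (h : Good ys A l) (h1 : ∀ i, ys' i ⊆ ys i) (h2 : A' ⊆ A) : Good ys' A' l :=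
  ⟨fun x hx hA => h.1 x hx (h2 hA), fun i u hu => h.2 i u (h1 i hu)⟩

theorem Small.good {ys : ι → Set (Finset ℕ)} {A : Set ℕ} (h : Small ys A) (M : ℕ) :
    ∃ l, l.length = M ∧ Good ys A l := by
  classical
  obtain ⟨C, h1, h2⟩ := h
  let c : ℕ → Option ι := fun x => if h : ∃ i, x ∈ C i then some h.choose else none
  have hc : ∀ x, x < M → ((List.range M).map c).getD x none = c x := by
    intro x hx
    simp [List.getD_eq_getElem?_getD, hx]
  refine ⟨(List.range M).map c, by simp, fun x hx hA => ?_, fun i u hu h3 => h2 i u hu fun x hx => ?_⟩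
  · rw [hc x (by simpa using hx)]
    simp [c, mem_iUnion.1 (h1 hA)]
  · have h4 := h3 x hx
    rw [hc x (by simpa using lt_length_of_getD h4)] at h4
    by_cases h5 : ∃ i, x ∈ C i
    · simp only [c, dif_pos h5, Option.some.injEq] at h4
      exact h4 ▸ h5.choose_spec
    · simp [c, h5] at h4

variable [Finite ι] {X : Type} [MeasurableSpace X]

theorem measurable_good {ys : X → ι → Set (Finset ℕ)} {A : X → Set ℕ}
    (hys : ∀ i u, Measurable fun G => u ∈ ys G i) (hA : ∀ x, Measurable fun G => x ∈ A G)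
    (l : List (Option ι)) : Measurable fun G => Good (ys G) (A G) l := by
  unfold Good
  fun_prop

theorem exists_select {ys : X → ι → Set (Finset ℕ)} {A : X → Set ℕ}
    (hys : ∀ i u, Measurable fun G => u ∈ ys G i) (hA : ∀ x, Measurable fun G => x ∈ A G) :
    ∃ C : X → ι → Set ℕ, (∀ i x, Measurable fun G => x ∈ C G i) ∧
      ∀ G, (∀ M, ∃ l, l.length = M ∧ Good (ys G) (A G) l) →
        A G ⊆ ⋃ i, C G i ∧ ∀ i, Avoid (ys G i) (C G i) := by
  let T : X → List (Option ι) → Prop := fun G σ =>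
    ∀ M, ∃ l, σ <+: l ∧ M ≤ l.length ∧ Good (ys G) (A G) l
  have hT : ∀ σ, Measurable fun G => T G σ := fun σ =>
    Measurable.forall fun M => Measurable.exists fun l =>
      measurable_const.and (measurable_const.and (measurable_good hys hA l))
  have hstep : ∀ G σ, T G σ → ∃ o, T G (σ ++ [o]) := by
    intro G σ h
    by_contra hc
    simp only [T, not_exists, not_forall] at hc
    choose M hM using hc
    obtain ⟨B, hB⟩ := (finite_range M).bddAbove
    obtain ⟨l, ⟨r, rfl⟩, h2, h3⟩ := h (max B (σ.length + 1))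
    cases r with
    | nil => simp at h2
    | cons o r =>
      exact hM o _ ⟨⟨r, by simp⟩, (hB ⟨o, rfl⟩).trans ((le_max_left _ _).trans h2), h3⟩
  obtain ⟨d, hd⟩ := exists_surjective_nat (Option ι)
  let br : X → ℕ → List (Option ι) := fun G n =>
    Nat.rec [] (fun _ σ => σ ++ [d (sInf {k | T G (σ ++ [d k])})]) n
  have hbr : ∀ G n, br G (n + 1) = br G n ++ [d (sInf {k | T G (br G n ++ [d k])})] :=
    fun _ _ => rfl
  have hm : ∀ n σ, Measurable fun G => br G n = σ := by
    intro n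
    induction n with
    | zero => exact fun σ => measurable_const (a := ([] = σ))
    | succ n ih =>
      intro τ
      have : (fun G => br G (n + 1) = τ) = fun G => ∃ σ k, br G n = σ ∧
          sInf {k | T G (σ ++ [d k])} = k ∧ σ ++ [d k] = τ := by
        funext G; simp [hbr]
      rw [this]
      exact Measurable.exists fun σ => Measurable.exists fun k => (ih σ).and
        (((measurable_natInf fun k => hT _).eq_const k).and measurable_const)
  have hlen : ∀ G n, (br G n).length = n := by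
    intro G n
    induction n with
    | zero => rfl
    | succ n ih => simp [hbr, ih]
  have hpre : ∀ G n m, n ≤ m → br G n <+: br G m := by
    intro G n m h
    induction h with
    | refl => exact List.prefix_rfl
    | step _ ih => exact ih.trans (List.prefix_append _ _)
  refine ⟨fun G i => {x | (br G (x + 1)).getD x none = some i}, fun i x => ?_, fun G hG => ?_⟩
  · have : (fun G => x ∈ {x | (br G (x + 1)).getD x none = some i}) =
        fun G => ∃ σ, br G (x + 1) = σ ∧ σ.getD x none = some i := by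
      funext G; simp
    rw [this]
    exact Measurable.exists fun σ => (hm (x + 1) σ).and measurable_const
  have h1 : ∀ n, T G (br G n) := by
    intro n
    induction n with
    | zero => exact fun M => let ⟨l, h1, h2⟩ := hG M; ⟨l, List.nil_prefix, h1.ge, h2⟩
    | succ n ih =>
      obtain ⟨o, ho⟩ := hstep G _ ih
      obtain ⟨k, rfl⟩ := hd o
      exact Nat.sInf_mem (s := {k | T G (br G n ++ [d k])}) ⟨k, ho⟩
  have h2 : ∀ n, Good (ys G) (A G) (br G n) := fun n =>
    let ⟨_, h3, _, h4⟩ := h1 n 0; h4.pre h3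
  refine ⟨fun x hx => ?_, fun i u hu h3 => (h2 (u.sup id + 1)).2 i u hu fun x hx => ?_⟩
  · obtain ⟨i, hi⟩ := Option.ne_none_iff_exists'.1 ((h2 (x + 1)).1 x (by simp [hlen]) hx)
    exact mem_iUnion.2 ⟨i, hi⟩
  · have h4 : x + 1 ≤ u.sup id + 1 := Nat.succ_le_succ (Finset.le_sup (f := id) hx)
    rw [getD_pre (hpre G _ _ h4) (by simp [hlen])]
    exact h3 hx

theorem small_iff {ys : ι → Set (Finset ℕ)} {A : Set ℕ} :
    Small ys A ↔ ∀ M, ∃ l, l.length = M ∧ Good ys A l := by
  refine ⟨Small.good, fun h => ?_⟩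
  obtain ⟨C, -, hC⟩ := exists_select (X := Unit) (ys := fun _ => ys) (A := fun _ => A)
    (fun _ _ => measurable_const) fun _ => measurable_const
  exact ⟨C (), hC () h⟩

theorem measurable_small {ys : X → ι → Set (Finset ℕ)} {A : X → Set ℕ}
    (hys : ∀ i u, Measurable fun G => u ∈ ys G i) (hA : ∀ x, Measurable fun G => x ∈ A G) :
    Measurable fun G => Small (ys G) (A G) := by
  simp only [small_iff]
  exact Measurable.forall fun M => Measurable.exists fun l =>
    measurable_const.and (measurable_good hys hA l)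

theorem exists_select' {ys : X → ι → Set (Finset ℕ)} {A : X → Set ℕ}
    (hys : ∀ i u, Measurable fun G => u ∈ ys G i) (hA : ∀ x, Measurable fun G => x ∈ A G) :
    ∃ C : X → ι → Set ℕ, (∀ i x, Measurable fun G => x ∈ C G i) ∧
      ∀ G, Small (ys G) (A G) → A G ⊆ ⋃ i, C G i ∧ ∀ i, Avoid (ys G i) (C G i) :=
  let ⟨C, h1, h2⟩ := exists_select hys hA; ⟨C, h1, fun G h => h2 G h.good⟩

/-- Compactness. -/
theorem small_of_chain {ys : ℕ → ι → Set (Finset ℕ)} {A : ℕ → Set ℕ}
    (h1 : ∀ i, Monotone fun w => ys w i) (h2 : Monotone A) (h : ∀ w, Small (ys w) (A w)) :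
    Small (fun i => ⋃ w, ys w i) (⋃ w, A w) := by
  refine small_iff.2 fun M => ?_
  by_contra hc
  have h3 : ∀ l : {l : List (Option ι) // l.length = M}, ∃ w, ¬ Good (ys w) (A w) l.1 := by
    rintro ⟨l, hl⟩
    by_contra h4
    push Not at h4
    refine hc ⟨l, hl, fun x hx hA => ?_, fun i u hu => ?_⟩
    · obtain ⟨w, hw⟩ := mem_iUnion.1 hA
      exact (h4 w).1 x hx hw
    · obtain ⟨w, hw⟩ := mem_iUnion.1 hu
      exact (h4 w).2 i u hw
  choose w hw using h3
  have : Finite {l : List (Option ι) // l.length = M} := (List.finite_length_eq _ M).to_subtype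
  obtain ⟨B, hB⟩ := (finite_range w).bddAbove
  obtain ⟨l, hl, h4⟩ := (h B).good M
  exact hw ⟨l, hl⟩ (h4.mono (fun i => h1 i (hB ⟨_, rfl⟩)) (h2 (hB ⟨_, rfl⟩)))

end Pool.Agent.Shared.RealForcing
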