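import Pool.Agent.Shared.RealForcing.Obj
import Pool.Agent.Shared.RealForcing.Small

/-! The two steps in the construction of a filter whose Mathias forcing keeps the family
unbounded: sealing an array of finite sets, and meeting a groupwise dense family. -/

namespace Pool.Agent.Shared.RealForcing

open Set Filter Cond MeasureTheory Cardinal Obj

variable {Λ W : Type}

abbrev Fam (Λ W : Type) := Pt Λ W → Set (Finset ℕ)

def MsFam (A : Set Λ) (y : Fam Λ W) : Prop := ∀ u, Ms A fun G => u ∈ y G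

def MsSet (A : Set Λ) (a : Pt Λ W → Set ℕ) : Prop := ∀ x, Ms A fun G => x ∈ a G

theorem MsFam.mono {A A' : Set Λ} {y : Fam Λ W} (h : MsFam A y) (h' : A ⊆ A') : MsFam A' y :=
  fun u => (h u).mono' h'

theorem MsSet.mono {A A' : Set Λ} {a : Pt Λ W → Set ℕ} (h : MsSet A a) (h' : A ⊆ A') :
    MsSet A' a := fun u => (h u).mono' h'

/-- On the event `D` the set `a` is positive for the ideal generated by `𝒮`. -/
def Pos (k : Obj Λ W) (𝒮 : Set (Fam Λ W)) (a : Pt Λ W → Set ℕ) (D : Pt Λ W → Prop) : Prop :=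
  ∀ (ι : Type) [Finite ι] (y : ι → Fam Λ W), (∀ i, y i ∈ 𝒮) → ∀ m,
    ∀ᶠ G in k.F, D G → ¬ Small (fun i => y i G) (a G ∩ Ici m)

def Proper (k : Obj Λ W) (𝒮 : Set (Fam Λ W)) : Prop :=
  ∀ (ι : Type) [Finite ι] (y : ι → Fam Λ W), (∀ i, y i ∈ 𝒮) → ∀ m,
    ∀ᶠ G in k.F, ¬ Small (fun i => y i G) (Ici m)

theorem Proper.up {k k' : Obj Λ W} {𝒮 : Set (Fam Λ W)} (h : Proper k 𝒮) (hk : k ≤ k') :
    Proper k' 𝒮 := fun ι _ y hy m => ev hk (h ι y hy m)

def single (a : Pt Λ W → Set ℕ) : Fam Λ W := fun G => {u | ∃ x, x ∈ a G ∧ u = {x}}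

theorem MsSet.single {A : Set Λ} {a : Pt Λ W → Set ℕ} (h : MsSet A a) : MsFam A (single a) :=
  fun _ => Ms.ex fun x => (h x).and (Ms.const _)

theorem avoid_single {a : Pt Λ W → Set ℕ} {G : Pt Λ W} {C : Set ℕ} :
    Avoid (single a G) C ↔ ∀ x ∈ a G, x ∉ C := by
  constructor
  · exact fun h x hx hc => h {x} ⟨x, hx, rfl⟩ (by simpa using hc)
  · rintro h _ ⟨x, hx, rfl⟩ hc
    exact h x hx (by simpa using hc)

theorem proper_insert_single {k : Obj Λ W} {𝒮 : Set (Fam Λ W)} {a : Pt Λ W → Set ℕ}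
    (h : Pos k 𝒮 a fun _ => True) : Proper k (insert (single a) 𝒮) := by
  intro ι _ y hy m
  filter_upwards [h {i // y i ∈ 𝒮} (fun i => y i) (fun i => i.2) m] with G hG ⟨C, h1, h2⟩
  refine hG trivial ⟨fun i => C i, fun x hx => ?_, fun i => h2 i⟩
  obtain ⟨i, hi⟩ := mem_iUnion.1 (h1 hx.2)
  by_cases hp : y i ∈ 𝒮
  · exact mem_iUnion.2 ⟨⟨i, hp⟩, hi⟩
  · have h3 := h2 i
    simp only [(hy i).resolve_right hp] at h3
    exact absurd hi (avoid_single.1 h3 x hx.1)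

theorem proper_iUnion {I : Type} [LinearOrder I] {c : I → Obj Λ W} {S : I → Set (Fam Λ W)}
    {k : Obj Λ W} (hS : ∀ u v, u < v → S u ⊆ S v) (hc : ∀ i, c i ≤ k)
    (h : ∀ i, Proper (c i) (S i)) : Proper k (⋃ i, S i) := by
  intro ι _ y hy m
  choose v hv using fun i => mem_iUnion.1 (hy i)
  rcases isEmpty_or_nonempty ι with hι | hι
  · refine Eventually.of_forall fun G ⟨C, h1, _⟩ => ?_
    simpa using h1 (mem_Ici.2 (le_refl m))
  · obtain ⟨i₀, hi₀⟩ := Finite.exists_max v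
    refine ev (hc (v i₀)) (h _ ι y (fun i => ?_) m)
    rcases (hi₀ i).lt_or_eq with h1 | h1
    · exact hS _ _ h1 (hv i)
    · exact h1 ▸ hv i

variable [LinearOrder W] [Reg W]

theorem mk_tuple_lt {α : Type} (h : #α < #W) : #(Σ n, Fin n → α) < #W :=
  (mk_congr List.equivSigmaTuple).symm.trans_lt (Reg.list_lt h)

abbrev Arr (Λ W : Type) := List ℕ → ℕ → ℕ → Fam Λ W

def GoodArr (A : Set Λ) (X : Arr Λ W) : Prop :=
  (∀ s n w, MsFam A (X s n w)) ∧ ∀ s n G, Monotone fun w => X s n w G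

/-- The array `X` has been taken care of. -/
def Sealed (B : Base Λ W) (k : Obj Λ W) (𝒮 : Set (Fam Λ W)) (a : Pt Λ W → Set ℕ) (X : Arr Λ W) :
    Prop :=
  ∃ ξ, ∃ Y : List ℕ → ℕ → Fam Λ W, (∀ s m, Y s m ∈ 𝒮) ∧ ∀ᶠ G in k.F,
    (∃ s n, Avoid (⋃ w, X s n w G) (a G)) ∨
      ∀ s m u, u ∈ Y s m G → ∃ n, m ≤ n ∧ u ∈ X s n (B.b ξ G n) G

variable {B : Base Λ W} {k : Obj Λ W} {𝒮 : Set (Fam Λ W)}

omit [LinearOrder W] [Reg W] in
theorem seal_claim (hm : ∀ y ∈ 𝒮, MsFam k.A y) (hp : Proper k 𝒮) {V : Pt Λ W → Prop}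
    (hV : Ms k.A V) {ι ι' : Type} [Finite ι] [Finite ι'] {y : ι → Fam Λ W} (hy : ∀ i, y i ∈ 𝒮)
    {z : ι' → Fam Λ W} (hz : ∀ l, MsFam k.A (z l))
    (hkey : ∀ l D a, Ms k.A D → MsSet k.A a → (∀ G, D G → V G ∧ Avoid (z l G) (a G)) →
      Pos k 𝒮 a D → ∀ᶠ G in k.F, ¬ D G) (m : ℕ) :
    ∀ᶠ G in k.F, V G → ¬ Small (Sum.elim (fun i => y i G) fun l => z l G) (Ici m) := by
  classical
  let := Sig W k.A
  by_contra hcon
  have hms : ∀ i u, Measurable fun G => u ∈ Sum.elim (fun i => y i G) (fun l => z l G) i := by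
    rintro (i | l) u
    · exact hm _ (hy i) u
    · exact hz l u
  obtain ⟨C, hC1, hC2⟩ := exists_select' (A := fun _ : Pt Λ W => Ici m) hms
    fun _ => measurable_const
  have key : ∀ s : Finset ι', ∃ D : Pt Λ W → Prop, Measurable D ∧ (∃ᶠ G in k.F, D G) ∧
      (∀ G, D G → V G ∧ Small (Sum.elim (fun i => y i G) fun l => z l G) (Ici m)) ∧
      ∃ (κ : Type) (_ : Finite κ) (y' : κ → Fam Λ W) (m' : ℕ), (∀ i, y' i ∈ 𝒮) ∧
        ∀ G, D G → Small (fun i => y' i G) ((⋃ l ∈ s, C G (Sum.inr l)) ∩ Ici m') := by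
    intro s
    induction s using Finset.induction_on with
    | empty =>
      refine ⟨_, hV.and (measurable_small hms fun _ => measurable_const), ?_, fun G h => h,
        Empty, inferInstance, Empty.elim, 0, fun i => i.elim, fun G _ =>
          ⟨Empty.elim, by simp, fun i => i.elim⟩⟩
      exact (not_eventually.1 hcon).mono fun G hG => by simpa using hG
    | insert l s _ ih =>
      obtain ⟨D, h1, h2, h3, κ, _, y', m', h4, h5⟩ := ih
      have h6 : ¬ Pos k 𝒮 (fun G => C G (Sum.inr l)) D := fun h =>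
        h2 (hkey l D _ h1 (hC1 _) (fun G hG => ⟨(h3 G hG).1, (hC2 G (h3 G hG).2).2 (Sum.inr l)⟩) h)
      simp only [Pos, not_forall] at h6
      obtain ⟨κ₂, _, y₂, h7, m₂, h8⟩ := h6
      refine ⟨fun G => D G ∧ Small (fun i => y₂ i G) (C G (Sum.inr l) ∩ Ici m₂),
        h1.and (measurable_small (fun i => hm _ (h7 i)) fun x => (hC1 _ x).and measurable_const),
        (not_eventually.1 h8).mono fun G hG => by simpa using hG, fun G hG => h3 G hG.1,
        κ₂ ⊕ κ, inferInstance, Sum.elim y₂ y', max m₂ m', by rintro (i | i); exacts [h7 i, h4 i],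
        fun G hG => (hG.2.sum (h5 G hG.1)).mono (by rintro (i | i) <;> exact Subset.rfl) ?_⟩
      rintro x ⟨hx, hx'⟩
      rw [Finset.set_biUnion_insert] at hx
      rcases hx with hx | hx
      · exact Or.inl ⟨hx, mem_Ici.2 (le_of_max_le_left (mem_Ici.1 hx'))⟩
      · exact Or.inr ⟨hx, mem_Ici.2 (le_of_max_le_right (mem_Ici.1 hx'))⟩
  have := Fintype.ofFinite ι'
  obtain ⟨D, -, h2, h3, κ, _, y', m', h4, h5⟩ := key Finset.univ
  obtain ⟨G, hG, h6⟩ := (h2.and_eventually (hp (ι ⊕ κ) (Sum.elim y y')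
    (by rintro (i | i); exacts [hy i, h4 i]) (max m m'))).exists
  obtain ⟨h7, h8⟩ := hC2 G (h3 G hG).2
  have h9 : Small (fun i => y i G) (⋃ i, C G (Sum.inl i)) :=
    ⟨_, Subset.rfl, fun i => h8 (Sum.inl i)⟩
  refine h6 ((h9.sum (h5 G hG)).mono (by rintro (i | i) <;> exact Subset.rfl) fun x hx => ?_)
  obtain ⟨i | l, hi⟩ := mem_iUnion.1 (h7 (mem_Ici.2 (le_of_max_le_left (mem_Ici.1 hx))))
  · exact Or.inl (mem_iUnion.2 ⟨i, hi⟩)
  · exact Or.inr ⟨mem_biUnion (Finset.mem_univ l) hi, mem_Ici.2 (le_of_max_le_right (mem_Ici.1 hx))⟩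

theorem exists_seal (hk : B.k ≤ k) (hP : Pres B.b k) (hs : #𝒮 < #W) (hm : ∀ y ∈ 𝒮, MsFam k.A y)
    (hp : Proper k 𝒮) {X : Arr Λ W} (hX : GoodArr k.A X) :
    ∃ (a : Pt Λ W → Set ℕ) (𝒯 : Set (Fam Λ W)), MsSet k.A a ∧ 𝒯.Countable ∧
      (∀ y ∈ 𝒯, MsFam k.A y) ∧ single a ∈ 𝒯 ∧ Proper k (𝒯 ∪ 𝒮) ∧ Sealed B k 𝒯 a X := by
  classical
  let := Sig W k.A
  obtain ⟨𝒟₀, h1, h2, h3⟩ := (ccc_GF k.N k.A).exists_ess_sup
    {D | Measurable D ∧ ∃ a, MsSet k.A a ∧ (∀ G, D G → ∃ s n, Avoid (⋃ w, X s n w G) (a G)) ∧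
      Pos k 𝒮 a D} fun _ h => h.1
  have := h2.to_subtype
  obtain ⟨e, he⟩ := exists_surjective_nat (Option 𝒟₀)
  have h4 : ∀ n, ∃ (D : Pt Λ W → Prop) (a : Pt Λ W → Set ℕ), Measurable D ∧ MsSet k.A a ∧
      (∀ G, D G → ∃ s n, Avoid (⋃ w, X s n w G) (a G)) ∧ Pos k 𝒮 a D ∧
      ∀ D' : 𝒟₀, e n = some D' → D = D'.1 := by
    intro n
    cases e n with
    | none =>
      exact ⟨fun _ => False, fun _ => ∅, measurable_const, fun _ => Ms.const _,
        fun _ h => h.elim, fun _ _ _ _ _ => Eventually.of_forall fun _ h => h.elim, by simp⟩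
    | some D =>
      obtain ⟨h5, a, h6, h7, h8⟩ := h1 D.2
      exact ⟨D.1, a, h5, h6, h7, h8, by simp⟩
  choose D a' hD ha' hDa hpos hDe using h4
  let U : Pt Λ W → Prop := fun G => ∃ n, D n G
  have hU : Measurable U := Measurable.exists hD
  let a : Pt Λ W → Set ℕ := fun G => {x | ∀ n, D n G → (∀ j, j < n → ¬ D j G) → x ∈ a' n G}
  have ha : MsSet k.A a := fun x => Measurable.forall fun n => (hD n).imp
    ((Measurable.forall fun j => measurable_const.imp (hD j).not).imp (ha' n x))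
  have haU : ∀ G, U G → ∃ n, D n G ∧ a G = a' n G := by
    intro G hG
    refine ⟨Nat.find hG, Nat.find_spec hG, Subset.antisymm
      (fun x hx => hx _ (Nat.find_spec hG) fun j hj => Nat.find_min hG hj) fun x hx n h5 h6 => ?_⟩
    rwa [← (Nat.find_eq_iff hG).2 ⟨h5, h6⟩]
  have hXi : ∀ s n, MsFam k.A fun G => ⋃ w, X s n w G := fun s n u => by
    simp only [mem_iUnion]; exact Measurable.exists fun w => hX.1 s n w u
  have hcl : ∀ (τ : (Σ n, Fin n → 𝒮) × (Σ n, Fin n → List ℕ) × ℕ) (n : ℕ), ∀ᶠ G in k.F, ¬ U G →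
      ∃ w, ¬ Small (Sum.elim (fun i => (τ.1.2 i).1 G) fun l => X (τ.2.1.2 l) n w G) (Ici τ.2.2) := by
    intro τ n
    refine (seal_claim hm hp hU.not (fun i => (τ.1.2 i).2) (fun l => hXi (τ.2.1.2 l) n)
      (fun l D' b h5 h6 h7 h8 => ?_) τ.2.2).mono fun G hG hV => ?_
    · filter_upwards [h3 D' ⟨h5, b, h6, fun G hG => ⟨_, _, (h7 G hG).2⟩, h8⟩] with G hG h9
      obtain ⟨ψ, h10, h11⟩ := hG h9
      obtain ⟨j, hj⟩ := he (some ⟨ψ, h10⟩)
      exact (h7 G h9).1 ⟨j, by rw [hDe j _ hj]; exact h11⟩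
    · by_contra hc
      push Not at hc
      refine hG hV ((small_of_chain (A := fun _ => Ici τ.2.2) ?_ monotone_const hc).mono ?_
        (subset_iUnion (fun _ : ℕ => Ici τ.2.2) 0))
      · rintro (i | l)
        · exact monotone_const
        · exact hX.2 _ _ G
      · rintro (i | l)
        · exact subset_iUnion (fun _ : ℕ => (τ.1.2 i).1 G) 0
        · exact Subset.rfl
  obtain ⟨ξ, hξ⟩ := hP.many' hk (I := (Σ n, Fin n → 𝒮) × (Σ n, Fin n → List ℕ) × ℕ)
    (Reg.prod_lt (mk_tuple_lt hs) (Reg.countable_lt _))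
    (f := fun τ G n => sInf {w | ¬ Small (Sum.elim (fun i => (τ.1.2 i).1 G)
      fun l => X (τ.2.1.2 l) n w G) (Ici τ.2.2)})
    (fun τ => measurable_pi_lambda _ fun n => measurable_natInf fun w =>
      (measurable_small (by
        rintro (i | l) u
        · exact hm _ (τ.1.2 i).2 u
        · exact hX.1 _ _ _ u) fun _ => measurable_const).not)
  let Y : List ℕ × ℕ → Fam Λ W := fun r G => {u | U G ∨ ∃ n, r.2 ≤ n ∧ u ∈ X r.1 n (B.b ξ G n) G}
  have hb : Measurable (B.b ξ) := (B.ms ξ).mono' hk.1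
  have hY : ∀ r, MsFam k.A (Y r) := fun r u => hU.or (Measurable.exists fun n =>
    measurable_const.and (measurable_app (f := fun G w => u ∈ X r.1 n w G)
      (fun w => hX.1 _ _ w u) hb.eval))
  have hpos2 : Pos k (range Y ∪ 𝒮) a fun _ => True := by
    intro ι _ y hy m
    choose r hr using fun i : {i // y i ∉ 𝒮} => (hy i).resolve_right i.2
    obtain ⟨n₁, ⟨e₁⟩⟩ := Finite.exists_equiv_fin {i // y i ∈ 𝒮}
    obtain ⟨n₂, ⟨e₂⟩⟩ := Finite.exists_equiv_fin {i // y i ∉ 𝒮}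
    let τ : (Σ n, Fin n → 𝒮) × (Σ n, Fin n → List ℕ) × ℕ :=
      (⟨n₁, fun j => ⟨y (e₁.symm j), (e₁.symm j).2⟩⟩, ⟨n₂, fun l => (r (e₂.symm l)).1⟩, m)
    filter_upwards [hξ τ, eventually_countable_forall.2 (hcl τ), eventually_countable_forall.2
      fun n => hpos n {i // y i ∈ 𝒮} (fun i => y i) (fun i => i.2) m] with G h5 h6 h7 _ ⟨C, h8, h9⟩
    by_cases hG : U G
    · obtain ⟨n, h10, h11⟩ := haU G hG
      refine h7 n h10 ⟨fun i => C i, fun x hx => ?_, fun i => h9 i⟩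
      obtain ⟨i, hi⟩ := mem_iUnion.1 (h8 (h11 ▸ hx))
      by_cases hp : y i ∈ 𝒮
      · exact mem_iUnion.2 ⟨⟨i, hp⟩, hi⟩
      · refine absurd (by simp) (h9 i ∅ ?_)
        change ∅ ∈ y i G
        rw [← hr ⟨i, hp⟩]
        exact Or.inl hG
    · obtain ⟨M, hM⟩ := (finite_range fun i => (r i).2).bddAbove
      obtain ⟨n, hn, h10⟩ := frequently_atTop.1 h5 M
      refine Nat.sInf_mem (h6 n hG) ⟨Sum.elim (fun j => C (e₁.symm j)) fun l => C (e₂.symm l),
        fun x hx => ?_, ?_⟩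
      · obtain ⟨i, hi⟩ := mem_iUnion.1 (h8 ⟨fun n h => absurd ⟨n, h⟩ hG, hx⟩)
        by_cases hp : y i ∈ 𝒮
        · exact mem_iUnion.2 ⟨Sum.inl (e₁ ⟨i, hp⟩), by simpa using hi⟩
        · exact mem_iUnion.2 ⟨Sum.inr (e₂ ⟨i, hp⟩), by simpa using hi⟩
      · rintro (j | l)
        · exact h9 _
        · refine (h9 (e₂.symm l)).mono (fun u hu => ?_) Subset.rfl
          change u ∈ y (e₂.symm l) G
          rw [← hr]
          exact Or.inr ⟨n, (hM ⟨_, rfl⟩).trans hn, hX.2 _ _ G h10.le hu⟩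
  refine ⟨a, insert (single a) (range Y), ha, (countable_range Y).insert _, ?_, mem_insert _ _,
    insert_union ▸ proper_insert_single hpos2, ξ, fun s m => Y (s, m),
    fun s m => Or.inr ⟨_, rfl⟩, Eventually.of_forall fun G => ?_⟩
  · rintro _ (rfl | ⟨r, rfl⟩)
    · exact ha.single
    · exact hY r
  · by_cases hG : U G
    · obtain ⟨n, h10, h11⟩ := haU G hG
      exact Or.inl (h11 ▸ hDa n G h10)
    · exact Or.inr fun s m u hu => hu.resolve_left hG

/-- The approximations used in the outer forcing. -/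
def InK (B : Base Λ W) (k : Obj Λ W) : Prop := B.k ≤ k ∧ #k.A ≤ #W ∧ Pres B.b k

/-- The union of the intervals of the partition `π` with index in `b`. -/
def blocks (π : ℕ → ℕ) (b : Set ℕ) : Set ℕ := {x | ∃ i, i ∈ b ∧ π i ≤ x ∧ x < π (i + 1)}

/-- `H` behaves like a name for a groupwise dense family above `k₁`. -/
def DenseAbove (B : Base Λ W) (k₁ : Obj Λ W) (H : Obj Λ W → (Pt Λ W → Set ℕ) → Prop) : Prop :=
  ∀ k, InK B k → k₁ ≤ k → ∀ π : Pt Λ W → ℕ → ℕ, Ms k.A π → (∀ G, StrictMono (π G)) →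
    ∃ k', InK B k' ∧ k ≤ k' ∧ ∃ b, MsSet k'.A b ∧ (∀ G, (b G).Infinite) ∧
      H k' fun G => blocks (π G) (b G)

theorem exists_meet (hΛ : #W < #Λ) {k₁ : Obj Λ W} {H : Obj Λ W → (Pt Λ W → Set ℕ) → Prop}
    (hH : DenseAbove B k₁ H) (hk : InK B k) (hk₁ : k₁ ≤ k) (hs : #𝒮 < #W)
    (hm : ∀ y ∈ 𝒮, MsFam k.A y) (hp : Proper k 𝒮) :
    ∃ k', InK B k' ∧ k ≤ k' ∧ ∃ a, MsSet k'.A a ∧ H k' a ∧ Proper k' (insert (single a) 𝒮) := by
  obtain ⟨k₂, h1, h2, h3, d, h4, h5, -⟩ := exists_hechler (k := k) hΛ hk.2.1 (mk_tuple_lt hs)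
    (g := fun τ G m => sInf {w | ¬ Small (fun i => (τ.2 i).1 G) (Ico m w)})
    (fun τ => by
      let := Sig W k.A
      exact measurable_pi_lambda _ fun n => measurable_natInf fun w =>
        (measurable_small (fun i => hm _ (τ.2 i).2) fun _ => measurable_const).not)
  let π : Pt Λ W → ℕ → ℕ := fun G i => Nat.rec 0 (fun _ x => max (d G x) x + 1) i
  have hπ : ∀ G i, π G (i + 1) = max (d G (π G i)) (π G i) + 1 := fun _ _ => rfl
  have hπm : Ms k₂.A π := by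
    let := Sig W k₂.A
    refine measurable_pi_lambda _ fun i => ?_
    induction i with
    | zero => exact measurable_const
    | succ i ih =>
      simp only [hπ]
      exact ((measurable_app (f := d) (fun n => Measurable.eval (a := n) h4) ih).max ih).add_const 1
  have hπs : ∀ G, StrictMono (π G) := fun G => strictMono_nat_of_lt_succ fun i => by
    rw [hπ]; exact Nat.lt_succ_of_le (le_max_right _ _)
  obtain ⟨k', h6, h7, b, h8, h9, h10⟩ :=
    hH k₂ ⟨hk.1.trans h1, h2, h3 B hk.1 hk.2.2⟩ (hk₁.trans h1) π hπm hπs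
  refine ⟨k', h6, h1.trans h7, _, fun x => ?_, h10, proper_insert_single fun ι _ y hy m => ?_⟩
  · let := Sig W k'.A
    have h11 : Measurable π := hπm.mono' h7.1
    exact Measurable.exists fun i => Measurable.and (h8 i) (show Measurable fun G => π G i ≤ x ∧ x < π G (i + 1) from
      (Measurable.le' h11.eval measurable_const).and (Measurable.lt measurable_const (h11.eval (a := i + 1))))
  · obtain ⟨n, ⟨e⟩⟩ := Finite.exists_equiv_fin ι
    filter_upwards [ev h7 (h5 ⟨n, fun j => ⟨y (e.symm j), hy _⟩⟩),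
      ev (h1.trans h7) (eventually_countable_forall.2 fun m =>
        hp (Fin n) (fun j => y (e.symm j)) (fun j => hy _) m)] with G h11 h12 _ h13
    obtain ⟨M, hM⟩ := eventually_atTop.1 h11
    obtain ⟨i, hi, h14⟩ := (h9 G).exists_gt (max M m)
    have h15 : max M m ≤ π G i := h14.le.trans (hπs G).le_apply
    have h16 : {w | ¬ Small (fun j => y (e.symm j) G) (Ico (π G i) w)}.Nonempty := by
      by_contra hc
      refine h12 (π G i) ((small_of_chain (ys := fun _ j => y (e.symm j) G)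
        (A := fun w => Ico (π G i) w) (fun _ => monotone_const)
        (fun _ _ h => Ico_subset_Ico_right h) fun w => ?_).mono
          (fun j => subset_iUnion (fun _ : ℕ => y (e.symm j) G) 0) fun x hx => ?_)
      · by_contra h; exact hc ⟨w, h⟩
      · exact mem_iUnion.2 ⟨x + 1, hx, Nat.lt_succ_self x⟩
    refine Nat.sInf_mem h16 ((h13.comp_equiv e.symm).mono (fun _ => Subset.rfl) fun x hx => ?_)
    refine ⟨⟨i, hi, hx.1, ?_⟩, (le_of_max_le_right h15).trans hx.1⟩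
    rw [hπ]
    exact hx.2.trans_le ((hM _ (le_of_max_le_left h15)).trans
      ((le_max_left _ _).trans (Nat.le_succ _)))

end Pool.Agent.Shared.RealForcing
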