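import Pool.Agent.Shared.RealForcing.Quot

/-! A semantic presentation of forcing: properties of the quotient models that have a truth value,
quantifiers over ground model sets, and names for sets, relations and ordinals. -/

namespace Pool.Agent.Shared.RealForcing

open Pool.Agent.Lib.MP_2739cb_lc Nm Set

universe v

variable {P : Type} [Preorder P] {U : GU P}

theorem exists_GU (p : P) : ∃ U : GU P, Iic p ∈ U.U := by
  have : (denseFilter P ⊓ Filter.principal (Iic p)).NeBot := by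
    rw [Filter.inf_principal_neBot_iff]
    rintro S ⟨D, h1, h2, -⟩
    obtain ⟨q, hq, h3⟩ := h2 p
    exact ⟨q, h1 h3, hq⟩
  exact ⟨⟨Ultrafilter.of _, (Ultrafilter.of_le _).trans inf_le_left⟩,
    Filter.le_principal_iff.1 ((Ultrafilter.of_le _).trans inf_le_right)⟩

theorem TU.of_mem {a : RO P} {p : P} (h : Iic p ∈ U.U) (ha : a.s p) : TU U a :=
  Filter.mem_of_superset h fun _ hq => RO.mono ha hq

theorem s_of_forall {a : RO P} {p : P} (h : ∀ U : GU P, Iic p ∈ U.U → TU U a) : a.s p := by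
  refine RO.by_contra fun q hq hn => ?_
  obtain ⟨U, hU⟩ := exists_GU q
  exact (TU_not a).1 (TU.of_mem hU hn) (h U (Filter.mem_of_superset hU (Iic_subset_Iic.2 hq)))

/-- `p` forces `Φ`. -/
def Frc (p : P) (Φ : GU P → Prop) : Prop := ∀ U : GU P, Iic p ∈ U.U → Φ U

theorem Frc.mono {p q : P} {Φ : GU P → Prop} (h : Frc p Φ) (hq : q ≤ p) : Frc q Φ :=
  fun U hU => h U (Filter.mem_of_superset hU (Iic_subset_Iic.2 hq))

/-- The truth value of a property. -/
def val (Φ : GU P → Prop) : RO P := RO.dense fun p => Frc p Φ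

theorem Frc.val {p : P} {Φ : GU P → Prop} (h : Frc p Φ) : (val Φ).s p :=
  fun q hq => ⟨q, le_rfl, h.mono hq⟩

/-- The property `Φ` of quotient models is decided by its truth value. -/
class Dec (Φ : GU P → Prop) : Prop where
  out : ∀ U, TU U (val Φ) ↔ Φ U

theorem val_iff {Φ : GU P → Prop} [h : Dec Φ] : TU U (val Φ) ↔ Φ U := h.out U

theorem Dec.of (a : RO P) {Φ : GU P → Prop} (h : ∀ U, Φ U ↔ TU U a) : Dec Φ := by
  refine ⟨fun U => ?_⟩
  rw [h]
  refine ⟨fun h1 => h1.mono fun p hp => RO.reg fun q hq => ?_,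
    fun h1 => h1.mono fun p hp => Frc.val fun U hU => (h U).2 (TU.of_mem hU hp)⟩
  obtain ⟨r, hr, h2⟩ := hp q hq
  exact ⟨r, hr, s_of_forall fun U hU => (h U).1 (h2 U hU)⟩

theorem frc_of_val {Φ : GU P → Prop} [Dec Φ] {p : P} (h : (val Φ).s p) : Frc p Φ :=
  fun _ hU => val_iff.1 (TU.of_mem hU h)

theorem exists_frc {Φ : GU P → Prop} [Dec Φ] (h : Φ U) : ∃ p, Frc p Φ :=
  let ⟨p, hp⟩ := (val_iff.2 h).nonempty; ⟨p, frc_of_val hp⟩

/-- The density principle. -/
theorem of_dense {Φ Ψ : GU P → Prop} [Dec Φ] [Dec Ψ]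
    (H : ∀ p, Frc p Ψ → ∃ q, q ≤ p ∧ Frc q Φ) (h : Ψ U) : Φ U :=
  val_iff.1 ((val_iff.2 h).mono fun _ hp q hq => H q ((frc_of_val hp).mono hq))

instance Dec.tu (a : RO P) : Dec fun U => TU U a := Dec.of a fun _ => Iff.rfl

instance (priority := low) Dec.prop (p : Prop) : Dec fun _ : GU P => p := by
  by_cases h : p
  · exact Dec.of (RO.not RO.bot) fun U => iff_of_true h ((TU_not _).2 TU_bot)
  · exact Dec.of RO.bot fun U => iff_of_false h TU_bot

instance Dec.el (x y : Nm P) : Dec fun U => El U (cl U x) (cl U y) :=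
  Dec.of _ fun _ => (TU_mem x y).symm

instance Dec.eq (x y : Nm P) : Dec fun U => cl U x = cl U y := Dec.of _ fun _ => (TU_eq x y).symm

instance Dec.and (Φ Ψ : GU P → Prop) [Dec Φ] [Dec Ψ] : Dec fun U => Φ U ∧ Ψ U :=
  Dec.of (RO.and (val Φ) (val Ψ)) fun U => by rw [TU_and, val_iff, val_iff]

instance Dec.or (Φ Ψ : GU P → Prop) [Dec Φ] [Dec Ψ] : Dec fun U => Φ U ∨ Ψ U :=
  Dec.of (RO.or (val Φ) (val Ψ)) fun U => by rw [TU_or, val_iff, val_iff]

instance Dec.not (Φ : GU P → Prop) [Dec Φ] : Dec fun U => ¬ Φ U :=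
  Dec.of (RO.not (val Φ)) fun U => by rw [TU_not, val_iff]

instance Dec.imp (Φ Ψ : GU P → Prop) [Dec Φ] [Dec Ψ] : Dec fun U => Φ U → Ψ U :=
  Dec.of (RO.imp (val Φ) (val Ψ)) fun U => by rw [TU_imp, val_iff, val_iff]

instance Dec.iff (Φ Ψ : GU P → Prop) [Dec Φ] [Dec Ψ] : Dec fun U => Φ U ↔ Ψ U :=
  Dec.of (RO.iff (val Φ) (val Ψ)) fun U => by rw [TU_iff, val_iff, val_iff]

instance Dec.ne (x y : Nm P) : Dec fun U => cl U x ≠ cl U y := Dec.not fun U => cl U x = cl U y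

theorem ext_val (Ψ : ∀ U : GU P, MU U → Prop) : Ext fun x => val fun U => Ψ U (cl U x) :=
  ⟨fun x y p e h q hq => by
    obtain ⟨r, hr, h1⟩ := h q hq
    refine ⟨r, hr, fun U hU => ?_⟩
    have h2 : cl U x = cl U y :=
      (TU_eq x y).1 (TU.of_mem (a := RO.eq x y) hU (e.mono (hr.trans hq)))
    have h3 : Ψ U (cl U x) := h1 U hU
    exact (h2 ▸ h3 : Ψ U (cl U y))⟩

/-- The maximum principle. -/
theorem exists_witness (Ψ : ∀ U : GU P, MU U → Prop) [∀ x, Dec fun U => Ψ U (cl U x)] :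
    ∃ x, ∀ U, (∃ z, Ψ U z) → Ψ U (cl U x) := by
  have := ext_val Ψ
  obtain ⟨x, hx⟩ := max_principle fun x => val fun U => Ψ U (cl U x)
  refine ⟨x, fun U ⟨z, hz⟩ => ?_⟩
  obtain ⟨y, rfl⟩ := cl_surj z
  exact val_iff.1 (((val_iff (Φ := fun U => Ψ U (cl U y))).2 hz).mono fun p hp =>
    hx p (RO.ex_intro y hp))

instance Dec.exists (Ψ : ∀ U : GU P, MU U → Prop) [∀ x, Dec fun U => Ψ U (cl U x)] :
    Dec fun U => ∃ z, Ψ U z := by
  obtain ⟨x, hx⟩ := exists_witness Ψ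
  exact Dec.of (val fun U => Ψ U (cl U x)) fun U => by
    rw [val_iff]; exact ⟨hx U, fun h => ⟨_, h⟩⟩

instance Dec.forall (Ψ : ∀ U : GU P, MU U → Prop) [∀ x, Dec fun U => Ψ U (cl U x)] :
    Dec fun U => ∀ z, Ψ U z :=
  Dec.of (val fun U => ¬ ∃ z, ¬ Ψ U z) fun U => by rw [val_iff]; simp

instance Dec.existsUnique (Ψ : ∀ U : GU P, MU U → Prop) [∀ x, Dec fun U => Ψ U (cl U x)] :
    Dec fun U => ∃! z, Ψ U z := by
  unfold ExistsUnique
  infer_instance

/-! ### Quantifiers over sets of the ground model -/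

def All {ι : Sort v} (Φ : ι → GU P → Prop) (U : GU P) : Prop := TU U (RO.all fun i => val (Φ i))

def Ex {ι : Sort v} (Φ : ι → GU P → Prop) (U : GU P) : Prop := TU U (RO.ex fun i => val (Φ i))

instance Dec.all {ι : Sort v} (Φ : ι → GU P → Prop) : Dec fun U => All Φ U := Dec.tu _

instance Dec.ex {ι : Sort v} (Φ : ι → GU P → Prop) : Dec fun U => Ex Φ U := Dec.tu _

instance Dec.all' {ι : Sort v} (Φ : ι → GU P → Prop) : Dec (no_index fun U => All Φ U) :=
  Dec.tu _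

instance Dec.ex' {ι : Sort v} (Φ : ι → GU P → Prop) : Dec (no_index fun U => Ex Φ U) :=
  Dec.tu _

theorem All.elim {ι : Sort v} {Φ : ι → GU P → Prop} (h : All Φ U) (i : ι) [Dec (Φ i)] : Φ i U :=
  val_iff.1 (TU.mono h fun _ hp => hp i)

theorem All.intro {ι : Sort v} {Φ : ι → GU P → Prop} (Ψ : GU P → Prop) [Dec Ψ]
    (H : ∀ U i, Ψ U → Φ i U) (h : Ψ U) : All Φ U :=
  (val_iff.2 h).mono fun _ hp i => Frc.val fun U hU => H U i (frc_of_val hp U hU)

theorem Ex.intro {ι : Sort v} {Φ : ι → GU P → Prop} (i : ι) [Dec (Φ i)] (h : Φ i U) : Ex Φ U :=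
  (val_iff.2 h).mono fun _ hp => RO.ex_intro i hp

@[elab_as_elim]
theorem Ex.elim {ι : Sort v} {Φ : ι → GU P → Prop} {Ψ : GU P → Prop} (U : GU P) (h : Ex Φ U)
    [Dec Ψ] (H : ∀ U i, Φ i U → Ψ U) : Ψ U := by
  refine val_iff.1 (TU.mono h fun p hp q hq => ?_)
  obtain ⟨r, hr, i, h1⟩ := hp q hq
  obtain ⟨t, ht, h2⟩ := h1 r le_rfl
  exact ⟨t, ht.trans hr, fun U hU => H U i (h2 U hU)⟩

theorem not_all {ι : Sort v} {Φ : ι → GU P → Prop} [∀ i, Dec (Φ i)] (h : ¬ All Φ U) :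
    Ex (fun i U => ¬ Φ i U) U := by
  by_contra hc
  exact h (All.intro (fun U => ¬ Ex (fun i U => ¬ Φ i U) U)
    (fun U i h1 => not_not.1 fun h2 => h1 (Ex.intro i h2)) hc)

theorem all_finite {ι : Type} [Finite ι] {Φ : ι → GU P → Prop} [∀ i, Dec (Φ i)]
    (h : ∀ i, Φ i U) : All Φ U := by
  have : (⋂ i, {p | (val (Φ i)).s p}) ∈ U.U :=
    (Filter.iInter_mem (f := (U.U : Filter P))).2 fun i => val_iff.2 (h i)
  exact Filter.mem_of_superset this fun p hp i => mem_iInter.1 hp i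

instance (priority := low) Dec.forall_finite {ι : Type} [Finite ι] (Φ : ι → GU P → Prop)
    [∀ i, Dec (Φ i)] : Dec fun U => ∀ i, Φ i U :=
  Dec.of _ fun _ => ⟨all_finite, fun h i => All.elim h i⟩

instance (priority := low) Dec.exists_finite {ι : Type} [Finite ι] (Φ : ι → GU P → Prop)
    [∀ i, Dec (Φ i)] : Dec fun U => ∃ i, Φ i U :=
  Dec.of (val fun U => ¬ ∀ i, ¬ Φ i U) fun U => by rw [val_iff]; simp

/-- A witness may be assumed to be least. -/
theorem Ex.least {ι : Type} [LT ι] [WellFoundedLT ι] {Φ : ι → GU P → Prop} [∀ i, Dec (Φ i)]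
    (h : Ex Φ U) : Ex (fun i U => Φ i U ∧ All (fun j : {j // j < i} => fun U => ¬ Φ j U) U) U := by
  refine Ex.elim U h fun U i => ?_
  induction i using WellFoundedLT.induction generalizing U with
  | ind i ih =>
    intro hi
    by_cases h1 : All (fun j : {j // j < i} => fun U => ¬ Φ j U) U
    · exact Ex.intro i ⟨hi, h1⟩
    · exact Ex.elim U (not_all h1) fun U j hj => ih j j.2 U (not_not.1 hj)

/-! ### Names -/

def setNm {ι : Type} (A : ι → Nm P) (g : ι → GU P → Prop) : Nm P :=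
  Nm.mk {t : ι × P // Frc t.2 (g t.1)} (fun t => A t.1.1) fun t => t.1.2

theorem el_setNm {ι : Type} (A : ι → Nm P) {g : ι → GU P → Prop} (i : ι) [Dec (g i)]
    (h : g i U) : El U (cl U (A i)) (cl U (setNm A g)) :=
  (TU_mem _ _).1 ((val_iff.2 h).mono fun p hp =>
    FMem.of_le (y := setNm A g) ⟨(i, p), frc_of_val hp⟩ le_rfl)

@[elab_as_elim]
theorem wlog_set {Φ : GU P → Prop} (z : Nm P) {ι : Type} (A : ι → Nm P) (g : ι → GU P → Prop)
    (U : GU P) (h : El U (cl U z) (cl U (setNm A g))) [Dec Φ]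
    (H : ∀ U i, g i U → cl U z = cl U (A i) → Φ U) : Φ U := by
  refine val_iff.1 (((TU_mem _ _).2 h).mono fun p hp q hq => ?_)
  obtain ⟨r, hr, ⟨⟨i, t⟩, h1⟩, h2, h3⟩ := hp q hq
  exact ⟨r, hr, fun U hU => H U i (h1.mono h2 U hU)
    ((TU_eq _ _).1 (TU.of_mem (a := RO.eq z (A i)) hU h3))⟩

def sepN (Ψ : ∀ U : GU P, MU U → Prop) (x : Nm P) : Nm P :=
  sepNm (fun z => val fun U => Ψ U (cl U z)) x

theorem el_sepN (Ψ : ∀ U : GU P, MU U → Prop) [∀ x, Dec fun U => Ψ U (cl U x)] (x : Nm P)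
    (z : MU U) : El U z (cl U (sepN Ψ x)) ↔ El U z (cl U x) ∧ Ψ U z := by
  obtain ⟨z, rfl⟩ := cl_surj z
  have := ext_val Ψ
  rw [← TU_mem, ← TU_mem, ← val_iff (Φ := fun U => Ψ U (cl U z)), ← TU_and]
  exact ⟨fun h => h.mono fun p hp => (fmem_sepNm _ _ _ p).1 hp,
    fun h => h.mono fun p hp => (fmem_sepNm _ _ _ p).2 hp⟩

instance Dec.sub (x y : Nm P) : Dec fun U => Sub (El U) (cl U x) (cl U y) := by
  unfold Lib.MP_2739cb_lc.Sub; infer_instance

instance Dec.isPair (x y z : Nm P) : Dec fun U => IsPair (El U) (cl U x) (cl U y) (cl U z) := by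
  unfold IsPair; infer_instance

instance Dec.app (x y z : Nm P) : Dec fun U => App (El U) (cl U x) (cl U y) (cl U z) := by
  unfold App; infer_instance

instance Dec.isFun (x y z : Nm P) : Dec fun U => IsFun (El U) (cl U x) (cl U y) (cl U z) := by
  unfold IsFun; infer_instance

instance Dec.isInj (x y z : Nm P) : Dec fun U => IsInj (El U) (cl U x) (cl U y) (cl U z) := by
  unfold IsInj; infer_instance

instance Dec.cardLe (x y : Nm P) : Dec fun U => CardLe (El U) (cl U x) (cl U y) := by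
  unfold CardLe; infer_instance

instance Dec.isOrd (x : Nm P) : Dec fun U => IsOrd (El U) (cl U x) := by
  unfold IsOrd; infer_instance

variable [OrderTop P]

theorem el_pairNm (x y : Nm P) (z : MU U) :
    El U z (cl U (pairNm x y)) ↔ z = cl U x ∨ z = cl U y := by
  obtain ⟨z, rfl⟩ := cl_surj z
  have : TU U (RO.iff (RO.mem z (pairNm x y)) (RO.or (RO.eq z x) (RO.eq z y))) := by
    refine TU.of_forall fun p => (RO.iff_s _ _ _).2 fun q _ => ⟨fun h r hr => ?_, fun h r hr => ?_⟩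
    · obtain ⟨t, ht, ⟨_ | _⟩, -, h1⟩ := h r hr
      · exact ⟨t, ht, Or.inr h1⟩
      · exact ⟨t, ht, Or.inl h1⟩
    · obtain ⟨t, ht, h1 | h1⟩ := h r hr
      · exact ⟨t, ht, ⟨true⟩, le_top, h1⟩
      · exact ⟨t, ht, ⟨false⟩, le_top, h1⟩
  simpa only [TU_iff, TU_or, TU_eq, TU_mem] using this

def opNm (x y : Nm P) : Nm P := pairNm (pairNm x x) (pairNm x y)

theorem isPair_opNm (x y : Nm P) : IsPair (El U) (cl U (opNm x y)) (cl U x) (cl U y) := by
  intro z
  rw [opNm, el_pairNm]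
  refine or_congr ⟨?_, fun h => ?_⟩ ⟨?_, fun h => ?_⟩
  · rintro rfl t; rw [el_pairNm, or_self]
  · exact MU_ext _ _ fun t => by rw [h, el_pairNm, or_self]
  · rintro rfl t; rw [el_pairNm]
  · exact MU_ext _ _ fun t => by rw [h, el_pairNm]

def relNm {ι : Type} (x y : ι → Nm P) (g : ι → GU P → Prop) : Nm P :=
  setNm (fun i => opNm (x i) (y i)) g

theorem app_relNm {ι : Type} (x y : ι → Nm P) {g : ι → GU P → Prop} (i : ι) [Dec (g i)]
    (h : g i U) : App (El U) (cl U (relNm x y g)) (cl U (x i)) (cl U (y i)) :=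
  ⟨_, el_setNm (fun i => opNm (x i) (y i)) i h, isPair_opNm _ _⟩

@[elab_as_elim]
theorem wlog_rel {Φ : GU P → Prop} (a b : Nm P) {ι : Type} (x y : ι → Nm P)
    (g : ι → GU P → Prop) (U : GU P) (h : App (El U) (cl U (relNm x y g)) (cl U a) (cl U b))
    [Dec Φ] (H : ∀ U i, g i U → cl U a = cl U (x i) → cl U b = cl U (y i) → Φ U) : Φ U := by
  obtain ⟨p, hp, hp'⟩ := h
  obtain ⟨p, rfl⟩ := cl_surj p
  revert hp'
  refine wlog_set p _ _ U hp ?_
  intro U i hi e hp'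
  rw [e] at hp'
  obtain ⟨h1, h2⟩ := MU_zfc.isPair_inj hp' (isPair_opNm _ _)
  exact H U i hi h1 h2

/-- A relation name is the name of a function. -/
theorem isFun_relNm {ι : Type} (x y : ι → Nm P) (g : ι → GU P → Prop) (A B : Nm P)
    (Ψ : GU P → Prop) [Dec Ψ]
    (h1 : ∀ U i, Ψ U → g i U → El U (cl U (x i)) (cl U A) ∧ El U (cl U (y i)) (cl U B))
    (h2 : ∀ U i j, Ψ U → g i U → g j U → cl U (x i) = cl U (x j) → cl U (y i) = cl U (y j))
    [∀ i, Dec (g i)]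
    (h3 : ∀ U a, Ψ U → El U (cl U a) (cl U A) → Ex (fun i U => g i U ∧ cl U a = cl U (x i)) U)
    (h : Ψ U) : IsFun (El U) (cl U (relNm x y g)) (cl U A) (cl U B) := by
  refine ⟨fun p hp => ?_, fun a ha => ?_⟩
  · obtain ⟨p, rfl⟩ := cl_surj p
    revert h
    refine wlog_set p _ _ U hp ?_
    intro U i hi e h
    exact ⟨_, _, (h1 U i h hi).1, (h1 U i h hi).2, e ▸ isPair_opNm _ _⟩
  · obtain ⟨a, rfl⟩ := cl_surj a
    have h4 := h3 U a h ha
    clear ha
    revert h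
    refine Ex.elim U h4 ?_
    rintro U i ⟨hi, e⟩ h
    refine ⟨_, e ▸ app_relNm x y i hi, fun b hb => ?_⟩
    obtain ⟨b, rfl⟩ := cl_surj b
    revert h hi e
    refine wlog_rel a b _ _ _ U hb ?_
    intro U j hj e1 e2 hi e h
    exact e2.trans (h2 U j i h hj hi (e1.symm.trans e))

/-! ### Ordinals -/

/-- The name of an ordinal. -/
@[irreducible] noncomputable def oN (o : Ordinal.{0}) : Nm P := on o

theorem el_on {a b : Ordinal.{0}} : El U (cl U (oN a)) (cl U (oN b)) ↔ a < b := by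
  rw [← TU_mem, oN, oN]
  exact ⟨fun h => let ⟨_, h⟩ := h.nonempty; on_lt h, fun h => TU.of_forall (on_mem h)⟩

theorem cl_on_inj {a b : Ordinal.{0}} (h : cl U (oN a) = cl U (oN b)) : a = b := by
  rw [oN, oN] at h
  exact let ⟨_, h⟩ := ((TU_eq _ _).2 h).nonempty; on_inj h

@[elab_as_elim]
theorem wlog_on {Φ : GU P → Prop} (z : Nm P) (b : Ordinal.{0}) (U : GU P)
    (h : El U (cl U z) (cl U (oN b))) [Dec Φ]
    (H : ∀ U a, a < b → cl U z = cl U (oN a) → Φ U) : Φ U := by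
  unfold oN at h H
  refine val_iff.1 (((TU_mem _ _).2 h).mono fun p hp q hq => ?_)
  obtain ⟨r, hr, a, h1, h2⟩ := mem_on hp q hq
  exact ⟨r, hr, fun U hU => H U a h1 ((TU_eq _ _).1 (TU.of_mem (a := RO.eq z (on a)) hU h2))⟩

theorem isOrd_cl_on (o : Ordinal.{0}) : IsOrd (El U) (cl U (oN o : Nm P)) := by
  refine ⟨fun x hx z hz => ?_, fun x y hx hy => ?_⟩
  · obtain ⟨x, rfl⟩ := cl_surj x
    obtain ⟨z, rfl⟩ := cl_surj z
    revert hz
    refine wlog_on x o U hx fun U a ha e hz => ?_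
    rw [e] at hz
    exact wlog_on z a U hz fun U c hc e => e ▸ el_on.2 (hc.trans ha)
  · obtain ⟨x, rfl⟩ := cl_surj x
    obtain ⟨y, rfl⟩ := cl_surj y
    revert hy
    refine wlog_on x o U hx fun U a _ e hy => ?_
    revert e
    refine wlog_on y o U hy fun U c _ e' e => ?_
    rw [e, e', el_on, el_on]
    rcases lt_trichotomy a c with h | h | h
    · exact Or.inl h
    · exact Or.inr (Or.inl (h ▸ rfl))
    · exact Or.inr (Or.inr h)

theorem sub_on {a b : Ordinal.{0}} (h : a ≤ b) : Sub (El U) (cl U (oN a)) (cl U (oN b)) := by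
  intro z hz
  obtain ⟨z, rfl⟩ := cl_surj z
  exact wlog_on z a U hz fun U c hc e => e ▸ el_on.2 (hc.trans_le h)

theorem el_on_succ (a : Ordinal.{0}) (z : MU U) :
    El U z (cl U (oN (a + 1))) ↔ El U z (cl U (oN a)) ∨ z = cl U (oN a) := by
  obtain ⟨z, rfl⟩ := cl_surj z
  constructor
  · intro h
    refine wlog_on z _ U h fun U c hc e => ?_
    rcases (Order.lt_add_one_iff.1 hc).lt_or_eq with h | h
    · exact Or.inl (e ▸ el_on.2 h)
    · exact Or.inr (h ▸ e)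
  · rintro (h | h)
    · exact sub_on le_self_add _ h
    · exact h ▸ el_on.2 (lt_add_one a)

/-- The name of a natural number. -/
noncomputable abbrev nn (n : ℕ) : Nm P := oN n

/-- The name of `ω`. -/
noncomputable abbrev om : Nm P := oN Ordinal.omega0

theorem el_nn {m n : ℕ} : El U (cl U (nn m)) (cl U (nn n)) ↔ m < n := by
  rw [el_on, Nat.cast_lt]

theorem nn_inj {m n : ℕ} (h : cl U (nn m) = cl U (nn n)) : m = n := by
  exact_mod_cast cl_on_inj h

theorem el_nn_om (n : ℕ) : El U (cl U (nn n)) (cl U om) := el_on.2 (Ordinal.natCast_lt_omega0 n)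

@[elab_as_elim]
theorem wlog_nat {Φ : GU P → Prop} (z : Nm P) (U : GU P) (h : El U (cl U z) (cl U om)) [Dec Φ]
    (H : ∀ U n, cl U z = cl U (nn n) → Φ U) : Φ U := by
  refine wlog_on z _ U h fun U a ha e => ?_
  obtain ⟨n, rfl⟩ := Ordinal.lt_omega0.1 ha
  exact H U n e

theorem el_nn_succ (n : ℕ) (z : MU U) :
    El U z (cl U (nn (n + 1))) ↔ El U z (cl U (nn n)) ∨ z = cl U (nn n) := by
  rw [nn, Nat.cast_succ, el_on_succ]

theorem not_el_nn_zero (z : MU U) : ¬ El U z (cl U (nn 0)) := by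
  obtain ⟨z, rfl⟩ := cl_surj z
  intro h
  exact wlog_on z _ U h fun U c hc _ => by simp at hc

theorem el_nn_iff {n : ℕ} {z : MU U} : El U z (cl U (nn n)) ↔ ∃ m, m < n ∧ z = cl U (nn m) := by
  refine ⟨fun h => ?_, fun ⟨m, hm, e⟩ => e ▸ el_nn.2 hm⟩
  induction n with
  | zero => exact absurd h (not_el_nn_zero z)
  | succ n ih =>
    rcases (el_nn_succ n z).1 h with h | h
    · obtain ⟨m, hm, e⟩ := ih h
      exact ⟨m, Nat.lt_succ_of_lt hm, e⟩
    · exact ⟨n, Nat.lt_succ_self n, h⟩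

end Pool.Agent.Shared.RealForcing
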