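import Pool.Agent.Shared.RealForcing.Iter

/-!
The space of sets of conditions, the σ-algebra of events decided by the part of the iteration
supported in `A`, and the σ-filter of sufficiently generic filters.
-/

namespace Pool.Agent.Shared.RealForcing

open Set Filter Cond MeasureTheory

structure Pt (Λ J : Type) where
  mem : Cond Λ J → Prop

variable {Λ J : Type} {N N' : Data Λ J} {A A' : Set Λ}

/-- The part of `G` supported in `A` is a filter. -/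
def Gen (N : Data Λ J) (A : Set Λ) (G : Pt Λ J) : Prop :=
  G.mem top ∧ (∀ p q, G.mem q → q.In A → p.In A → Le N q p → G.mem p) ∧
    ∀ p q, G.mem p → G.mem q → p.In A → q.In A → ∃ r, G.mem r ∧ r.In A ∧ Le N r p ∧ Le N r q

def Dns (N : Data Λ J) (A : Set Λ) (D : Set (Cond Λ J)) : Prop :=
  ∀ p, p.In A → ∃ q ∈ D, q.In A ∧ Le N q p

def GF (N : Data Λ J) (A : Set Λ) : Filter (Pt Λ J) :=
  countableGenerate {S | S = {G | Gen N A G} ∨
    ∃ D, Dns N A D ∧ S = {G | ∃ p ∈ D, p.In A ∧ G.mem p}}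

instance : CountableInterFilter (GF N A) := by unfold GF; infer_instance

@[reducible] def Sig (J : Type) (A : Set Λ) : MeasurableSpace (Pt Λ J) :=
  MeasurableSpace.generateFrom {S | ∃ p : Cond Λ J, p.In A ∧ S = {G | G.mem p}}

abbrev Ms (A : Set Λ) {β : Type} [MeasurableSpace β] (φ : Pt Λ J → β) : Prop :=
  Measurable[Sig J A] φ

/-- `p` forces the event `φ`. -/
def Fo (N : Data Λ J) (A : Set Λ) (p : Cond Λ J) (φ : Pt Λ J → Prop) : Prop :=
  ∀ᶠ G in GF N A, G.mem p → φ G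

theorem ev_gen (N : Data Λ J) (A : Set Λ) : ∀ᶠ G in GF N A, Gen N A G :=
  CountableGenerateSets.basic (Or.inl rfl)

theorem ev_dns {D : Set (Cond Λ J)} (h : Dns N A D) :
    ∀ᶠ G in GF N A, ∃ p ∈ D, p.In A ∧ G.mem p :=
  CountableGenerateSets.basic (Or.inr ⟨D, h, rfl⟩)

theorem ms_mem {p : Cond Λ J} (hp : p.In A) : Ms A fun G : Pt Λ J => G.mem p :=
  (@measurableSet_setOfPred _ (Sig J A) _).1
    (MeasurableSpace.measurableSet_generateFrom ⟨p, hp, rfl⟩)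

theorem Sig_mono (h : A ⊆ A') : Sig J A ≤ Sig J A' :=
  MeasurableSpace.generateFrom_mono fun _ ⟨p, hp, e⟩ => ⟨p, hp.mono h, e⟩

theorem Ms.mono' {β : Type} [MeasurableSpace β] {φ : Pt Λ J → β} (hφ : Ms A φ) (h : A ⊆ A') :
    Ms A' φ :=
  Measurable.mono hφ (Sig_mono h) le_rfl

theorem Ms.not {φ : Pt Λ J → Prop} (h : Ms A φ) : Ms A fun G => ¬ φ G :=
  @Measurable.not _ (Sig J A) _ h

theorem Ms.and {φ ψ : Pt Λ J → Prop} (h : Ms A φ) (h' : Ms A ψ) : Ms A fun G => φ G ∧ ψ G :=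
  @Measurable.and _ (Sig J A) _ _ h h'

theorem Ms.ex {ι : Sort*} [Countable ι] {φ : ι → Pt Λ J → Prop} (h : ∀ i, Ms A (φ i)) :
    Ms A fun G => ∃ i, φ i G :=
  @Measurable.exists _ _ (Sig J A) _ _ h

theorem Ms.all {ι : Sort*} [Countable ι] {φ : ι → Pt Λ J → Prop} (h : ∀ i, Ms A (φ i)) :
    Ms A fun G => ∀ i, φ i G :=
  @Measurable.forall _ _ (Sig J A) _ _ h

theorem Ms.const {β : Type} [MeasurableSpace β] (b : β) : Ms A fun _ : Pt Λ J => b :=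
  @measurable_const _ _ _ (Sig J A) b

/-- The Rasiowa-Sikorski lemma. -/
theorem exists_gen {p : Cond Λ J} (hp : p.In A) {φ : Pt Λ J → Prop} (h : ∀ᶠ G in GF N A, φ G) :
    ∃ G, G.mem p ∧ φ G := by
  obtain ⟨S, hS, hc, hsub⟩ := mem_countableGenerate_iff.1 h
  have : ∀ s : S, ∃ D, Dns N A D ∧
      ∀ G, Gen N A G → (∃ p ∈ D, p.In A ∧ G.mem p) → G ∈ s.1 := by
    rintro ⟨s, hs⟩
    rcases hS hs with rfl | ⟨D, hD, rfl⟩
    · exact ⟨univ, fun p hp => ⟨p, trivial, hp, Le.refl N p⟩, fun G hG _ => hG⟩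
    · exact ⟨D, hD, fun G _ h => h⟩
  choose D hD1 hD2 using this
  have := hc.to_subtype
  obtain ⟨e, he⟩ := exists_surjective_nat (Option S)
  have hD3 : ∀ n, Dns N A ((e n).elim univ D) := by
    intro n
    cases e n with
    | none => exact fun p hp => ⟨p, trivial, hp, Le.refl N p⟩
    | some s => exact hD1 s
  choose f hf1 hf2 hf3 using hD3
  let q : ℕ → {p : Cond Λ J // p.In A} := fun n =>
    Nat.rec ⟨p, hp⟩ (fun n r => ⟨f n r.1 r.2, hf2 n r.1 r.2⟩) n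
  have hq : ∀ n, Le N (q (n + 1)).1 (q n).1 := fun n => hf3 n _ _
  have hq' : ∀ m n, n ≤ m → Le N (q m).1 (q n).1 := by
    intro m n hmn
    induction hmn with
    | refl => exact Le.refl _ _
    | step _ ih => exact (hq _).trans ih
  let G : Pt Λ J := ⟨fun r => ∃ n, Le N (q n).1 r⟩
  have hG : Gen N A G := by
    refine ⟨⟨0, Le.top _ _⟩, fun r r' ⟨n, hn⟩ _ _ h => ⟨n, hn.trans h⟩, ?_⟩
    rintro r r' ⟨n, hn⟩ ⟨m, hm⟩ - -
    exact ⟨(q (max n m)).1, ⟨_, Le.refl _ _⟩, (q _).2, (hq' _ _ (le_max_left _ _)).trans hn,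
      (hq' _ _ (le_max_right _ _)).trans hm⟩
  refine ⟨G, ⟨0, Le.refl _ _⟩, hsub fun s hs => hD2 ⟨s, hs⟩ G hG ?_⟩
  obtain ⟨n, hn⟩ := he (some ⟨s, hs⟩)
  refine ⟨(q (n + 1)).1, ?_, (q (n + 1)).2, ⟨n + 1, Le.refl _ _⟩⟩
  have := hf1 n (q n).1 (q n).2
  rwa [hn] at this

instance : (GF N A).NeBot := by
  rw [← Filter.forall_mem_nonempty_iff_neBot]
  intro S hS
  obtain ⟨G, -, hG⟩ := exists_gen (top_in A) hS
  exact ⟨G, hG⟩

variable {φ ψ : Pt Λ J → Prop} {p q : Cond Λ J}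

theorem Fo.of_ev (h : ∀ᶠ G in GF N A, φ G) (p : Cond Λ J) : Fo N A p φ :=
  h.mono fun _ h _ => h

theorem fo_top : Fo N A top φ ↔ ∀ᶠ G in GF N A, φ G :=
  ⟨fun h => (h.and (ev_gen N A)).mono fun _ h => h.1 h.2.1, fun h => Fo.of_ev h _⟩

theorem Fo.imp (h : Fo N A p φ) (h' : ∀ G, φ G → ψ G) : Fo N A p ψ :=
  h.mono fun G h1 h2 => h' G (h1 h2)

theorem Fo.imp_ev (h : Fo N A p φ) (h' : ∀ᶠ G in GF N A, φ G → ψ G) : Fo N A p ψ :=
  (h.and h').mono fun _ h1 h2 => h1.2 (h1.1 h2)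

theorem Fo.and (h : Fo N A p φ) (h' : Fo N A p ψ) : Fo N A p fun G => φ G ∧ ψ G :=
  (Eventually.and h h').mono fun _ h1 h2 => ⟨h1.1 h2, h1.2 h2⟩

theorem Fo.forall {ι : Sort*} [Countable ι] {φ : ι → Pt Λ J → Prop} (h : ∀ i, Fo N A p (φ i)) :
    Fo N A p fun G => ∀ i, φ i G :=
  (eventually_countable_forall.2 h).mono fun _ h1 h2 i => h1 i h2

theorem Fo.le (h : Fo N A p φ) (hq : Le N q p) (hq' : q.In A) (hp : p.In A) : Fo N A q φ :=
  (Eventually.and h (ev_gen N A)).mono fun _ h1 h2 => h1.1 (h1.2.2.1 p q h2 hq' hp hq)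

theorem fo_mem (hq : Le N q p) (hq' : q.In A) (hp : p.In A) : Fo N A q fun G => G.mem p :=
  (ev_gen N A).mono fun _ h1 h2 => h1.2.1 p q h2 hq' hp hq

theorem Fo.ex (h : Fo N A p φ) (hp : p.In A) : ∃ G, φ G :=
  let ⟨G, h1, h2⟩ := exists_gen hp h; ⟨G, h2 h1⟩

/-- Forcing is regular. -/
theorem Fo.of_dense (hp : p.In A)
    (h : ∀ q, q.In A → Le N q p → ∃ r, r.In A ∧ Le N r q ∧ Fo N A r φ) : Fo N A p φ := by
  obtain ⟨D₀, h1, h2, h3⟩ := exists_countable_predense N (A := A) {r | r.In A ∧ Fo N A r φ}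
  have h4 : Dns N A {r | (∃ e ∈ D₀, Le N r e) ∨ ¬ ∃ t, t.In A ∧ Le N t r ∧ Le N t p} := by
    intro q hq
    by_cases hc : ∃ t, t.In A ∧ Le N t q ∧ Le N t p
    · obtain ⟨t, ht, htq, htp⟩ := hc
      obtain ⟨r, hr, hrt, hφ⟩ := h t ht htp
      obtain ⟨u, hu, hur, he⟩ := h3 r ⟨hr, hφ⟩ r hr (Le.refl _ _)
      exact ⟨u, Or.inl he, hu, hur.trans (hrt.trans htq)⟩
    · exact ⟨q, Or.inr hc, hq, Le.refl _ _⟩
  have h5 : ∀ᶠ G in GF N A, ∀ e ∈ D₀, G.mem e → φ G :=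
    (eventually_countable_ball h2).2 fun e he => (h1 he).2
  filter_upwards [ev_dns h4, h5, ev_gen N A] with G ⟨r, hr, hrA, hrG⟩ h6 hG hpG
  rcases hr with ⟨e, he, hre⟩ | hr
  · exact h6 e he (hG.2.1 e r hrG hrA (h1 he).1 hre)
  · obtain ⟨t, -, ht⟩ := hG.2.2 r p hrG hpG hrA hp
    exact absurd ⟨t, ht⟩ hr

theorem ev_of_dense (h : ∀ q, q.In A → ∃ r, r.In A ∧ Le N r q ∧ Fo N A r φ) :
    ∀ᶠ G in GF N A, φ G :=
  fo_top.1 (Fo.of_dense (top_in A) fun q hq _ => h q hq)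

theorem decide_set {S : Set (Pt Λ J)} (hS : MeasurableSet[Sig J A] S) :
    ∀ p, p.In A → ∃ q, q.In A ∧ Le N q p ∧ (Fo N A q (· ∈ S) ∨ Fo N A q (· ∉ S)) := by
  induction S, hS using MeasurableSpace.generateFrom_induction with
  | hC t ht _ =>
    obtain ⟨e, he, rfl⟩ := ht
    intro p hp
    by_cases hc : ∃ t, t.In A ∧ Le N t p ∧ Le N t e
    · obtain ⟨t, ht, h1, h2⟩ := hc
      exact ⟨t, ht, h1, Or.inl (fo_mem h2 ht he)⟩
    · refine ⟨p, hp, Le.refl _ _, Or.inr ((ev_gen N A).mono fun G hG h1 h2 => hc ?_)⟩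
      obtain ⟨t, -, ht⟩ := hG.2.2 p e h1 h2 hp he
      exact ⟨t, ht⟩
  | empty => exact fun p hp => ⟨p, hp, Le.refl _ _, Or.inr (Eventually.of_forall fun _ _ => id)⟩
  | compl t _ ih =>
    intro p hp
    obtain ⟨q, hq, h1, h2 | h2⟩ := ih p hp
    · exact ⟨q, hq, h1, Or.inr (h2.imp fun _ h h' => h' h)⟩
    · exact ⟨q, hq, h1, Or.inl h2⟩
  | iUnion s _ ih =>
    intro p hp
    by_cases hc : ∃ q, q.In A ∧ Le N q p ∧ ∃ n, Fo N A q (· ∈ s n)
    · obtain ⟨q, hq, h1, n, h2⟩ := hc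
      exact ⟨q, hq, h1, Or.inl (h2.imp fun G h => mem_iUnion.2 ⟨n, h⟩)⟩
    · refine ⟨p, hp, Le.refl _ _, Or.inr ((Fo.forall fun n => Fo.of_dense (φ := (· ∉ s n)) hp
        fun q hq hqp => ?_).imp fun G h => by simpa using h)⟩
      obtain ⟨r, hr, h1, h2 | h2⟩ := ih n q hq
      · exact absurd ⟨r, hr, h1.trans hqp, n, h2⟩ hc
      · exact ⟨r, hr, h1, h2⟩

theorem Ms.decide (hφ : Ms A φ) (hp : p.In A) :
    ∃ q, q.In A ∧ Le N q p ∧ (Fo N A q φ ∨ Fo N A q fun G => ¬ φ G) :=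
  decide_set (S := {G | φ G}) ((@measurableSet_setOfPred _ (Sig J A) _).2 hφ) p hp

/-- If `p` does not force a measurable event, an extension forces its negation. -/
theorem Ms.exists_not (hφ : Ms A φ) (hp : p.In A) (h : ¬ Fo N A p φ) :
    ∃ q, q.In A ∧ Le N q p ∧ Fo N A q fun G => ¬ φ G := by
  by_contra hc
  refine h (Fo.of_dense hp fun q hq hqp => ?_)
  obtain ⟨r, hr, h1, h2 | h2⟩ := hφ.decide (N := N) hq
  · exact ⟨r, hr, h1, h2⟩
  · exact absurd ⟨r, hr, h1.trans hqp, h2⟩ hc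

theorem Ms.exists_of_frequently (hφ : Ms A φ) (h : ∃ᶠ G in GF N A, φ G) :
    ∃ q, q.In A ∧ Fo N A q φ := by
  obtain ⟨q, hq, -, h1⟩ := Ms.exists_not (N := N) (φ := fun G => ¬ φ G) hφ.not
    (top_in A) fun h' => h (fo_top.1 h')
  exact ⟨q, hq, h1.imp fun _ => not_not.1⟩

theorem Fo.frequently (h : Fo N A p φ) (hp : p.In A) : ∃ᶠ G in GF N A, φ G := fun h' =>
  let ⟨_, h1⟩ := (h.and (Fo.of_ev h' p)).ex hp; h1.2 h1.1

/-- A forced countable disjunction of measurable events can be decided. -/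
theorem Fo.decide_exists {ι : Sort*} [Countable ι] {φ : ι → Pt Λ J → Prop} (hφ : ∀ i, Ms A (φ i))
    (hp : p.In A) (h : Fo N A p fun G => ∃ i, φ i G) :
    ∃ q, q.In A ∧ Le N q p ∧ ∃ i, Fo N A q (φ i) := by
  by_contra hc
  have : Fo N A p fun G => ∀ i, ¬ φ i G := Fo.forall fun i => by
    by_contra h1
    obtain ⟨q, hq, h2, h3⟩ := Ms.exists_not (φ := fun G => ¬ φ i G) (hφ i).not hp h1
    exact hc ⟨q, hq, h2, i, h3.imp fun _ => not_not.1⟩
  obtain ⟨G, ⟨i, h1⟩, h2⟩ := (h.and this).ex hp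
  exact h2 i h1

/-- A set of conditions is captured by a measurable event. -/
theorem exists_capture (N : Data Λ J) {D : Set (Cond Λ J)} (hD : ∀ d ∈ D, d.In A) :
    ∃ E : Pt Λ J → Prop, Ms A E ∧ (∀ d ∈ D, Fo N A d E) ∧
      ∀ q, q.In A → Fo N A q E → ∃ r, r.In A ∧ Le N r q ∧ ∃ d ∈ D, Le N r d := by
  obtain ⟨D₀, h1, h2, h3⟩ := exists_countable_predense N (A := A) D
  have := h2.to_subtype
  refine ⟨fun G => ∃ e : D₀, G.mem e.1, Ms.ex fun e : D₀ => ms_mem (hD _ (h1 e.2)),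
    fun d hd => Fo.of_dense (hD d hd) fun q hq hqd => ?_, fun q hq h => ?_⟩
  · obtain ⟨r, hr, h4, e, he, h5⟩ := h3 d hd q hq hqd
    exact ⟨r, hr, h4, (fo_mem h5 hr (hD _ (h1 he))).imp fun G h => ⟨⟨e, he⟩, h⟩⟩
  · obtain ⟨G, hq', h4, hG⟩ := exists_gen hq (Eventually.and h (ev_gen N A))
    obtain ⟨e, he⟩ := h4 hq'
    obtain ⟨r, -, hr, h5, h6⟩ := hG.2.2 q e.1 hq' he hq (hD _ (h1 e.2))
    exact ⟨r, hr, h5, e.1, h1 e.2, h6⟩

/-- `(A', N')` extends `(A, N)`. -/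
structure Ext (N : Data Λ J) (A : Set Λ) (N' : Data Λ J) (A' : Set Λ) : Prop where
  cl : Closed N A
  sub : A ⊆ A'
  eq : ∀ a ∈ A, N' a = N a

theorem Ext.cl' (h : Ext N A N' A') : Closed N' A := fun a ha j i v r hr =>
  h.cl a ha j i v r (h.eq a ha ▸ hr)

theorem Ext.le_up (h : Ext N A N' A') (h1 : Le N q p) (hp : p.In A) : Le N' q p :=
  h1.agree h.cl hp (fun _ _ => ⟨rfl, rfl⟩) h.eq

theorem Ext.le_down (h : Ext N A N' A') (h1 : Le N' q p) (hp : p.In A) : Le N q p :=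
  h1.agree h.cl' hp (fun _ _ => ⟨rfl, rfl⟩) fun a ha => (h.eq a ha).symm

theorem Ext.res_le (h : Ext N A N' A') (h1 : Le N' q p) (hp : p.In A) : Le N (res A q) p :=
  (h.le_down h1 hp).res_left h.cl hp

theorem Ext.GF_le (h : Ext N A N' A') : GF N' A' ≤ GF N A := by
  refine le_countableGenerate_iff_of_countableInterFilter.2 ?_
  rintro _ (rfl | ⟨D, hD, rfl⟩)
  · refine mem_of_superset (ev_gen N' A') fun G hG => ⟨hG.1, fun p q h1 hq hp h2 =>
      hG.2.1 p q h1 (hq.mono h.sub) (hp.mono h.sub) (h.le_up h2 hp), fun p q h1 h2 hp hq => ?_⟩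
    obtain ⟨r, h3, hr, h4, h5⟩ := hG.2.2 p q h1 h2 (hp.mono h.sub) (hq.mono h.sub)
    exact ⟨res A r, hG.2.1 _ r h3 hr ((res_in A r).mono h.sub) (le_res _ _ _), res_in A r,
      h.res_le h4 hp, h.res_le h5 hq⟩
  · have : Dns N' A' {q | ∃ d ∈ D, d.In A ∧ Le N' q d} := by
      intro p hp
      obtain ⟨d, hd, hdA, h1⟩ := hD _ (res_in A p)
      exact ⟨glue A d p, ⟨d, hd, hdA, glue_le_left h.cl' hdA p⟩, glue_in (hdA.mono h.sub) hp,
        glue_le_right h.cl' hdA (h.le_up h1 (res_in A p))⟩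
    filter_upwards [ev_dns this, ev_gen N' A'] with G ⟨q, ⟨d, hd, hdA, h1⟩, hq, h2⟩ hG
    exact ⟨d, hd, hdA, hG.2.1 d q h2 hq (hdA.mono h.sub) h1⟩

theorem Ext.ev (h : Ext N A N' A') (h1 : ∀ᶠ G in GF N A, φ G) : ∀ᶠ G in GF N' A', φ G :=
  h.GF_le h1

theorem Ext.fo (h : Ext N A N' A') (h1 : Fo N A p φ) : Fo N' A' p φ := h.GF_le h1

/-- An event of the smaller iteration forced by `p` is forced by the restriction of `p`. -/
theorem Ext.reflect (h : Ext N A N' A') (hφ : Ms A φ) (hp : p.In A') (h1 : Fo N' A' p φ) :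
    Fo N A (res A p) φ := by
  by_contra hc
  obtain ⟨q, hq, h2, h3⟩ := hφ.exists_not (res_in A p) hc
  have hr := glue_in (A := A) (hq.mono h.sub) hp
  obtain ⟨G, h4, h5⟩ := ((h1.le (glue_le_right h.cl' hq (h.le_up h2 (res_in A p))) hr hp).and
    ((h.fo h3).le (glue_le_left h.cl' hq p) hr (hq.mono h.sub))).ex hr
  exact h5 h4

theorem Ext.reflect_ev (h : Ext N A N' A') (hφ : Ms A φ) (h1 : ∀ᶠ G in GF N' A', φ G) :
    ∀ᶠ G in GF N A, φ G := by
  have := h.reflect hφ (top_in A') (Fo.of_ev h1 _)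
  rwa [res_eq (top_in A), fo_top] at this

/-- A measurable event depends on countably many coordinates. -/
theorem exists_countable_supp_set {S : Set (Pt Λ J)} (hS : MeasurableSet[Sig J A] S) :
    ∃ Z ⊆ A, Z.Countable ∧ MeasurableSet[Sig J Z] S := by
  induction S, hS using MeasurableSpace.generateFrom_induction with
  | hC t ht _ =>
    obtain ⟨e, he, rfl⟩ := ht
    exact ⟨e.supp, in_iff.1 he, e.supp_finite.countable,
      MeasurableSpace.measurableSet_generateFrom ⟨e, in_iff.2 Subset.rfl, rfl⟩⟩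
  | empty => exact ⟨∅, empty_subset _, countable_empty, @MeasurableSet.empty _ (Sig J ∅)⟩
  | compl t _ ih =>
    obtain ⟨Z, h1, h2, h3⟩ := ih
    exact ⟨Z, h1, h2, h3.compl⟩
  | iUnion s _ ih =>
    choose Z h1 h2 h3 using ih
    exact ⟨⋃ n, Z n, iUnion_subset h1, countable_iUnion h2,
      MeasurableSet.iUnion fun n => Sig_mono (subset_iUnion Z n) _ (h3 n)⟩

theorem exists_countable_supp {ι : Sort*} [Countable ι] {φ : ι → Pt Λ J → Prop}
    (hφ : ∀ i, Ms A (φ i)) : ∃ Z ⊆ A, Z.Countable ∧ ∀ i, Ms Z (φ i) := by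
  choose Z h1 h2 h3 using fun i => exists_countable_supp_set (S := {G | φ i G})
    ((@measurableSet_setOfPred _ (Sig J A) _).2 (hφ i))
  exact ⟨⋃ n, Z n, iUnion_subset h1, countable_iUnion h2, fun i =>
    Ms.mono' ((@measurableSet_setOfPred _ (Sig J (Z i)) _).1 (h3 i)) (subset_iUnion Z i)⟩

/-- Pairwise disjoint positive events are countably many. -/
theorem countable_of_disjoint {ι : Type} {φ : ι → Pt Λ J → Prop} (hφ : ∀ i, Ms A (φ i))
    (hpos : ∀ i, ∃ᶠ G in GF N A, φ i G) (hd : ∀ i j, i ≠ j → ∀ G, φ i G → ¬ φ j G) :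
    Countable ι := by
  choose q hq1 hq2 using fun i => (hφ i).exists_of_frequently (hpos i)
  have key : ∀ i j, (∃ r, r.In A ∧ Le N r (q i) ∧ Le N r (q j)) → i = j := by
    rintro i j ⟨r, hr, h1, h2⟩
    by_contra hc
    obtain ⟨G, h3, h4⟩ := (((hq2 i).le h1 hr (hq1 i)).and ((hq2 j).le h2 hr (hq1 j))).ex hr
    exact hd i j hc G h3 h4
  have hinj : Function.Injective q := fun i j h =>
    key i j ⟨q i, hq1 i, Le.refl _ _, h ▸ Le.refl _ _⟩
  have : (range q).Countable := countable_antichain N (A := A)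
    (by rintro _ ⟨i, rfl⟩; exact hq1 i)
    (by rintro _ ⟨i, rfl⟩ _ ⟨j, rfl⟩ h; rw [key i j h])
  have := this.to_subtype
  exact (Equiv.ofInjective q hinj).injective.countable

end Pool.Agent.Shared.RealForcing
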